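import Pool.Agent.U849.FO.Gal

/-!
# Groups all of whose open subgroups have finite abelianization
-/

set_option autoImplicit false
set_option linter.unusedSectionVars false

namespace Pool.Agent.U849.FO

open Filter Topology

theorem map_dser {G H : Type} [Group G] [Group H] (f : G →* H) (X : Subgroup G) (m : ℕ) :
    (dser X m).map f = dser (X.map f) m := by
  induction m with
  | zero => rfl
  | succ m ih =>
    change (⁅dser X m, dser X m⁆ : Subgroup G).map f = ⁅dser (X.map f) m, dser (X.map f) m⁆
    rw [Subgroup.map_commutator, ih]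

/-- solvable groups -/
theorem solvable_of_dser {H : Type} [Group H] (X : Subgroup H) (m : ℕ) (h : dser X m = ⊥) :
    Group.IsSolvable X := by
  refine ⟨⟨m, ?_⟩⟩
  have h1 : ∀ k, (derivedSeries X k).map X.subtype = dser X k := by
    intro k
    induction k with
    | zero =>
      rw [derivedSeries_zero]
      change (⊤ : Subgroup X).map X.subtype = X
      rw [← MonoidHom.range_eq_map, Subgroup.range_subtype]
    | succ k ih =>
      rw [derivedSeries_succ, Subgroup.map_commutator, ih]
      rfl
  have h2 := h1 m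
  rw [h] at h2
  exact (Subgroup.map_eq_bot_iff_of_injective _ X.subtype_injective).1 h2

theorem dser_succ' {G : Type} [Group G] (U : Subgroup G) (m : ℕ) : dser ⁅U, U⁆ m = dser U (m + 1) := by
  induction m with
  | zero => rfl
  | succ m ih =>
    change ⁅dser ⁅U, U⁆ m, dser ⁅U, U⁆ m⁆ = ⁅dser U (m + 1), dser U (m + 1)⁆
    rw [ih]

theorem dser_closure {G : Type} [Group G] [TopologicalSpace G] [IsTopologicalGroup G]
    (X : Subgroup G) (m : ℕ) : dser X.topologicalClosure m ≤ (dser X m).topologicalClosure := by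
  induction m with
  | zero => exact le_rfl
  | succ m ih =>
    change ⁅dser X.topologicalClosure m, dser X.topologicalClosure m⁆ ≤
      (⁅dser X m, dser X m⁆ : Subgroup G).topologicalClosure
    rw [Subgroup.commutator_le]
    intro a ha b hb
    have ha' : a ∈ closure (dser X m : Set G) := ih ha
    have hb' : b ∈ closure (dser X m : Set G) := ih hb
    change a * b * a⁻¹ * b⁻¹ ∈ closure ((⁅dser X m, dser X m⁆ : Subgroup G) : Set G)
    refine map_mem_closure₂ (f := fun a b : G => a * b * a⁻¹ * b⁻¹) (by fun_prop) ha' hb' ?_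
    intro x hx y hy
    exact Subgroup.commutator_mem_commutator hx hy

/-- **finite images** -/
theorem fab {G H : Type} [Group G] [TopologicalSpace G] [IsTopologicalGroup G] [CompactSpace G]
    [Group H] (ρ : G →* H) (hker : IsClosed (ρ.ker : Set G))
    (hab : ∀ U N : Subgroup G, IsOpen (U : Set G) → IsClosed (N : Set G) → N ≤ U → ρ.ker ≤ N →
      ⁅U, U⁆ ≤ N → N.relIndex U ≠ 0) :
    ∀ (m : ℕ) (U : Subgroup G), IsOpen (U : Set G) → ρ.ker ≤ U → dser U m ≤ ρ.ker →
      ρ.ker.relIndex U ≠ 0 := by
  intro m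
  induction m with
  | zero =>
    intro U _ _ h
    have h' : U ≤ ρ.ker := h
    rw [Subgroup.relIndex_eq_one.2 h']
    exact one_ne_zero
  | succ m ih =>
    intro U hU hkU h
    set N : Subgroup G := (⁅U, U⁆ ⊔ ρ.ker).topologicalClosure with hN
    have hUc : IsClosed (U : Set G) := Subgroup.isClosed_of_isOpen U hU
    have hUU : ⁅U, U⁆ ≤ U := by
      rw [Subgroup.commutator_le]
      intro a ha b hb
      exact U.mul_mem (U.mul_mem (U.mul_mem ha hb) (U.inv_mem ha)) (U.inv_mem hb)
    have hNU : N ≤ U := Subgroup.topologicalClosure_minimal _ (sup_le hUU hkU) hUc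
    have hNc : IsClosed (N : Set G) := Subgroup.isClosed_topologicalClosure _
    have hkN : ρ.ker ≤ N := le_sup_right.trans (Subgroup.le_topologicalClosure _)
    have hcN : ⁅U, U⁆ ≤ N := le_sup_left.trans (Subgroup.le_topologicalClosure _)
    have h1 := hab U N hU hNc hNU hkN hcN
    have hfinU : Finite (G ⧸ U) := Subgroup.quotient_finite_of_isOpen _ hU
    have hfiU : U.FiniteIndex := Subgroup.finiteIndex_of_finite_quotient
    have hfiN : N.FiniteIndex := ⟨by
      rw [← Subgroup.relIndex_mul_index hNU]
      exact mul_ne_zero h1 hfiU.index_ne_zero⟩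
    have hNo : IsOpen (N : Set G) := Subgroup.isOpen_of_isClosed_of_finiteIndex _ hNc
    have h2 : dser N m ≤ ρ.ker := by
      have h3 : dser (⁅U, U⁆ ⊔ ρ.ker) m ≤ ρ.ker := by
        have h4 : (dser (⁅U, U⁆ ⊔ ρ.ker) m).map ρ = ⊥ := by
          rw [map_dser, Subgroup.map_sup]
          have h5 : ρ.ker.map ρ = ⊥ := by
            rw [eq_bot_iff]
            rintro _ ⟨x, hx, rfl⟩
            exact Subgroup.mem_bot.2 hx
          rw [h5, sup_bot_eq, ← map_dser, dser_succ', eq_bot_iff]
          rintro _ ⟨x, hx, rfl⟩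
          exact Subgroup.mem_bot.2 (h hx)
        intro x hx
        have h6 : ρ x ∈ (dser (⁅U, U⁆ ⊔ ρ.ker) m).map ρ := ⟨x, hx, rfl⟩
        rw [h4] at h6
        exact Subgroup.mem_bot.1 h6
      exact (dser_closure _ m).trans (Subgroup.topologicalClosure_minimal _ h3 hker)
    have h3 := ih N hNo hkN h2
    rw [← Subgroup.relIndex_mul_relIndex ρ.ker N U hkN hNU]
    exact mul_ne_zero h3 h1

end Pool.Agent.U849.FO
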