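import Pool.Agent.U849.FO.Sol
import Pool.Agent.U849.SS.Cheb

/-!
# Frobenius elements of finite order
-/

set_option autoImplicit false
set_option linter.unusedSectionVars false

namespace Pool.Agent.U849.FO

open Filter Topology Module MeasureTheory MeasureTheory.Measure
open scoped ENNReal
open Pool.Agent.U849.SS (Cts)

section tors

variable {p : ℕ} [hp : Fact p.Prime] {K : Type} [NontriviallyNormedField K] [CompleteSpace K]
  [NormedAlgebra ℚ_[p] K] [IsAlgClosed K] [CharZero K]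
  {G : Type} [Group G] [TopologicalSpace G] [IsTopologicalGroup G] [CompactSpace G]
  [TotallyDisconnectedSpace G]

include hp in
/-- elements of finite order have bounded order -/
theorem tors_abs {A : Type} [NormedRing A] [NormedAlgebra ℚ_[p] A] [CompleteSpace A]
    {R : G →* A} (hRc : Continuous R) :
    ∃ M : ℕ, 0 < M ∧ ∀ g, ∀ k : ℕ, 0 < k → R g ^ k = 1 → R g ^ M = 1 := by
  set ε : ℝ := 1 / (8 * (p : ℝ) ^ 2) with hε
  have hε0 : 0 < ε := by
    have : (0 : ℝ) < p := by exact_mod_cast hp.out.pos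
    positivity
  have hO1 : {u : G | ‖R u - 1‖ < ε} ∈ 𝓝 (1 : G) := by
    have h1 : Continuous fun u : G => ‖R u - 1‖ := (hRc.sub continuous_const).norm
    refine (isOpen_lt h1 continuous_const).mem_nhds ?_
    change ‖R 1 - 1‖ < ε
    rw [map_one, sub_self, norm_zero]
    exact hε0
  obtain ⟨O, hOs, hOo, hO1'⟩ := mem_nhds_iff.1 hO1
  obtain ⟨N, hN⟩ := ProfiniteGrp.exist_openNormalSubgroup_sub_open_nhds_of_one hOo hO1'
  have hfin : Finite (G ⧸ N.toSubgroup) := Subgroup.quotient_finite_of_isOpen _ N.isOpen'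
  have hfi : N.toSubgroup.FiniteIndex := Subgroup.finiteIndex_of_finite_quotient
  have hn : N.toSubgroup.Normal := N.isNormal'
  refine ⟨N.toSubgroup.index, Nat.pos_of_ne_zero hfi.index_ne_zero, fun g k hk hgk => ?_⟩
  have h1 : g ^ N.toSubgroup.index ∈ N.toSubgroup := Subgroup.pow_index_mem _ g
  have h2 : ‖R (g ^ N.toSubgroup.index) - 1‖ < ε := hOs (hN h1)
  rw [map_pow] at h2
  refine eq_one_of_pow (p := p) h2.le hk ?_
  rw [← pow_mul, mul_comm, pow_mul, hgk, one_pow]

end tors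

section

open scoped Matrix.Norms.Operator

theorem tors {p : ℕ} [hp : Fact p.Prime] {K : Type} [NontriviallyNormedField K] [CompleteSpace K]
    [NormedAlgebra ℚ_[p] K] [IsAlgClosed K] [CharZero K]
    {G : Type} [Group G] [TopologicalSpace G] [IsTopologicalGroup G] [CompactSpace G]
    [TotallyDisconnectedSpace G] {n : ℕ} {ρ : G →* End K (Fin n → K)} (hρ : Cts ρ) :
    ∃ M : ℕ, 0 < M ∧ ∀ g, ∀ k : ℕ, 0 < k → ρ g ^ k = 1 → ρ g ^ M = 1 := by
  let E : Matrix (Fin n) (Fin n) K ≃ₐ[K] End K (Fin n → K) := Matrix.toLinAlgEquiv'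
  let R : G →* Matrix (Fin n) (Fin n) K := (MonoidHomClass.toMonoidHom E.symm).comp ρ
  have hER : ∀ g, E (R g) = ρ g := fun g => E.apply_symm_apply _
  have aux : ∀ {A : Type} [NormedRing A] [NormedAlgebra K A] [NormedAlgebra ℚ_[p] A]
      [FiniteDimensional K A] (E : A ≃ₐ[K] End K (Fin n → K)),
      ∃ M : ℕ, 0 < M ∧ ∀ g, ∀ k : ℕ, 0 < k → (E.symm (ρ g)) ^ k = 1 → (E.symm (ρ g)) ^ M = 1 := by
    intro A _ _ _ _ E
    have hc : CompleteSpace A := FiniteDimensional.complete K A
    exact tors_abs (p := p) (R := (MonoidHomClass.toMonoidHom E.symm).comp ρ) (cont_abs E hρ)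
  obtain ⟨M, hM, h⟩ := aux E
  refine ⟨M, hM, fun g k hk hgk => ?_⟩
  have h1 := h g k hk (by rw [← map_pow, hgk, map_one])
  rw [← map_pow] at h1
  have h2 := congrArg E h1
  rwa [E.apply_symm_apply, map_one] at h2

end

open NumberField IsDedekindDomain Pool.Agent.W401.Cheb Pool.Agent.R401.Sup
open Pool.Agent.W569.FM Pool.Agent.R401.Img Pool.Agent.R401.Eng Pool.Agent.R401.Sup2
open Pool.Agent.R401.Sup3 Pool.Agent.R401.Sup4

variable {K : Type} [Field K] [NumberField K] {n : ℕ} {p : ℕ} [hp : Fact p.Prime]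

/-- **Galois representations with many Frobenius elements of finite order** -/
theorem one_rep (ρ : GK K →* GL (Fin n) ℚ_[p]) (hρ : Continuous ρ) (θ : ℝ) (hθ : θ < 1)
    (hdens : ∃ᶠ N : ℕ in atTop, dens (fun v : HeightOneSpectrum (𝓞 K) =>
      ∃ g, IsFrob v g ∧ ∀ k : ℕ, 0 < k → ρ g ^ k ≠ 1) N ≤ θ) :
    ∃ U : Subgroup (GK K), U.Normal ∧ IsOpen (U : Set (GK K)) ∧ ∃ m, ∀ c ∈ dser U m, ρ c = 1 := by
  classical
  -- the representation over the completed algebraic closure
  let F := ℂ_[p]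
  have hcm : Continuous (mt ρ) := continuous_mt ρ hρ
  let ρF : GK K →* End F (Fin n → F) :=
    (Matrix.toLinAlgEquiv' : Matrix (Fin n) (Fin n) F ≃ₐ[F] End F (Fin n → F)).toMonoidHom.comp
      ((algebraMap ℚ_[p] F).mapMatrix.toMonoidHom.comp ((Units.coeHom _).comp ρ))
  have hρF : ∀ g, ρF g = Matrix.toLin' ((mt ρ g).map (algebraMap ℚ_[p] F)) := fun g => rfl
  have hcts : Cts ρF := by
    intro φ v
    have h1 : (fun g => φ (ρF g v)) = fun g => ∑ i, (∑ j, algebraMap ℚ_[p] F (mt ρ g i j) * v j) *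
        φ (fun j => if i = j then 1 else 0) := by
      funext g
      rw [LinearMap.pi_apply_eq_sum_univ φ, hρF, Matrix.toLin'_apply]
      rfl
    rw [h1]
    have h3 : ∀ i j, Continuous fun g => algebraMap ℚ_[p] F (mt ρ g i j) := fun i j =>
      (continuous_algebraMap ℚ_[p] F).comp (hcm.matrix_elem i j)
    have h4 : ∀ i, Continuous fun g => ∑ j, algebraMap ℚ_[p] F (mt ρ g i j) * v j := fun i =>
      continuous_finsetSum _ fun j _ => (h3 i j).mul continuous_const
    exact continuous_finsetSum _ fun i _ => (h4 i).mul continuous_const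
  have hinj : ∀ (g : GK K) (k : ℕ), ρF g ^ k = 1 ↔ ρ g ^ k = 1 := by
    intro g k
    rw [← map_pow, ← map_pow]
    have hi : Function.Injective (algebraMap ℚ_[p] F) := (algebraMap ℚ_[p] F).injective
    constructor
    · intro h
      apply Units.ext
      have h1 : Matrix.toLin' ((mt ρ (g ^ k)).map (algebraMap ℚ_[p] F)) =
          Matrix.toLin' (1 : Matrix (Fin n) (Fin n) F) := by
        rw [← hρF, h, Matrix.toLin'_one]
        rfl
      have h2 := Matrix.toLin'.injective h1
      have h3 : (mt ρ (g ^ k)).map (algebraMap ℚ_[p] F) = (1 : Matrix (Fin n) (Fin n) ℚ_[p]).map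
          (algebraMap ℚ_[p] F) := by
        rw [h2, Matrix.map_one _ (map_zero _) (map_one _)]
      exact Matrix.map_injective hi h3
    · intro h
      rw [hρF]
      have h1 : mt ρ (g ^ k) = 1 := by
        change ((ρ (g ^ k) : GL (Fin n) ℚ_[p]) : Matrix (Fin n) (Fin n) ℚ_[p]) = 1
        rw [h]
        rfl
      rw [h1, Matrix.map_one _ (map_zero _) (map_one _), Matrix.toLin'_one]
      rfl
  obtain ⟨M, hM, htors⟩ := tors (p := p) hcts
  set Good : Set (GK K) := {g | Pool.Agent.R401.Img.mt ρ g ^ M = 1} with hGood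
  have hcl : IsClosed Good := isClosed_singleton.preimage (f := fun g => Pool.Agent.R401.Img.mt ρ g ^ M) (hcm.pow M)
  have hmem : ∀ g, g ∈ Good ↔ ρ g ^ M = 1 := by
    intro g
    constructor
    · intro h
      exact Units.ext h
    · intro h
      change ((ρ g : GL (Fin n) ℚ_[p]) : Matrix (Fin n) (Fin n) ℚ_[p]) ^ M = 1
      rw [← Units.val_pow_eq_pow_val, h]
      rfl
  have hconj : ∀ g ∈ Good, ∀ x : GK K, x * g * x⁻¹ ∈ Good := by
    intro g hg x
    rw [hmem] at hg ⊢
    rw [← map_pow, _root_.conj_pow, map_mul, map_mul, map_pow, hg, mul_one, ← map_mul, mul_inv_cancel,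
      map_one]
  have hfreq : ∃ᶠ N : ℕ in atTop,
      dens (fun v : HeightOneSpectrum (𝓞 K) => ∃ g, IsFrob v g ∧ g ∉ Good) N ≤ θ := by
    refine hdens.mono fun N hN => le_trans (dens_le ?_ N) hN
    rintro v ⟨g, hg, hgG⟩
    refine ⟨g, hg, fun k hk hgk => hgG ?_⟩
    rw [hmem, ← hinj]
    exact htors g k hk ((hinj g k).2 hgk)
  -- the measure
  let _m : MeasurableSpace (GK K) := borel _
  have _b : BorelSpace (GK K) := ⟨rfl⟩
  let K₀ : TopologicalSpace.PositiveCompacts (GK K) := ⊤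
  let μ : Measure (GK K) := haarMeasure K₀
  have hμ1 : IsProbabilityMeasure μ := ⟨by
    have h1 := haarMeasure_self (K₀ := K₀)
    exact h1⟩
  have hμX : ENNReal.ofReal (1 - θ) ≤ μ Good := by
    refine Pool.Agent.U849.SS.measure_ge μ hcl fun W hW A hA => ?_
    have h1 := engine Good hcl hconj hfreq (fun _ : Fin 1 => 1) W hW A (by
      intro g hg
      have h2 := hg 0
      rw [mul_one] at h2
      exact hA g h2)
    simpa using h1
  have hμ0 : μ Good ≠ 0 := by
    intro h0
    rw [h0, nonpos_iff_eq_zero, ENNReal.ofReal_eq_zero] at hμX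
    linarith
  obtain ⟨U, g, hUn, hUo, -, hg, hgU⟩ := Pool.Agent.U849.SS.coset_good (ρ := ρF) μ hcl hμ0 ⊤ isOpen_univ
    (M := M) (N := 1) (fun x hx => by
      rw [pow_one, sub_eq_zero, hinj, ← hmem]
      exact hx)
  obtain ⟨U', hn', ho', m, hm⟩ := main2 (p := p) (g := g) hUo hM n (Fin n → F) ρF
    (Module.finrank_fin_fun F) hcts (fun u hu => by
      have h1 := hgU (g * u) (by rwa [inv_mul_cancel_left])
      rwa [pow_one, sub_eq_zero] at h1)
  refine ⟨U', hn', ho', m, fun c hc => ?_⟩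
  have h1 := (hinj c 1).1 (by rw [pow_one]; exact hm c hc)
  rwa [pow_one] at h1

end Pool.Agent.U849.FO
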