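import Pool.Agent.U849.FO.Qu7

/-!
# Compact groups with many elements whose eigenvalue ratios have finite order
-/

set_option autoImplicit false
set_option linter.unusedSectionVars false

namespace Pool.Agent.U849.FO

open Filter Topology Module MeasureTheory MeasureTheory.Measure
open scoped ENNReal
open Pool.Agent.U849.SS (Cts)

section

open scoped Matrix.Norms.Operator

theorem torsK {p : ℕ} [hp : Fact p.Prime] {K : Type} [NontriviallyNormedField K] [CompleteSpace K]
    [NormedAlgebra ℚ_[p] K] {n : ℕ}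
    {G : Type} [Group G] [TopologicalSpace G] [IsTopologicalGroup G] [CompactSpace G]
    [TotallyDisconnectedSpace G] {R : G →* Matrix (Fin n) (Fin n) K} (hR : Continuous R) :
    ∃ M : ℕ, 0 < M ∧ ∀ g, ∀ k N : ℕ, 0 < k → (R g ^ k - 1) ^ N = 0 → (R g ^ M - 1) ^ N = 0 := by
  have aux : ∀ {A : Type} [NormedRing A] [NormedAlgebra K A] [NormedAlgebra ℚ_[p] A]
      [FiniteDimensional K A] {R : G →* A}, Continuous R →
      ∃ M : ℕ, 0 < M ∧ ∀ g, ∀ k N : ℕ, 0 < k → (R g ^ k - 1) ^ N = 0 → (R g ^ M - 1) ^ N = 0 := by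
    intro A _ _ _ _ R hR
    have hc : CompleteSpace A := FiniteDimensional.complete K A
    exact torsq_abs (p := p) hR
  exact aux hR

end

variable {p : ℕ} [hp : Fact p.Prime] {K : Type} [NontriviallyNormedField K] [CompleteSpace K]
  [NormedAlgebra ℚ_[p] K] [IsAlgClosed K] [CharZero K] {n : ℕ}
  {G : Type} [Group G] [TopologicalSpace G] [IsTopologicalGroup G] [CompactSpace G]
  [TotallyDisconnectedSpace G]

include hp in
/-- **compact groups with many elements with eigenvalue ratios of finite order** -/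
theorem gen (ρ : G →* GL (Fin n) K) (hρ : Continuous ρ) {c : ℝ} (hc : 0 < c)
    (h : ∀ U : Subgroup G, IsOpen (U : Set G) → ∀ A : Finset G,
      (∀ g, (∃ k : ℕ, 0 < k ∧ ∃ c : K, IsNilpotent (((ρ g : GL (Fin n) K) :
        Matrix (Fin n) (Fin n) K) ^ k - c • (1 : Matrix (Fin n) (Fin n) K))) →
          ∃ a ∈ A, a⁻¹ * g ∈ U) → c * U.index ≤ A.card) :
    ∃ U : Subgroup G, U.Normal ∧ IsOpen (U : Set G) ∧ ∃ m, ∀ c ∈ dser U m, ρ c = 1 := by
  classical
  set R : G →* Matrix (Fin (n * n)) (Fin (n * n)) K := adm K ρ with hR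
  have hRc : Continuous R := adm_cont hρ
  obtain ⟨M, hM, htors⟩ := torsK (p := p) hRc
  let φ : Matrix (Fin (n * n)) (Fin (n * n)) K →+* End K (Fin (n * n) → K) :=
    ((Matrix.toLinAlgEquiv' : Matrix (Fin (n * n)) (Fin (n * n)) K ≃ₐ[K]
      End K (Fin (n * n) → K)) : _ →+* _)
  have hφ : Function.Injective φ :=
    (Matrix.toLinAlgEquiv' : Matrix (Fin (n * n)) (Fin (n * n)) K ≃ₐ[K]
      End K (Fin (n * n) → K)).injective
  let ρF : G →* End K (Fin (n * n) → K) := φ.toMonoidHom.comp R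
  have hρF' : ∀ g, ρF g = φ (R g) := fun g => rfl
  have hρF : ∀ g, ρF g = Matrix.toLin' (R g) := fun g => rfl
  have hcts : Cts ρF := by
    intro φ v
    have h1 : (fun g => φ (ρF g v)) = fun g => ∑ i, (∑ j, R g i j * v j) *
        φ (fun j => if i = j then 1 else 0) := by
      funext g
      rw [LinearMap.pi_apply_eq_sum_univ φ, hρF, Matrix.toLin'_apply]
      rfl
    rw [h1]
    have h4 : ∀ i, Continuous fun g => ∑ j, R g i j * v j := fun i =>
      continuous_finsetSum _ fun j _ => (hRc.matrix_elem i j).mul continuous_const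
    exact continuous_finsetSum _ fun i _ => (h4 i).mul continuous_const
  have hrel : ∀ (g : G) (M N : ℕ), (ρF g ^ M - 1) ^ N = φ ((R g ^ M - 1) ^ N) := by
    intro g M N
    rw [map_pow, map_sub, map_pow, map_one, hρF']
  set Good : Set G := {g | (R g ^ M - 1) ^ (n * n) = 0} with hGood
  have hcl : IsClosed Good := isClosed_singleton.preimage
    (f := fun g => (R g ^ M - 1) ^ (n * n)) (((hRc.pow M).sub continuous_const).pow (n * n))
  have hsub : ∀ g, (∃ k : ℕ, 0 < k ∧ ∃ c : K, IsNilpotent (((ρ g : GL (Fin n) K) :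
      Matrix (Fin n) (Fin n) K) ^ k - c • (1 : Matrix (Fin n) (Fin n) K))) → g ∈ Good := by
    rintro g ⟨k, hk, c, hnil⟩
    refine htors g k (n * n) hk (nil_pow ?_)
    have h1 := nil_scalar hnil
    have h2 : R g ^ k - 1 = Matrix.reindexAlgEquiv K K
        (finProdFinEquiv : Fin n × Fin n ≃ Fin (n * n)) (kap K n (ρ g) ^ k - 1) := by
      rw [map_sub, map_pow, map_one]
      rfl
    rw [h2]
    exact h1.map _
  -- the measure
  let _m : MeasurableSpace G := borel _
  have _b : BorelSpace G := ⟨rfl⟩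
  let K₀ : TopologicalSpace.PositiveCompacts G := ⊤
  let μ : Measure G := haarMeasure K₀
  have hμ1 : IsProbabilityMeasure μ := ⟨by
    have h1 := haarMeasure_self (K₀ := K₀)
    exact h1⟩
  have hμX : ENNReal.ofReal c ≤ μ Good := by
    refine Pool.Agent.U849.SS.measure_ge μ hcl fun W hW A hA => ?_
    exact h W hW A fun g hg => hA g (hsub g hg)
  have hμ0 : μ Good ≠ 0 := by
    intro h0
    rw [h0, nonpos_iff_eq_zero, ENNReal.ofReal_eq_zero] at hμX
    linarith
  obtain ⟨U, g, hUn, hUo, -, hg, hgU⟩ := Pool.Agent.U849.SS.coset_good (ρ := ρF) μ hcl hμ0 ⊤ isOpen_univ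
    (M := M) (N := n * n) (fun x hx => by
      have hx' : (R x ^ M - 1) ^ (n * n) = 0 := hx
      rw [hrel, hx', map_zero])
  obtain ⟨U', hn', ho', m, hm⟩ := main2q (p := p) (g := g) hUo (N := n * n) hM (n * n)
    (Fin (n * n) → K) ρF (Module.finrank_fin_fun K) hcts
    (fun u hu => hgU (g * u) (by rwa [inv_mul_cancel_left]))
  refine ⟨U', hn', ho', m + 1, ?_⟩
  have hkap : ∀ c ∈ dser U' m, kap K n (ρ c) = 1 := by
    intro c hc
    have h1 : φ (R c) = φ 1 := by
      rw [map_one]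
      exact hm c hc
    have h2 : Matrix.reindexAlgEquiv K K (finProdFinEquiv : Fin n × Fin n ≃ Fin (n * n))
        (kap K n (ρ c)) = 1 := hφ h1
    rw [← map_one (Matrix.reindexAlgEquiv K K (finProdFinEquiv : Fin n × Fin n ≃ Fin (n * n)))] at h2
    exact (Matrix.reindexAlgEquiv K K (finProdFinEquiv : Fin n × Fin n ≃ Fin (n * n))).injective h2
  have hle : dser U' (m + 1) ≤ ρ.ker := by
    change ⁅dser U' m, dser U' m⁆ ≤ ρ.ker
    rw [Subgroup.commutator_le]
    intro a ha b hb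
    rw [MonoidHom.mem_ker]
    have h1 : ρ (a * b) = ρ (b * a) := by
      rw [map_mul, map_mul]
      apply Units.ext
      rw [Units.val_mul, Units.val_mul]
      exact kap_one (hkap a ha) _
    change ρ (a * b * a⁻¹ * b⁻¹) = 1
    have h4 : a * b * a⁻¹ * b⁻¹ = (a * b) * (b * a)⁻¹ := by group
    rw [h4, map_mul, h1, ← map_mul, mul_inv_cancel, map_one]
  intro c hc
  exact MonoidHom.mem_ker.1 (hle hc)

/-- finite images -/
theorem finite_of_fab {H X : Type} [Group H] [TopologicalSpace H] [IsTopologicalGroup H]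
    [CompactSpace H] [Group X] [TopologicalSpace X] [T1Space X] (ρ : H →* X) (hρ : Continuous ρ)
    {U : Subgroup H} (hUo : IsOpen (U : Set H)) {m : ℕ} (hm : dser U m ≤ ρ.ker)
    (hab : ∀ U N : Subgroup H, IsOpen (U : Set H) → IsClosed (N : Set H) → N ≤ U → ρ.ker ≤ N →
      ⁅U, U⁆ ≤ N → N.relIndex U ≠ 0) : (Set.range ρ).Finite := by
  have hker : IsClosed (ρ.ker : Set H) := by
    have h1 : (ρ.ker : Set H) = ρ ⁻¹' {1} := rfl
    rw [h1]
    exact isClosed_singleton.preimage hρ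
  have hU'o : IsOpen ((U ⊔ ρ.ker : Subgroup H) : Set H) := Subgroup.isOpen_mono le_sup_left hUo
  have h1 : dser (U ⊔ ρ.ker) m ≤ ρ.ker := by
    have h4 : (dser (U ⊔ ρ.ker) m).map ρ = ⊥ := by
      rw [map_dser, Subgroup.map_sup]
      have h5 : ρ.ker.map ρ = ⊥ := by
        rw [eq_bot_iff]
        rintro _ ⟨x, hx, rfl⟩
        exact Subgroup.mem_bot.2 hx
      rw [h5, sup_bot_eq, ← map_dser, eq_bot_iff]
      rintro _ ⟨x, hx, rfl⟩
      exact Subgroup.mem_bot.2 (hm hx)
    intro x hx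
    have h6 : ρ x ∈ (dser (U ⊔ ρ.ker) m).map ρ := ⟨x, hx, rfl⟩
    rw [h4] at h6
    exact Subgroup.mem_bot.1 h6
  have h2 := fab ρ hker hab m _ hU'o le_sup_right h1
  have hfinU : Finite (H ⧸ (U ⊔ ρ.ker)) := Subgroup.quotient_finite_of_isOpen _ hU'o
  have hfiU : (U ⊔ ρ.ker).FiniteIndex := Subgroup.finiteIndex_of_finite_quotient
  have hfiK : ρ.ker.FiniteIndex := ⟨by
    rw [← Subgroup.relIndex_mul_index (le_sup_right : ρ.ker ≤ U ⊔ ρ.ker)]
    exact mul_ne_zero h2 hfiU.index_ne_zero⟩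
  have hq : Finite (H ⧸ ρ.ker) := Subgroup.finite_quotient_of_finiteIndex
  have h3 : Finite ρ.range := Finite.of_equiv _ (QuotientGroup.quotientKerEquivRange ρ).toEquiv
  rw [← MonoidHom.coe_range]
  exact Set.toFinite _

end Pool.Agent.U849.FO
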