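import Pool.Agent.U849.FO.Gen

/-!
# Irreducible representations with finite geometric image
-/

set_option autoImplicit false
set_option linter.unusedSectionVars false

namespace Pool.Agent.U849.FO

open Filter Topology Module Matrix

variable {K : Type} [Field K] [TopologicalSpace K] [IsTopologicalRing K] [T1Space K] [IsAlgClosed K]
  {n : ℕ} {G : Type} [Group G] [TopologicalSpace G] [IsTopologicalGroup G] [CompactSpace G]
  [TotallyDisconnectedSpace G]

/-- closed sets which contain all `φ ^ j m` -/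
theorem all_of_closed {φ : G} {H : Subgroup G}
    (hφ : ∀ U : Subgroup G, IsOpen (U : Set G) → ∀ g : G, ∃ j : ℕ, ∃ m ∈ H, ∃ u ∈ U, g = φ ^ j * m * u)
    {C : Set G} (hC : IsClosed C) (h : ∀ j : ℕ, ∀ m ∈ H, φ ^ j * m ∈ C) (g : G) : g ∈ C := by
  by_contra hg
  have h1 : {u : G | g * u ∉ C} ∈ 𝓝 (1 : G) := by
    have h2 : IsOpen {u : G | g * u ∉ C} :=
      (hC.preimage (continuous_const.mul continuous_id : Continuous fun u : G => g * u)).isOpen_compl
    refine h2.mem_nhds ?_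
    change g * 1 ∉ C
    rwa [mul_one]
  obtain ⟨O, hOs, hOo, hO1⟩ := mem_nhds_iff.1 h1
  obtain ⟨N, hN⟩ := ProfiniteGrp.exist_openNormalSubgroup_sub_open_nhds_of_one hOo hO1
  obtain ⟨j, m, hm, u, hu, hgu⟩ := hφ N.toSubgroup N.isOpen' g
  have h3 : g * u⁻¹ ∉ C := hOs (hN (N.toSubgroup.inv_mem hu))
  apply h3
  rw [hgu, mul_assoc, mul_inv_cancel, mul_one]
  exact h j m hm

/-- **finite image** -/
theorem finite_of_geom (ρ : G →* GL (Fin n) K) (hρ : Continuous ρ)
    (hirr : ∀ W : Submodule K (Fin n → K),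
      (∀ g, ∀ w ∈ W, Matrix.mulVec ((ρ g : GL (Fin n) K) : Matrix (Fin n) (Fin n) K) w ∈ W) →
        W = ⊥ ∨ W = ⊤)
    {H : Subgroup G} (hHn : H.Normal) (hH : (ρ '' (H : Set G)).Finite) {φ : G}
    (hφ : ∀ U : Subgroup G, IsOpen (U : Set G) → ∀ g : G, ∃ j : ℕ, ∃ m ∈ H, ∃ u ∈ U, g = φ ^ j * m * u)
    {D : ℕ} (hD : 0 < D)
    (hdet : ∀ g, ((ρ g : GL (Fin n) K) : Matrix (Fin n) (Fin n) K).det ^ D = 1) :
    (Set.range ρ).Finite := by
  classical
  rcases Nat.eq_zero_or_pos n with hn | hn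
  · subst hn
    exact Set.toFinite _
  have hGT : T1Space (GL (Fin n) K) := by
    refine ⟨fun x => ?_⟩
    have h1 : IsClosed ((fun y : GL (Fin n) K => (y : Matrix (Fin n) (Fin n) K)) ⁻¹' {(x : Matrix (Fin n) (Fin n) K)}) :=
      isClosed_singleton.preimage Units.continuous_val
    have h2 : ((fun y : GL (Fin n) K => (y : Matrix (Fin n) (Fin n) K)) ⁻¹' {(x : Matrix (Fin n) (Fin n) K)}) = {x} := by
      ext y
      simp only [Set.mem_preimage, Set.mem_singleton_iff]
      exact ⟨fun h => Units.ext h, fun h => by rw [h]⟩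
    rwa [h2] at h1
  -- a power of `φ` commutes with the image of `H`
  obtain ⟨a, ha, hcomm⟩ : ∃ a : ℕ, 0 < a ∧ ∀ m ∈ H, ρ φ ^ a * ρ m = ρ m * ρ φ ^ a := by
    let S := ρ '' (H : Set G)
    have hSf : Finite S := hH
    have hst : ∀ s ∈ S, ρ φ * s * (ρ φ)⁻¹ ∈ S := by
      rintro _ ⟨m, hm, rfl⟩
      exact ⟨φ * m * φ⁻¹, hHn.conj_mem m hm φ, by rw [map_mul, map_mul, map_inv]⟩
    let f : S → S := fun s => ⟨ρ φ * s.1 * (ρ φ)⁻¹, hst s.1 s.2⟩
    have hfi : Function.Injective f := by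
      intro s t hst
      have h1 : ρ φ * s.1 * (ρ φ)⁻¹ = ρ φ * t.1 * (ρ φ)⁻¹ := congrArg Subtype.val hst
      exact Subtype.ext (mul_left_cancel (mul_right_cancel h1))
    let π : Equiv.Perm S := Equiv.ofBijective f ⟨hfi, Finite.surjective_of_injective hfi⟩
    have hπ : ∀ (k : ℕ) (s : S), ((π ^ k) s).1 = ρ φ ^ k * s.1 * (ρ φ ^ k)⁻¹ := by
      intro k
      induction k with
      | zero => intro s; simp
      | succ k ih =>
        intro s
        rw [pow_succ', Equiv.Perm.mul_apply]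
        change ρ φ * ((π ^ k) s).1 * (ρ φ)⁻¹ = _
        rw [ih, pow_succ']
        group
    refine ⟨orderOf π, orderOf_pos π, fun m hm => ?_⟩
    have h1 := hπ (orderOf π) ⟨ρ m, m, hm, rfl⟩
    rw [pow_orderOf_eq_one, Equiv.Perm.one_apply] at h1
    have h2 : ρ m = ρ φ ^ orderOf π * ρ m * (ρ φ ^ orderOf π)⁻¹ := h1
    conv_rhs => rw [h2]
    rw [inv_mul_cancel_right]
  -- it is central
  set z : GL (Fin n) K := ρ φ ^ a with hz
  have hzall : ∀ g, z * ρ g = ρ g * z := by
    refine all_of_closed hφ (C := {g | z * ρ g = ρ g * z}) ?_ ?_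
    · have h1 : {g : G | z * ρ g = ρ g * z} = (fun g => z * ρ g * z⁻¹ * (ρ g)⁻¹) ⁻¹' {1} := by
        ext g
        simp only [Set.mem_setOf_eq, Set.mem_preimage, Set.mem_singleton_iff]
        rw [mul_inv_eq_one, mul_inv_eq_iff_eq_mul]
      rw [h1]
      exact isClosed_singleton.preimage (by fun_prop)
    · intro j m hm
      change z * ρ (φ ^ j * m) = ρ (φ ^ j * m) * z
      have h1 : z * ρ φ ^ j = ρ φ ^ j * z := by
        rw [hz, ← pow_add, ← pow_add, add_comm]
      rw [map_mul, map_pow, ← mul_assoc, h1, mul_assoc, hcomm m hm, mul_assoc]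
  -- Schur's lemma
  obtain ⟨c, hc⟩ : ∃ c : K, (z : Matrix (Fin n) (Fin n) K) = c • (1 : Matrix (Fin n) (Fin n) K) := by
    have hnt : Nontrivial (Fin n → K) := by
      have : Nonempty (Fin n) := ⟨⟨0, hn⟩⟩
      infer_instance
    obtain ⟨c, hc⟩ := Module.End.exists_eigenvalue (Matrix.toLin' (z : Matrix (Fin n) (Fin n) K))
    refine ⟨c, ?_⟩
    have h1 : Module.End.eigenspace (Matrix.toLin' (z : Matrix (Fin n) (Fin n) K)) c = ⊤ := by
      rcases hirr (Module.End.eigenspace (Matrix.toLin' (z : Matrix (Fin n) (Fin n) K)) c) (by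
        intro g w hw
        rw [Module.End.mem_eigenspace_iff, Matrix.toLin'_apply] at hw ⊢
        have h2 := congrArg (fun x : GL (Fin n) K => (x : Matrix (Fin n) (Fin n) K)) (hzall g)
        simp only [Units.val_mul] at h2
        rw [Matrix.mulVec_mulVec, h2, ← Matrix.mulVec_mulVec, hw, Matrix.mulVec_smul]) with h1 | h1
      · exact absurd h1 hc
      · exact h1
    apply (Matrix.toLin' (R := K)).injective
    refine LinearMap.ext fun v => ?_
    have h2 : v ∈ Module.End.eigenspace (Matrix.toLin' (z : Matrix (Fin n) (Fin n) K)) c := by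
      rw [h1]; trivial
    rw [Module.End.mem_eigenspace_iff] at h2
    rw [h2, map_smul, Matrix.toLin'_one]
    rfl
  have hfo : ρ φ ^ (a * (n * D)) = 1 := by
    have h1 := hdet (φ ^ a)
    rw [map_pow] at h1
    change (z : Matrix (Fin n) (Fin n) K).det ^ D = 1 at h1
    rw [hc, Matrix.det_smul, Matrix.det_one, mul_one, Fintype.card_fin, ← pow_mul] at h1
    rw [pow_mul]
    apply Units.ext
    rw [Units.val_pow_eq_pow_val]
    change (z : Matrix (Fin n) (Fin n) K) ^ (n * D) = 1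
    rw [hc, smul_pow, one_pow, h1, one_smul]
  set b : ℕ := a * (n * D) with hb
  have hb0 : 0 < b := Nat.mul_pos ha (Nat.mul_pos hn hD)
  -- the finite set
  have hTf : (Set.image2 (fun x y : GL (Fin n) K => x * y) (Set.range fun i : Fin b => ρ φ ^ (i : ℕ))
      (ρ '' (H : Set G))).Finite := Set.Finite.image2 _ (Set.finite_range _) hH
  refine hTf.subset ?_
  rintro _ ⟨g, rfl⟩
  refine all_of_closed hφ (C := ρ ⁻¹' (Set.image2 (fun x y : GL (Fin n) K => x * y)
    (Set.range fun i : Fin b => ρ φ ^ (i : ℕ)) (ρ '' (H : Set G)))) (hTf.isClosed.preimage hρ) ?_ g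
  intro j m hm
  refine ⟨ρ φ ^ (j % b), ⟨⟨j % b, Nat.mod_lt _ hb0⟩, rfl⟩, ρ m, ⟨m, hm, rfl⟩, ?_⟩
  change ρ φ ^ (j % b) * ρ m = ρ (φ ^ j * m)
  rw [map_mul, map_pow]
  congr 1
  conv_rhs => rw [← Nat.div_add_mod j b]
  rw [pow_add, pow_mul, hfo, one_pow, one_mul]

/-- the kernel is open -/
theorem open_ker {X : Type} [Group X] [TopologicalSpace X] [T1Space X] (ρ : G →* X)
    (hρ : Continuous ρ) (hfin : (Set.range ρ).Finite) : IsOpen (ρ.ker : Set G) := by
  have h1 : (ρ.ker : Set G) = (ρ ⁻¹' (Set.range ρ \ {1}))ᶜ := by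
    ext g
    simp only [SetLike.mem_coe, MonoidHom.mem_ker, Set.mem_compl_iff, Set.mem_preimage, Set.mem_diff,
      Set.mem_range, exists_apply_eq_apply, true_and, Set.mem_singleton_iff, not_not]
  rw [h1]
  exact ((hfin.subset Set.diff_subset).isClosed.preimage hρ).isOpen_compl

end Pool.Agent.U849.FO
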