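import Pool.Agent.U849.FO.Lie
import Pool.Agent.U849.SS.Main

/-!
# Irreducible representations with a coset of elements of finite order
-/

set_option autoImplicit false
set_option linter.unusedSectionVars false

namespace Pool.Agent.U849.FO

open Filter Topology Module
open Pool.Agent.U849.SS (MinSub Stb Cts exists_minSub)

attribute [local instance 100] LieRing.ofAssociativeRing

variable {p : ℕ} [hp : Fact p.Prime] {K : Type} [NontriviallyNormedField K] [CompleteSpace K]
  [NormedAlgebra ℚ_[p] K] [IsAlgClosed K] [CharZero K]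
  {G : Type} [Group G] [TopologicalSpace G] [IsTopologicalGroup G] [CompactSpace G]
  [TotallyDisconnectedSpace G]

theorem hG' (U : Subgroup G) (hU : IsOpen (U : Set G)) :
    ∃ U' : Subgroup G, U'.Normal ∧ IsOpen (U' : Set G) ∧ U' ≤ U := by
  obtain ⟨N, hN⟩ := ProfiniteGrp.exist_openNormalSubgroup_sub_open_nhds_of_one hU U.one_mem
  exact ⟨N.toSubgroup, N.isNormal', N.isOpen', hN⟩

section

variable {A : Type} [NormedRing A] [NormedAlgebra K A] [NormedAlgebra ℚ_[p] A]
  [IsScalarTower ℚ_[p] K A] [FiniteDimensional K A] {V : Type} [NormedAddCommGroup V]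
  [NormedSpace K V] [FiniteDimensional K V] (E : A ≃ₐ[K] End K V)

/-- evaluation at a vector -/
noncomputable def ev (w : V) : A →ₗ[K] V :=
  { toFun := fun y => E y w
    map_add' := fun x y => by rw [map_add, LinearMap.add_apply]
    map_smul' := fun c x => by rw [map_smul, LinearMap.smul_apply]; rfl }

omit [NormedAlgebra ℚ_[p] A] [IsScalarTower ℚ_[p] K A] [CompleteSpace K] [IsAlgClosed K] [CharZero K]
  [NormedAlgebra ℚ_[p] K] [FiniteDimensional K A] [FiniteDimensional K V] in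
theorem toLin_mul (x y : A) (w : V) : E (x * y) w = E x (E y w) := by
  rw [map_mul, Module.End.mul_apply]

omit [NormedAlgebra ℚ_[p] A] [IsScalarTower ℚ_[p] K A] [CompleteSpace K] [IsAlgClosed K] [CharZero K]
  [NormedAlgebra ℚ_[p] K] [FiniteDimensional K A] [FiniteDimensional K V] in
theorem toLin_sub (x y : A) (w : V) : E (x - y) w = E x w - E y w := by
  rw [map_sub, LinearMap.sub_apply]

/-- the elements which preserve a subspace -/
def Pres (W : Submodule K V) : Submodule K A where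
  carrier := {y | ∀ w ∈ W, E y w ∈ W}
  add_mem' := fun {a b} ha hb w hw => by
    rw [map_add, LinearMap.add_apply]
    exact W.add_mem (ha w hw) (hb w hw)
  zero_mem' := fun w _ => by
    rw [map_zero, LinearMap.zero_apply]
    exact W.zero_mem
  smul_mem' := fun c a ha w hw => by
    rw [map_smul, LinearMap.smul_apply]
    exact W.smul_mem c (ha w hw)

end

/-- operators in the closure of the algebra generated by `T` preserve closed stable subspaces -/
theorem closure_stable {A : Type} [NormedRing A] [NormedAlgebra ℚ_[p] A] [NormedAlgebra K A]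
    [IsScalarTower ℚ_[p] K A] {S : Submodule K A} (hS : IsClosed (S : Set A)) {T Q : A →L[ℚ_[p]] A}
    (hT : ∀ y ∈ S, T y ∈ S)
    (hQ : Q ∈ closure ((Algebra.adjoin ℚ_[p] {T} : Subalgebra ℚ_[p] (A →L[ℚ_[p]] A)) : Set (A →L[ℚ_[p]] A)))
    {y : A} (hy : y ∈ S) : Q y ∈ S := by
  have h1 : closure ((Algebra.adjoin ℚ_[p] {T} : Subalgebra ℚ_[p] (A →L[ℚ_[p]] A)) :
      Set (A →L[ℚ_[p]] A)) ⊆ {Q | ∀ y ∈ S, Q y ∈ S} := by
    refine closure_minimal ?_ ?_
    · intro Q hQ
      change Q ∈ Algebra.adjoin ℚ_[p] {T} at hQ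
      induction hQ using Algebra.adjoin_induction with
      | mem x hx =>
        rw [Set.mem_singleton_iff] at hx
        rw [hx]
        exact hT
      | algebraMap r =>
        intro y hy
        have e : (algebraMap ℚ_[p] (A →L[ℚ_[p]] A) r) y = r • y := by
          rw [Algebra.algebraMap_eq_smul_one]
          rfl
        rw [e]
        exact Submodule.smul_of_tower_mem S r hy
      | add a b _ _ ha hb => exact fun y hy => S.add_mem (ha y hy) (hb y hy)
      | mul a b _ _ ha hb => exact fun y hy => ha _ (hb y hy)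
    · have e : {Q : A →L[ℚ_[p]] A | ∀ y ∈ S, Q y ∈ S} =
          ⋂ y ∈ S, (fun Q : A →L[ℚ_[p]] A => Q y) ⁻¹' (S : Set A) := by
        ext Q
        simp
      rw [e]
      exact isClosed_biInter fun y _ => hS.preimage
        (ContinuousLinearMap.apply ℚ_[p] A y).continuous
  exact h1 hQ y hy

include hp in
/-- **irreducible representations** -/
theorem irr_abs {A : Type} [NormedRing A] [NormedAlgebra K A] [NormedAlgebra ℚ_[p] A]
    [IsScalarTower ℚ_[p] K A] [FiniteDimensional K A] {V : Type} [NormedAddCommGroup V]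
    [NormedSpace K V] [FiniteDimensional K V] (E : A ≃ₐ[K] End K V) [Nontrivial V]
    {ρ : G →* End K V} {R : G →* A} (hER : ∀ g, E (R g) = ρ g) (hRc : Continuous R)
    (hirr : ∀ T : Submodule K V, (∀ g, ∀ v ∈ T, ρ g v ∈ T) → T = ⊥ ∨ T = ⊤)
    {g : G} {U : Subgroup G} (hUo : IsOpen (U : Set G)) {M : ℕ} (hM : 0 < M)
    (hg : ∀ u ∈ U, (ρ (g * u)) ^ M = 1) :
    ∃ U' : Subgroup G, U'.Normal ∧ IsOpen (U' : Set G) ∧ ∀ c ∈ ⁅U', U'⁆, ρ c = 1 := by
  classical
  obtain ⟨U₀, W, hMin⟩ := exists_minSub ρ hG'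
  set ε : ℝ := 1 / (8 * (p : ℝ) ^ 2) with hε
  have hε0 : 0 < ε := by
    have : (0 : ℝ) < p := by exact_mod_cast hp.out.pos
    positivity
  let Ad : G → (A →L[ℚ_[p]] A) := fun u => AdL p (R u) (R u⁻¹)
  have hAdc : Continuous Ad := by
    have h1 : Continuous fun u : G => R u⁻¹ := hRc.comp continuous_inv
    exact ((ContinuousLinearMap.mulLeftRight ℚ_[p] A).continuous.comp hRc).clm_apply h1
  have hAd1 : Ad 1 = 1 := by
    ext1 y
    change R 1 * y * R 1⁻¹ = y
    rw [inv_one, map_one, one_mul, mul_one]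
  -- a small open normal subgroup
  have hO1 : {u : G | ‖R u - 1‖ < ε} ∈ 𝓝 (1 : G) := by
    have h1 : Continuous fun u : G => ‖R u - 1‖ := (hRc.sub continuous_const).norm
    refine (isOpen_lt h1 continuous_const).mem_nhds ?_
    change ‖R 1 - 1‖ < ε
    rw [map_one, sub_self, norm_zero]
    exact hε0
  have hO2 : {u : G | ‖Ad u - 1‖ < ε} ∈ 𝓝 (1 : G) := by
    have h1 : Continuous fun u : G => ‖Ad u - 1‖ := (hAdc.sub continuous_const).norm
    refine (isOpen_lt h1 continuous_const).mem_nhds ?_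
    change ‖Ad 1 - 1‖ < ε
    rw [hAd1, sub_self, norm_zero]
    exact hε0
  have hO3 : {u : G | ‖R u - 1‖ < ε} ∩ {u : G | ‖Ad u - 1‖ < ε} ∩ (U : Set G) ∩ (U₀ : Set G) ∈ 𝓝 (1 : G) :=
    inter_mem (inter_mem (inter_mem hO1 hO2) (hUo.mem_nhds U.one_mem))
      (hMin.isOpen.mem_nhds U₀.one_mem)
  obtain ⟨O, hOs, hOo, hO1'⟩ := mem_nhds_iff.1 hO3
  obtain ⟨N, hN⟩ := ProfiniteGrp.exist_openNormalSubgroup_sub_open_nhds_of_one hOo hO1'
  set U₁ : Subgroup G := N.toSubgroup with hU₁
  have hU₁n : U₁.Normal := N.isNormal'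
  have hU₁o : IsOpen (U₁ : Set G) := N.isOpen'
  have hU₁s : ∀ u ∈ U₁, ‖R u - 1‖ < ε ∧ ‖Ad u - 1‖ < ε ∧ u ∈ U ∧ u ∈ U₀ := fun u hu => by
    have h1 := hOs (hN hu)
    exact ⟨h1.1.1.1, h1.1.1.2, h1.1.2, h1.2⟩
  have hcomp : CompleteSpace A := FiniteDimensional.complete K A
  have hlog : ∀ u ∈ U₁, ∃ x, IsLog p (R u) x := fun u hu => by
    obtain ⟨x, Q, -, -, hx⟩ := log_exists' (hU₁s u hu).1.le
    exact ⟨x, hx⟩
  have hgR : ∀ u ∈ U₁, (R (g * u)) ^ M = 1 := by
    intro u hu
    have h1 := hg u (hU₁s u hu).2.2.1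
    apply E.injective
    rw [map_pow, hER, h1, map_one]
  set L := LL p K R U₁ with hL
  have hsolv := LA_solvable (K := K) hU₁n hlog hM hgR
  -- the subspace `W` is stable
  have hWst : ∀ u ∈ U₁, ∀ w ∈ W, E (R u) w ∈ W := fun u hu w hw => by
    rw [hER]
    exact hMin.stb u (hU₁s u hu).2.2.2 w hw
  have hWc : IsClosed (W : Set (V)) := Submodule.closed_of_finiteDimensional W
  have hLW : ∀ y ∈ L, ∀ w ∈ W, E y w ∈ W := by
    intro y hy
    change y ∈ Pres E W
    rw [hL] at hy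
    refine (Submodule.span_le.2 ?_ : LL p K R U₁ ≤ Pres E W) hy
    rintro x ⟨u, hu, hx⟩ w hw
    have h1 := (((LinearMap.continuous_of_finiteDimensional (ev E w)).tendsto x)).comp hx
    refine hWc.mem_of_tendsto h1 (Eventually.of_forall fun j => ?_)
    change E (((p : ℚ_[p]) ^ j)⁻¹ • (R u ^ p ^ j - 1)) w ∈ W
    have h2 : (((p : ℚ_[p]) ^ j)⁻¹ • (R u ^ p ^ j - 1) : A) ∈ Pres E W := by
      refine Submodule.smul_of_tower_mem _ _ (sub_mem ?_ ?_)
      · rw [← map_pow]
        exact hWst _ (U₁.pow_mem hu _)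
      · intro w hw
        rw [map_one]
        exact hw
    exact h2 w hw
  -- the Lie module `W`
  let LAA := LA (K := K) hU₁n hlog
  let f : LAA →ₗ⁅K⁆ End K W :=
    { toFun := fun y => (E y.1).restrict (hLW y.1 y.2)
      map_add' := fun x y => by
        ext w
        change (E (x.1 + y.1)) w.1 = _
        rw [map_add]
        rfl
      map_smul' := fun c x => by
        ext w
        change (E (c • x.1)) w.1 = _
        rw [map_smul]
        rfl
      map_lie' := fun {x y} => by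
        ext w
        change (E (⁅x, y⁆ : LAA).1) w.1 = _
        rw [LieSubalgebra.coe_bracket, LieRing.of_associative_ring_bracket,
          LieRing.of_associative_ring_bracket, toLin_sub E, toLin_mul E, toLin_mul E]
        rfl }
  have hWnt : Nontrivial W := Submodule.nontrivial_iff_ne_bot.2 hMin.ne_bot
  let i1 : LieRingModule LAA W := LieRingModule.compLieHom W f
  have i2 : LieModule K LAA W := LieModule.compLieHom W f
  have hsolv' : LieAlgebra.IsSolvable LAA := hsolv
  obtain ⟨χ, hχ⟩ := LieModule.exists_nontrivial_weightSpace_of_isSolvable K LAA W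
  obtain ⟨⟨w₀, hw₀⟩, hw₀0⟩ := exists_ne (0 : LieModule.weightSpace W χ)
  rw [LieModule.mem_weightSpace] at hw₀
  have hw₁ : ∀ y (hy : y ∈ L), E y (w₀ : V) = χ ⟨y, hy⟩ • (w₀ : V) := by
    intro y hy
    have h1 := hw₀ ⟨y, hy⟩
    exact congrArg Subtype.val h1
  have hw₀ne : (w₀ : V) ≠ 0 := by
    intro h0
    apply hw₀0
    exact Subtype.ext (Subtype.ext h0)
  -- conjugation does not change the weight
  have hLc : IsClosed (L : Set A) := LL_closed
  have hAdL : ∀ u : G, ∀ y ∈ L, Ad u y ∈ L := fun u y hy => LL_conj hU₁n u hy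
  have hAdeq : ∀ u ∈ U₁, ∃ x ∈ L, ∃ Q : A →L[ℚ_[p]] A, Q ∈ closure ((Algebra.adjoin ℚ_[p] {Ad u} :
      Subalgebra ℚ_[p] (A →L[ℚ_[p]] A)) : Set (A →L[ℚ_[p]] A)) ∧
      ∀ y, Ad u y - y = x * Q y - Q y * x := by
    intro u hu
    obtain ⟨x, hx⟩ := hlog u hu
    obtain ⟨x', hx'⟩ := hlog u⁻¹ (U₁.inv_mem hu)
    obtain ⟨X, Q, hQ, hXQ, hX⟩ := log_exists' (hU₁s u hu).2.1.le
    refine ⟨x, Submodule.subset_span ⟨u, hu, hx⟩, Q, hQ, fun y => ?_⟩
    have h1 := DFunLike.congr_fun hXQ y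
    have h2 := log_AdL hx hx' (R_inv R u) (R_inv' R u) hX (Q y)
    rw [← h2]
    exact h1
  have hχAd : ∀ u ∈ U₁, ∀ y (hy : y ∈ L), χ ⟨Ad u y, hAdL u y hy⟩ = χ ⟨y, hy⟩ := by
    intro u hu y hy
    obtain ⟨x, hxL, Q, hQ, hxQ⟩ := hAdeq u hu
    have hQy : Q y ∈ L := closure_stable (K := K) hLc (hAdL u) hQ hy
    have h1 := hw₁ _ (hAdL u y hy)
    have h2 : E (Ad u y - y) (w₀ : V) = 0 := by
      rw [hxQ y, toLin_sub E, toLin_mul E, toLin_mul E, hw₁ _ hQy, hw₁ _ hxL, map_smul, map_smul,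
        hw₁ _ hQy, hw₁ _ hxL, smul_comm, sub_self]
    rw [toLin_sub E, h1, hw₁ _ hy, ← sub_smul, smul_eq_zero] at h2
    exact sub_eq_zero.1 (h2.resolve_right hw₀ne)
  -- the weight space
  let Wχ : Submodule K (V) :=
    { carrier := {w | w ∈ W ∧ ∀ y (hy : y ∈ L), E y w = χ ⟨y, hy⟩ • w}
      add_mem' := fun {a b} ha hb => ⟨W.add_mem ha.1 hb.1, fun y hy => by
        rw [map_add, ha.2 y hy, hb.2 y hy, smul_add]⟩
      zero_mem' := ⟨W.zero_mem, fun y hy => by rw [map_zero, smul_zero]⟩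
      smul_mem' := fun c a ha => ⟨W.smul_mem c ha.1, fun y hy => by
        rw [map_smul, ha.2 y hy, smul_comm]⟩ }
  have hWχst : Stb ρ U₁ Wχ := by
    intro u hu w hw
    have hu' := U₁.inv_mem hu
    refine ⟨hMin.stb u (hU₁s u hu).2.2.2 w hw.1, fun y hy => ?_⟩
    have h1 : E y (ρ u w) = ρ u (E (Ad u⁻¹ y) w) := by
      have h2 : R u * Ad u⁻¹ y = y * R u := by
        change R u * (R u⁻¹ * y * R (u⁻¹)⁻¹) = y * R u
        rw [inv_inv, ← mul_assoc, ← mul_assoc, R_inv, one_mul]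
      rw [← hER u, ← toLin_mul E, ← toLin_mul E, h2]
    rw [h1, hw.2 _ (hAdL u⁻¹ y hy), map_smul, hχAd u⁻¹ hu' y hy]
  have hWχ : Wχ = W := by
    rcases hMin.min U₁ Wχ hU₁o hWχst (fun w hw => hw.1) with h1 | h1
    · exfalso
      have h2 : (w₀ : V) ∈ Wχ := ⟨w₀.2, hw₁⟩
      rw [h1] at h2
      exact hw₀ne ((Submodule.mem_bot K).1 h2)
    · exact h1
  have hscal : ∀ w ∈ W, ∀ y (hy : y ∈ L), E y w = χ ⟨y, hy⟩ • w := by
    intro w hw
    rw [← hWχ] at hw
    exact hw.2
  -- commutators act trivially on `W`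
  have hPc : IsClosed (Pres E W : Set A) := Submodule.closed_of_finiteDimensional _
  have hcomm : ∀ u ∈ U₁, ∀ v ∈ U₁, ∀ w ∈ W, ρ (u * v * u⁻¹) w = ρ v w := by
    intro u hu v hv w hw
    obtain ⟨x, hxL, Q, hQ, hxQ⟩ := hAdeq u hu
    have hAdP : ∀ y ∈ Pres E W, Ad u y ∈ Pres E W := by
      intro y hy w hw
      change E (R u * y * R u⁻¹) w ∈ W
      rw [toLin_mul E, toLin_mul E]
      exact hWst u hu _ (hy _ (hWst _ (U₁.inv_mem hu) w hw))
    have hQv : Q (R v) ∈ Pres E W := closure_stable (K := K) hPc hAdP hQ (hWst v hv)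
    have h1 : E (Ad u (R v) - R v) w = 0 := by
      rw [hxQ, toLin_sub E, toLin_mul E, toLin_mul E, hscal _ (hQv w hw) x hxL, hscal w hw x hxL, map_smul,
        sub_self]
    rw [toLin_sub E, sub_eq_zero] at h1
    have h2 : Ad u (R v) = R (u * v * u⁻¹) := by
      change R u * R v * R u⁻¹ = _
      rw [map_mul, map_mul]
    rw [h2, hER, hER] at h1
    exact h1
  refine ⟨U₁, hU₁n, hU₁o, ?_⟩
  have hnc : (⁅U₁, U₁⁆ : Subgroup G).Normal := Subgroup.commutator_normal U₁ U₁
  let T : Submodule K (V) :=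
    { carrier := {v | ∀ c ∈ ⁅U₁, U₁⁆, ρ c v = v}
      add_mem' := fun {a b} ha hb u hu => by rw [map_add, ha u hu, hb u hu]
      zero_mem' := fun u _ => map_zero _
      smul_mem' := fun k a ha u hu => by rw [map_smul, ha u hu] }
  have hWT : W ≤ T := by
    intro w hw c hc
    let F : Subgroup G :=
      { carrier := {c | ρ c w = w}
        mul_mem' := fun {a b} ha hb => by
          change ρ (a * b) w = w
          have ha' : ρ a w = w := ha
          have hb' : ρ b w = w := hb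
          rw [map_mul, Module.End.mul_apply, hb', ha']
        one_mem' := by
          change ρ 1 w = w
          rw [map_one]
          rfl
        inv_mem' := fun {a} ha => by
          change ρ a⁻¹ w = w
          have ha' : ρ a w = w := ha
          conv_lhs => rw [← ha']
          rw [← Module.End.mul_apply, ← map_mul, inv_mul_cancel, map_one]
          rfl }
    have h1 : ⁅U₁, U₁⁆ ≤ F := by
      rw [Subgroup.commutator_le]
      intro u hu v hv
      change ρ (u * v * u⁻¹ * v⁻¹) w = w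
      have h2 : ρ v⁻¹ w ∈ W := hMin.stb _ (hU₁s _ (U₁.inv_mem hv)).2.2.2 w hw
      rw [map_mul, Module.End.mul_apply, hcomm u hu v hv _ h2, ← Module.End.mul_apply, ← map_mul,
        mul_inv_cancel, map_one]
      rfl
    exact h1 hc
  rcases hirr T (by
    intro h v hv c hc
    have h1 : h⁻¹ * c * h ∈ ⁅U₁, U₁⁆ := by
      have := hnc.conj_mem c hc h⁻¹
      rwa [inv_inv] at this
    have h2 := hv _ h1
    have h3 : c * h = h * (h⁻¹ * c * h) := by group
    rw [← Module.End.mul_apply, ← map_mul, h3, map_mul, Module.End.mul_apply, h2]) with h1 | h1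
  · exfalso
    apply hMin.ne_bot
    rw [eq_bot_iff, ← h1]
    exact hWT
  · intro c hc
    refine LinearMap.ext fun v => ?_
    have h2 : v ∈ T := by rw [h1]; trivial
    exact h2 c hc

end Pool.Agent.U849.FO
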