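import Mathlib

/-!
# Kreknin's theorem

A Lie algebra graded by a finite cyclic group with trivial component of degree zero is solvable.
-/

set_option autoImplicit false

namespace Pool.Agent.U849.FO

open Submodule

variable {K L : Type} [Field K] [LieRing L] [LieAlgebra K L] {n : ℕ}

/-- a graded subring without component of degree zero -/
structure Gr (A : ZMod n → Submodule K L) : Prop where
  lie : ∀ i j, ∀ x ∈ A i, ∀ y ∈ A j, ⁅x, y⁆ ∈ A (i + j)
  zero : A 0 = ⊥

/-- the derived ring -/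
def dd (A : ZMod n → Submodule K L) (k : ZMod n) : Submodule K L :=
  span K {z | ∃ i, ∃ x ∈ A i, ∃ y ∈ A (k - i), ⁅x, y⁆ = z}

theorem dd_le {A : ZMod n → Submodule K L} (hA : Gr A) (k : ZMod n) : dd A k ≤ A k := by
  refine span_le.2 ?_
  rintro _ ⟨i, x, hx, y, hy, rfl⟩
  have := hA.lie i (k - i) x hx y hy
  rwa [add_sub_cancel] at this

theorem gr_dd {A : ZMod n → Submodule K L} (hA : Gr A) : Gr (dd A) := by
  refine ⟨fun i j x hx y hy => subset_span ⟨i, x, dd_le hA i hx, y, ?_, rfl⟩, ?_⟩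
  · rw [add_sub_cancel_left]
    exact dd_le hA j hy
  · rw [eq_bot_iff, ← hA.zero]
    exact dd_le hA 0

/-- the derived series -/
def D (m : ℕ) (A : ZMod n → Submodule K L) : ZMod n → Submodule K L := dd^[m] A

theorem D_zero (A : ZMod n → Submodule K L) : D 0 A = A := rfl

theorem D_succ (m : ℕ) (A : ZMod n → Submodule K L) : D (m + 1) A = dd (D m A) :=
  Function.iterate_succ_apply' _ _ _

theorem D_add (a b : ℕ) (A : ZMod n → Submodule K L) : D (a + b) A = D a (D b A) :=
  Function.iterate_add_apply _ _ _ _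

theorem gr_D {A : ZMod n → Submodule K L} (hA : Gr A) (m : ℕ) : Gr (D m A) := by
  induction m with
  | zero => exact hA
  | succ m ih => rw [D_succ]; exact gr_dd ih

theorem D_le {A : ZMod n → Submodule K L} (hA : Gr A) (m : ℕ) (i : ZMod n) : D m A i ≤ A i := by
  induction m with
  | zero => exact le_rfl
  | succ m ih => rw [D_succ]; exact (dd_le (gr_D hA m) i).trans ih

/-- the ring generated by the components of degree `> k` -/
inductive Gen (A : ZMod n → Submodule K L) (k : ℕ) : ZMod n → L → Prop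
  | base {m : ZMod n} {x : L} : k < m.val → x ∈ A m → Gen A k m x
  | zero (i : ZMod n) : Gen A k i 0
  | add {i : ZMod n} {x y : L} : Gen A k i x → Gen A k i y → Gen A k i (x + y)
  | smul {i : ZMod n} {x : L} (c : K) : Gen A k i x → Gen A k i (c • x)
  | lie {i j : ZMod n} {x y : L} : Gen A k i x → Gen A k j y → Gen A k (i + j) ⁅x, y⁆

theorem gen_mem {A : ZMod n → Submodule K L} (hA : Gr A) {k : ℕ} {i : ZMod n} {x : L}
    (h : Gen A k i x) : x ∈ A i := by
  induction h with
  | base _ hx => exact hx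
  | zero i => exact (A i).zero_mem
  | add _ _ h1 h2 => exact (A _).add_mem h1 h2
  | smul c _ h1 => exact (A _).smul_mem c h1
  | lie _ _ h1 h2 => exact hA.lie _ _ _ h1 _ h2

/-- brackets whose last factor has degree `≥ k` -/
def RR (A : ZMod n → Submodule K L) (k : ℕ) (t : ZMod n) : Submodule K L :=
  span K {z | ∃ m : ZMod n, k ≤ m.val ∧ ∃ w ∈ A (t - m), ∃ b ∈ A m, ⁅w, b⁆ = z}

theorem k1 {A : ZMod n → Submodule K L} (hA : Gr A) {k : ℕ} {j : ZMod n} {x : L}
    (h : Gen A k j x) : ∀ i, ∀ y ∈ A i, ⁅y, x⁆ ∈ RR A (k + 1) (i + j) := by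
  induction h with
  | @base m x hm hx =>
    intro i y hy
    refine subset_span ⟨m, hm, y, ?_, x, hx, rfl⟩
    rwa [add_sub_cancel_right]
  | zero i =>
    intro i y _
    rw [lie_zero]
    exact zero_mem _
  | add _ _ h1 h2 =>
    intro i y hy
    rw [lie_add]
    exact add_mem (h1 i y hy) (h2 i y hy)
  | smul c _ h1 =>
    intro i y hy
    rw [lie_smul]
    exact smul_mem _ c (h1 i y hy)
  | @lie i1 i2 x1 x2 g1 g2 h1 h2 =>
    intro i y hy
    have e : ⁅y, ⁅x1, x2⁆⁆ = ⁅⁅y, x1⁆, x2⁆ - ⁅⁅y, x2⁆, x1⁆ := by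
      rw [leibniz_lie, ← lie_skew x1 ⁅y, x2⁆, sub_eq_add_neg]
    rw [e]
    refine sub_mem ?_ ?_
    · have := h2 (i + i1) ⁅y, x1⁆ (hA.lie _ _ _ hy _ (gen_mem hA g1))
      rwa [add_assoc] at this
    · have := h1 (i + i2) ⁅y, x2⁆ (hA.lie _ _ _ hy _ (gen_mem hA g2))
      rwa [add_assoc, add_comm i2 i1] at this

theorem k2 [NeZero n] {A : ZMod n → Submodule K L} (hA : Gr A) {k : ℕ} {t : ZMod n}
    (ht : t.val = k + 1) {z : L} (hz : z ∈ RR A (k + 1) t) : Gen A (k + 1) t z := by
  unfold RR at hz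
  induction hz using Submodule.span_induction with
  | mem z hz =>
    obtain ⟨m, hm, w, hw, b, hb, rfl⟩ := hz
    by_cases hmt : m = t
    · rw [hmt, sub_self, hA.zero, Submodule.mem_bot] at hw
      rw [hw, zero_lie]
      exact Gen.zero t
    · have hmv : m.val ≠ t.val := fun h => hmt (ZMod.val_injective n h)
      have hm1 : k + 1 < m.val := by omega
      have hmn : m.val < n := ZMod.val_lt m
      have hsn : (t - m).val < n := ZMod.val_lt _
      have hadd : t.val = ((t - m).val + m.val) % n := by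
        rw [← ZMod.val_add, sub_add_cancel]
      have hs : k + 1 < (t - m).val := by
        by_cases hlt : (t - m).val + m.val < n
        · rw [Nat.mod_eq_of_lt hlt] at hadd
          omega
        · rw [Nat.mod_eq_sub_mod (by omega), Nat.mod_eq_of_lt (by omega)] at hadd
          omega
      have h1 := Gen.lie (Gen.base (A := A) hs hw) (Gen.base (A := A) hm1 hb)
      rwa [sub_add_cancel] at h1
  | zero => exact Gen.zero t
  | add _ _ _ _ h1 h2 => exact Gen.add h1 h2
  | smul c _ _ h1 => exact Gen.smul c h1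

theorem key [NeZero n] (k : ℕ) : ∀ (A : ZMod n → Submodule K L), Gr A → ∀ i,
    ∀ x ∈ D (2 ^ k - 1) A i, Gen A k i x := by
  induction k with
  | zero =>
    intro A hA i x hx
    have hx' : x ∈ A i := hx
    by_cases hi : i = 0
    · rw [hi, hA.zero, Submodule.mem_bot] at hx'
      rw [hx']
      exact Gen.zero i
    · refine Gen.base ?_ hx'
      rw [Nat.pos_iff_ne_zero]
      exact fun h => hi ((ZMod.val_eq_zero i).1 h)
  | succ k ih =>
    intro A hA i x hx
    have hpow : 2 ^ (k + 1) - 1 = (2 ^ k - 1) + ((2 ^ k - 1) + 1) := by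
      have : 0 < 2 ^ k := by positivity
      rw [pow_succ]
      omega
    rw [hpow, D_add] at hx
    set B := D (2 ^ k - 1 + 1) A with hB
    have hBg : Gr B := gr_D hA _
    have h1 := ih B hBg i x hx
    clear hx
    induction h1 with
    | @base m x hm hx =>
      by_cases hmk : m.val = k + 1
      · rw [hB, D_succ] at hx
        unfold dd at hx
        induction hx using Submodule.span_induction with
        | mem z hz =>
          obtain ⟨i', x', hx', y', hy', rfl⟩ := hz
          have h2 := ih A hA _ y' hy'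
          have h3 := k1 hA h2 i' x' (D_le hA _ _ hx')
          rw [add_sub_cancel] at h3
          exact k2 hA hmk h3
        | zero => exact Gen.zero m
        | add _ _ _ _ h1 h2 => exact Gen.add h1 h2
        | smul c _ _ h1 => exact Gen.smul c h1
      · exact Gen.base (by omega) (D_le hA _ _ hx)
    | zero i => exact Gen.zero i
    | add _ _ h1 h2 => exact Gen.add h1 h2
    | smul c _ h1 => exact Gen.smul c h1
    | lie _ _ h1 h2 => exact Gen.lie h1 h2

theorem gen_last [NeZero n] {A : ZMod n → Submodule K L} {i : ZMod n} {x : L}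
    (h : Gen A (n - 1) i x) : x = 0 := by
  induction h with
  | @base m x hm _ =>
    exfalso
    have := ZMod.val_lt m
    omega
  | zero _ => rfl
  | add _ _ h1 h2 => rw [h1, h2, add_zero]
  | smul c _ h1 => rw [h1, smul_zero]
  | lie _ _ h1 _ => rw [h1, zero_lie]

theorem lie_iSup {B : ZMod n → Submodule K L} {x y : L} (hx : x ∈ ⨆ i, B i) (hy : y ∈ ⨆ i, B i) :
    ⁅x, y⁆ ∈ ⨆ i, dd B i := by
  induction hx using Submodule.iSup_induction' with
  | mem i x hx =>
    induction hy using Submodule.iSup_induction' with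
    | mem j y hy =>
      refine Submodule.mem_iSup_of_mem (i + j) ?_
      refine subset_span ⟨i, x, hx, y, ?_, rfl⟩
      rwa [add_sub_cancel_left]
    | zero => rw [lie_zero]; exact zero_mem _
    | add y y' _ _ h1 h2 => rw [lie_add]; exact add_mem h1 h2
  | zero => rw [zero_lie]; exact zero_mem _
  | add x x' _ _ h1 h2 => rw [add_lie]; exact add_mem h1 h2

/-- **Kreknin's theorem** -/
theorem kreknin [NeZero n] (A : ZMod n → Submodule K L) (hA : Gr A) (htop : ⨆ i, A i = ⊤) :
    LieAlgebra.IsSolvable L := by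
  have h1 : ∀ m, LieSubmodule.toSubmodule (LieAlgebra.derivedSeries K L m) ≤ ⨆ i, D m A i := by
    intro m
    induction m with
    | zero =>
      rw [D_zero, htop]
      exact le_top
    | succ m ih =>
      rw [LieAlgebra.derivedSeries_def, LieAlgebra.derivedSeriesOfIdeal_succ,
        ← LieAlgebra.derivedSeries_def, LieSubmodule.lieIdeal_oper_eq_linear_span, span_le]
      rintro _ ⟨⟨x, hx⟩, ⟨y, hy⟩, rfl⟩
      have hx' : x ∈ ⨆ i, D m A i := ih hx
      have hy' : y ∈ ⨆ i, D m A i := ih hy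
      change ⁅x, y⁆ ∈ ⨆ i, D (m + 1) A i
      rw [D_succ]
      exact lie_iSup hx' hy'
  refine (LieAlgebra.isSolvable_iff K L).2 ⟨2 ^ (n - 1) - 1, ?_⟩
  rw [← LieSubmodule.toSubmodule_eq_bot, eq_bot_iff]
  refine (h1 _).trans (iSup_le fun i => ?_)
  intro x hx
  rw [Submodule.mem_bot]
  exact gen_last (key (n - 1) A hA i x hx)

/-- the eigenspaces -/
def eg (σ : L →ₗ[K] L) {M : ℕ} (ζ : K) (i : ZMod M) : Submodule K L where
  carrier := {x | σ x = ζ ^ i.val • x}
  add_mem' := by
    intro a b ha hb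
    rw [Set.mem_ofPred_eq] at ha hb ⊢
    rw [map_add, ha, hb, smul_add]
  zero_mem' := by
    rw [Set.mem_ofPred_eq, map_zero, smul_zero]
  smul_mem' := by
    intro c a ha
    rw [Set.mem_ofPred_eq] at ha ⊢
    rw [map_smul, ha, smul_comm]

/-- automorphisms of finite order without fixed points -/
theorem kreknin_aut [CharZero K] (σ : L →ₗ[K] L) (hσ : ∀ x y, σ ⁅x, y⁆ = ⁅σ x, σ y⁆) {M : ℕ} (hM : 0 < M)
    {ζ : K} (hζ : IsPrimitiveRoot ζ M) (hpow : ∀ x, (σ ^ M) x = x)
    (hsum : ∀ x, ∑ i ∈ Finset.range M, (σ ^ i) x = 0) : LieAlgebra.IsSolvable L := by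
  have : NeZero M := ⟨hM.ne'⟩
  have hM0 : (M : K) ≠ 0 := by exact_mod_cast hM.ne'
  have hζ0 : ζ ≠ 0 := hζ.ne_zero hM.ne'
  refine kreknin (n := M) (eg σ ζ) ⟨?_, ?_⟩ ?_
  · intro i j x hx y hy
    have hx' : σ x = ζ ^ i.val • x := hx
    have hy' : σ y = ζ ^ j.val • y := hy
    change σ ⁅x, y⁆ = ζ ^ (i + j).val • ⁅x, y⁆
    rw [hσ, hx', hy', smul_lie, lie_smul, smul_smul, ← pow_add, ZMod.val_add]
    congr 1
    conv_lhs => rw [← Nat.div_add_mod (i.val + j.val) M]
    rw [pow_add, pow_mul, hζ.pow_eq_one, one_pow, one_mul]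
  · rw [eq_bot_iff]
    intro x hx
    have hx' : σ x = ζ ^ (0 : ZMod M).val • x := hx
    rw [ZMod.val_zero, pow_zero, one_smul] at hx'
    have h1 : ∀ i, (σ ^ i) x = x := by
      intro i
      induction i with
      | zero => rfl
      | succ i ih => rw [pow_succ, Module.End.mul_apply, hx', ih]
    have h2 := hsum x
    simp only [h1, Finset.sum_const, Finset.card_range, ← Nat.cast_smul_eq_nsmul K] at h2
    rw [Submodule.mem_bot]
    exact (smul_eq_zero.1 h2).resolve_left hM0
  · rw [eq_top_iff]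
    rintro x -
    -- the projections
    set y : ZMod M → L := fun i => ∑ k ∈ Finset.range M, (ζ⁻¹ ^ i.val) ^ k • (σ ^ k) x with hy
    have hy1 : ∀ i, σ (y i) = ζ ^ i.val • y i := by
      intro i
      set c : K := ζ⁻¹ ^ i.val with hc
      have hcM : c ^ M = 1 := by
        rw [hc, ← pow_mul, mul_comm, pow_mul, inv_pow, hζ.pow_eq_one, inv_one, one_pow]
      have hcc : ζ ^ i.val * c = 1 := by
        rw [hc, inv_pow, mul_inv_cancel₀ (pow_ne_zero _ hζ0)]
      have h1 : σ (y i) = ∑ k ∈ Finset.range M, c ^ k • (σ ^ (k + 1)) x := by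
        rw [hy, _root_.map_sum]
        refine Finset.sum_congr rfl fun k _ => ?_
        rw [map_smul, pow_succ' σ, Module.End.mul_apply]
      have h2 : ζ ^ i.val • y i = ∑ k ∈ Finset.range M, (ζ ^ i.val * c ^ k) • (σ ^ k) x := by
        rw [hy, Finset.smul_sum]
        refine Finset.sum_congr rfl fun k _ => ?_
        rw [smul_smul]
      rw [h1, h2]
      have h3 : ∀ k, c ^ k • (σ ^ (k + 1)) x = (ζ ^ i.val * c ^ (k + 1)) • (σ ^ (k + 1)) x := by
        intro k
        rw [pow_succ c, mul_comm (c ^ k) c, ← mul_assoc, hcc, one_mul]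
      rw [Finset.sum_congr rfl fun k _ => h3 k]
      obtain ⟨M', rfl⟩ : ∃ M', M = M' + 1 := ⟨M - 1, by omega⟩
      rw [Finset.sum_range_succ, Finset.sum_range_succ', hcM, hpow, pow_zero, pow_zero]
      rfl
    have hsumy : ∑ i : ZMod M, y i = (M : K) • x := by
      rw [hy, Finset.sum_comm]
      have h1 : ∀ k ∈ Finset.range M, ∑ i : ZMod M, (ζ⁻¹ ^ i.val) ^ k • (σ ^ k) x =
          if k = 0 then (M : K) • x else 0 := by
        intro k hk
        rw [← Finset.sum_smul]
        have h2 : ∑ i : ZMod M, (ζ⁻¹ ^ i.val) ^ k = ∑ i ∈ Finset.range M, (ζ⁻¹ ^ k) ^ i := by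
          rw [← Fin.sum_univ_eq_sum_range (fun i => (ζ⁻¹ ^ k) ^ i)]
          obtain ⟨M', rfl⟩ : ∃ M', M = M' + 1 := ⟨M - 1, by omega⟩
          refine Finset.sum_congr rfl fun i _ => ?_
          rw [← pow_mul, ← pow_mul, mul_comm]
          rfl
        rw [h2]
        split_ifs with hk0
        · rw [hk0]
          simp
        · have h3 : ζ⁻¹ ^ k ≠ 1 := by
            intro h
            have h4 : ζ ^ k = 1 := by rwa [inv_pow, inv_eq_one] at h
            have h5 := hζ.dvd_of_pow_eq_one k h4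
            exact hk0 (Nat.eq_zero_of_dvd_of_lt h5 (Finset.mem_range.1 hk))
          have h4 := mul_neg_geom_sum (ζ⁻¹ ^ k) M
          have h5 : (ζ⁻¹ ^ k) ^ M = 1 := by
            rw [← pow_mul, mul_comm, pow_mul, inv_pow, hζ.pow_eq_one, inv_one, one_pow]
          rw [h5, sub_self] at h4
          rw [(mul_eq_zero.1 h4).resolve_left (sub_ne_zero.2 h3.symm), zero_smul]
      rw [Finset.sum_congr rfl h1, Finset.sum_ite_eq']
      rw [if_pos (Finset.mem_range.2 hM)]
    have hx : x = ∑ i : ZMod M, (M : K)⁻¹ • y i := by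
      rw [← Finset.smul_sum, hsumy, smul_smul, inv_mul_cancel₀ hM0, one_smul]
    rw [hx]
    exact Submodule.sum_mem _ fun i _ => Submodule.smul_mem _ _
      (Submodule.mem_iSup_of_mem i (hy1 i))

end Pool.Agent.U849.FO
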