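import Pool.Agent.U849.FO.Log

/-!
# Logarithms of conjugates
-/

set_option autoImplicit false

namespace Pool.Agent.U849.FO

open Filter Topology

variable {p : ℕ} [hp : Fact p.Prime] {A : Type} [NormedRing A] [NormedAlgebra ℚ_[p] A]

/-- `x` is the logarithm of `a` -/
def IsLog (p : ℕ) [Fact p.Prime] [NormedAlgebra ℚ_[p] A] (a x : A) : Prop :=
  Tendsto (fun j : ℕ => ((p : ℚ_[p]) ^ j)⁻¹ • (a ^ p ^ j - 1)) atTop (𝓝 x)

theorem tendsto_p : Tendsto (fun j : ℕ => (p : ℚ_[p]) ^ j) atTop (𝓝 0) := by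
  refine tendsto_pow_atTop_nhds_zero_of_norm_lt_one ?_
  rw [Padic.norm_p]
  exact inv_lt_one_of_one_lt₀ (by exact_mod_cast hp.out.one_lt)

theorem IsLog.tendsto_one {a x : A} (h : IsLog p a x) :
    Tendsto (fun j : ℕ => a ^ p ^ j) atTop (𝓝 1) := by
  have h1 := (tendsto_p (p := p)).smul h
  rw [zero_smul] at h1
  have h2 : (fun j : ℕ => (p : ℚ_[p]) ^ j • (((p : ℚ_[p]) ^ j)⁻¹ • (a ^ p ^ j - 1))) =
      fun j => a ^ p ^ j - 1 := by
    funext j
    rw [smul_smul, mul_inv_cancel₀ (pow_ne_zero _ (p_ne p)), one_smul]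
  rw [h2] at h1
  simpa using h1.add_const 1

/-- the inverse of a product near `1` -/
theorem log_exists' [CompleteSpace A] {a : A} (h : ‖a - 1‖ ≤ 1 / (8 * (p : ℝ) ^ 2)) :
    ∃ x Q : A, Q ∈ closure ((Algebra.adjoin ℚ_[p] {a} : Subalgebra ℚ_[p] A) : Set A) ∧
      a - 1 = x * Q ∧ IsLog p a x := by
  obtain ⟨P, hP, hPc, hlim⟩ := log_exists h
  set t : A := 1 - P with ht
  have htn : ‖t‖ < 1 := by
    rw [ht, norm_sub_rev]
    linarith
  have h1 : (1 - t) * ∑' i, t ^ i = 1 := mul_neg_geom_series t htn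
  have hsum := (summable_geometric_of_norm_lt_one htn).hasSum.tendsto_sum_nat
  have htc : t ∈ (Algebra.adjoin ℚ_[p] {a}).topologicalClosure := by
    refine Subalgebra.sub_mem _ (Subalgebra.one_mem _) ?_
    exact hPc
  refine ⟨(a - 1) * P, ∑' i, t ^ i, ?_, ?_, hlim⟩
  · have h2 : (∑' i, t ^ i) ∈ ((Algebra.adjoin ℚ_[p] {a}).topologicalClosure : Set A) :=
      (Subalgebra.isClosed_topologicalClosure _).mem_of_tendsto hsum
        (Eventually.of_forall fun k => Subalgebra.sum_mem _ fun i _ => Subalgebra.pow_mem _ htc i)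
    exact h2
  · rw [mul_assoc]
    have h3 : P = 1 - t := by rw [ht, sub_sub_cancel]
    rw [h3, h1, mul_one]

theorem conj_pow {b b' a : A} (h : b' * b = 1) (h' : b * b' = 1) (k : ℕ) :
    (b * a * b') ^ k = b * a ^ k * b' := by
  induction k with
  | zero => rw [pow_zero, pow_zero, mul_one, h']
  | succ k ih =>
    rw [pow_succ, ih, pow_succ]
    simp only [mul_assoc]
    rw [← mul_assoc b' b, h, one_mul]

theorem IsLog.conj {a x b b' : A} (h : IsLog p a x) (h1 : b' * b = 1) (h2 : b * b' = 1) :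
    IsLog p (b * a * b') (b * x * b') := by
  have h3 := (h.const_mul b).mul_const b'
  unfold IsLog
  have h4 : (fun j : ℕ => ((p : ℚ_[p]) ^ j)⁻¹ • ((b * a * b') ^ p ^ j - 1)) =
      fun j => b * (((p : ℚ_[p]) ^ j)⁻¹ • (a ^ p ^ j - 1)) * b' := by
    funext j
    rw [conj_pow h1 h2, mul_smul_comm, smul_mul_assoc, mul_sub, sub_mul, mul_one, h2]
  rw [h4]
  exact h3

/-- the derivative of a power -/
def SM (c x : A) : ℕ → A
  | 0 => 0
  | M + 1 => SM c x M * c + c ^ (M + 1) * x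

theorem tendsto_SM {a x : A} (h : IsLog p a x) (c : A) (M : ℕ) :
    Tendsto (fun j : ℕ => ((p : ℚ_[p]) ^ j)⁻¹ • ((c * a ^ p ^ j) ^ M - c ^ M)) atTop (𝓝 (SM c x M)) := by
  induction M with
  | zero =>
    have h1 : (fun j : ℕ => ((p : ℚ_[p]) ^ j)⁻¹ • ((c * a ^ p ^ j) ^ 0 - c ^ 0)) = fun _ => (0 : A) := by
      funext j
      simp
    rw [h1]
    exact tendsto_const_nhds
  | succ M ih =>
    have h1 : Tendsto (fun j : ℕ => c * a ^ p ^ j) atTop (𝓝 c) := by
      simpa using h.tendsto_one.const_mul c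
    have h2 := (ih.mul h1).add (h.const_mul (c ^ (M + 1)))
    refine h2.congr fun j => ?_
    rw [smul_mul_assoc, mul_smul_comm, ← smul_add]
    congr 1
    rw [pow_succ (c * a ^ p ^ j), pow_succ c]
    noncomm_ring

/-- the sum of the conjugates -/
theorem SM_eq {c c' x : A} (h : c' * c = 1) (M : ℕ) :
    SM c x M = (∑ i ∈ Finset.range M, c ^ (i + 1) * x * c' ^ (i + 1)) * c ^ M := by
  induction M with
  | zero => simp [SM]
  | succ M ih =>
    have h1 : ∀ k : ℕ, c' ^ k * c ^ k = 1 := by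
      intro k
      induction k with
      | zero => simp
      | succ k ih =>
        rw [pow_succ, pow_succ' c, mul_assoc, ← mul_assoc c', h, one_mul, ih]
    rw [SM, ih, Finset.sum_range_succ, add_mul, mul_assoc _ (c' ^ (M + 1)), h1, mul_one,
      pow_succ c M, mul_assoc]

/-- the bracket as a limit -/
theorem tendsto_brk {a x a' x' : A} (h : IsLog p a x) (h' : IsLog p a' x') (h1 : a * a' = 1)
    (h2 : a' * a = 1) (y : A) :
    Tendsto (fun j : ℕ => ((p : ℚ_[p]) ^ j)⁻¹ • (a ^ p ^ j * y * a' ^ p ^ j - y)) atTop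
      (𝓝 (x * y - y * x)) := by
  have h3 := ((h.mul_const y).sub (h.const_mul y)).mul h'.tendsto_one
  rw [mul_one] at h3
  have hc : Commute a a' := by
    change a * a' = a' * a
    rw [h1, h2]
  refine h3.congr fun j => ?_
  have h4 : a ^ p ^ j * a' ^ p ^ j = 1 := by rw [← hc.mul_pow, h1, one_pow]
  rw [smul_mul_assoc, mul_smul_comm, ← smul_sub, smul_mul_assoc]
  congr 1
  have h5 : ((a ^ p ^ j - 1) * y - y * (a ^ p ^ j - 1)) * a' ^ p ^ j =
      a ^ p ^ j * y * a' ^ p ^ j - y * (a ^ p ^ j * a' ^ p ^ j) := by noncomm_ring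
  rw [h5, h4, mul_one]

/-- conjugation as a continuous operator -/
noncomputable def AdL (p : ℕ) [Fact p.Prime] [NormedAlgebra ℚ_[p] A] (a a' : A) : A →L[ℚ_[p]] A :=
  ContinuousLinearMap.mulLeftRight ℚ_[p] A a a'

theorem AdL_apply (a a' y : A) : AdL p a a' y = a * y * a' := rfl

theorem AdL_pow {a a' : A} (k : ℕ) (y : A) :
    ((AdL p a a') ^ k) y = a ^ k * y * a' ^ k := by
  induction k generalizing y with
  | zero => simp
  | succ k ih =>
    rw [pow_succ, ContinuousLinearMap.mul_apply, ih, AdL_apply, pow_succ a, pow_succ' a']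
    simp only [mul_assoc]

theorem log_AdL {a x a' x' : A} (h : IsLog p a x) (h' : IsLog p a' x') (h1 : a * a' = 1)
    (h2 : a' * a = 1) {X : A →L[ℚ_[p]] A} (hX : IsLog p (AdL p a a') X) (y : A) :
    X y = x * y - y * x := by
  have h3 := ((ContinuousLinearMap.apply ℚ_[p] A y).continuous.tendsto X).comp hX
  refine tendsto_nhds_unique h3 ((tendsto_brk h h' h1 h2 y).congr fun j => ?_)
  change _ = (((p : ℚ_[p]) ^ j)⁻¹ • ((AdL p a a') ^ p ^ j - 1)) y
  rw [ContinuousLinearMap.smul_apply, ContinuousLinearMap.sub_apply, AdL_pow]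
  rfl

/-- elements near `1` of finite order -/
theorem eq_one_of_pow [CompleteSpace A] {a : A} (h : ‖a - 1‖ ≤ 1 / (8 * (p : ℝ) ^ 2)) {k : ℕ}
    (hk : 0 < k) (hak : a ^ k = 1) : a = 1 := by
  obtain ⟨x, Q, -, hQ, hx⟩ := log_exists' h
  have hfin : (Set.range fun i : ℕ => a ^ i).Finite := by
    refine (Set.finite_range fun i : Fin k => a ^ (i : ℕ)).subset ?_
    rintro _ ⟨i, rfl⟩
    refine ⟨⟨i % k, Nat.mod_lt _ hk⟩, ?_⟩
    change a ^ (i % k) = a ^ i
    conv_rhs => rw [← Nat.div_add_mod i k]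
    rw [pow_add, pow_mul, hak, one_pow, one_mul]
  have h1 : ∀ᶠ j : ℕ in atTop, a ^ p ^ j = 1 := by
    have h2 : IsClosed ((Set.range fun i : ℕ => a ^ i) \ {1}) := (hfin.subset Set.diff_subset).isClosed
    have h3 : ((Set.range fun i : ℕ => a ^ i) \ {1})ᶜ ∈ 𝓝 (1 : A) :=
      h2.isOpen_compl.mem_nhds (by simp)
    filter_upwards [hx.tendsto_one h3] with j hj
    by_contra hne
    exact hj ⟨⟨p ^ j, rfl⟩, hne⟩
  have h2 : x = 0 := by
    refine tendsto_nhds_unique hx ((tendsto_congr' ?_).2 tendsto_const_nhds)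
    filter_upwards [h1] with j hj
    rw [hj, sub_self, smul_zero]
  rw [h2, zero_mul] at hQ
  exact sub_eq_zero.1 hQ

end Pool.Agent.U849.FO
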