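import Pool.Agent.U849.FO.Krek
import Pool.Agent.U849.FO.Lg

/-!
# The Lie algebra of a compact `p`-adic group
-/

set_option autoImplicit false
set_option linter.unusedSectionVars false

namespace Pool.Agent.U849.FO

open Filter Topology Submodule

attribute [local instance 100] LieRing.ofAssociativeRing

variable {p : ℕ} [hp : Fact p.Prime] {K : Type} [NontriviallyNormedField K] [CompleteSpace K]
  [NormedAlgebra ℚ_[p] K] {A : Type} [NormedRing A] [NormedAlgebra K A] [NormedAlgebra ℚ_[p] A]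
  [IsScalarTower ℚ_[p] K A] [FiniteDimensional K A] {G : Type} [Group G]

/-- the span of the logarithms -/
def LL (p : ℕ) [Fact p.Prime] (K : Type) [NontriviallyNormedField K] [NormedAlgebra K A]
    [NormedAlgebra ℚ_[p] A] (R : G →* A) (U : Subgroup G) : Submodule K A :=
  span K {x | ∃ u ∈ U, IsLog p (R u) x}

variable {R : G →* A} {U : Subgroup G}

theorem R_inv (R : G →* A) (h : G) : R h * R h⁻¹ = 1 := by rw [← map_mul, mul_inv_cancel, map_one]

theorem R_inv' (R : G →* A) (h : G) : R h⁻¹ * R h = 1 := by rw [← map_mul, inv_mul_cancel, map_one]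

include hp in
omit [CompleteSpace K] [NormedAlgebra ℚ_[p] K] [IsScalarTower ℚ_[p] K A] [FiniteDimensional K A] in
theorem LL_conj (hU : U.Normal) (h : G) {y : A} (hy : y ∈ LL p K R U) :
    R h * y * R h⁻¹ ∈ LL p K R U := by
  unfold LL at hy
  induction hy using Submodule.span_induction with
  | mem y hy =>
    obtain ⟨u, hu, hy⟩ := hy
    refine subset_span ⟨h * u * h⁻¹, hU.conj_mem u hu h, ?_⟩
    rw [map_mul, map_mul]
    exact hy.conj (R_inv' R h) (R_inv R h)
  | zero => rw [mul_zero, zero_mul]; exact zero_mem _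
  | add _ _ _ _ h1 h2 => rw [mul_add, add_mul]; exact add_mem h1 h2
  | smul c _ _ h1 => rw [mul_smul_comm, smul_mul_assoc]; exact smul_mem _ c h1

include hp in
omit [NormedAlgebra ℚ_[p] K] [IsScalarTower ℚ_[p] K A] in
theorem LL_closed : IsClosed (LL p K R U : Set A) :=
  Submodule.closed_of_finiteDimensional _

theorem LL_brk (hU : U.Normal) (hlog : ∀ u ∈ U, ∃ x, IsLog p (R u) x) {x y : A}
    (hx : x ∈ LL p K R U) (hy : y ∈ LL p K R U) : x * y - y * x ∈ LL p K R U := by
  unfold LL at hx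
  induction hx using Submodule.span_induction with
  | mem x hx =>
    obtain ⟨u, hu, hx⟩ := hx
    obtain ⟨x', hx'⟩ := hlog u⁻¹ (U.inv_mem hu)
    refine (LL_closed (p := p) (K := K)).mem_of_tendsto
      (tendsto_brk hx hx' (R_inv R u) (R_inv' R u) y) (Eventually.of_forall fun j => ?_)
    refine Submodule.smul_of_tower_mem _ _ (sub_mem ?_ hy)
    rw [← map_pow, ← map_pow, inv_pow]
    exact LL_conj hU _ hy
  | zero => rw [mul_zero, zero_mul, sub_zero]; exact zero_mem _
  | add a b _ _ h1 h2 =>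
    have e : (a + b) * y - y * (a + b) = (a * y - y * a) + (b * y - y * b) := by noncomm_ring
    rw [e]
    exact add_mem h1 h2
  | smul c a _ h1 =>
    rw [smul_mul_assoc, mul_smul_comm, ← smul_sub]
    exact smul_mem _ c h1

include hp in
omit [CompleteSpace K] [NormedAlgebra ℚ_[p] K] [IsScalarTower ℚ_[p] K A] [FiniteDimensional K A] in
theorem LL_sum {g : G} {M : ℕ} (hg : ∀ u ∈ U, (R (g * u)) ^ M = 1) {y : A} (hy : y ∈ LL p K R U) :
    ∑ i ∈ Finset.range M, R g ^ (i + 1) * y * R g⁻¹ ^ (i + 1) = 0 := by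
  have hg1 : R g ^ M = 1 := by
    have := hg 1 U.one_mem
    rwa [mul_one] at this
  unfold LL at hy
  induction hy using Submodule.span_induction with
  | mem y hy =>
    obtain ⟨u, hu, hy⟩ := hy
    have h1 := tendsto_SM hy (R g) M
    have h2 : (fun j : ℕ => ((p : ℚ_[p]) ^ j)⁻¹ • ((R g * R u ^ p ^ j) ^ M - R g ^ M)) = fun _ => (0 : A) := by
      funext j
      rw [← map_pow, ← map_mul, hg _ (U.pow_mem hu _), hg1, sub_self, smul_zero]
    rw [h2] at h1
    have h3 : SM (R g) y M = 0 := tendsto_nhds_unique h1 tendsto_const_nhds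
    rw [SM_eq (R_inv' R g), hg1, mul_one] at h3
    exact h3
  | zero => simp
  | add a b _ _ h1 h2 =>
    have e : ∀ i ∈ Finset.range M, R g ^ (i + 1) * (a + b) * R g⁻¹ ^ (i + 1) =
        R g ^ (i + 1) * a * R g⁻¹ ^ (i + 1) + R g ^ (i + 1) * b * R g⁻¹ ^ (i + 1) := fun i _ => by
      rw [mul_add, add_mul]
    rw [Finset.sum_congr rfl e, Finset.sum_add_distrib, h1, h2, add_zero]
  | smul c a _ h1 =>
    have e : ∀ i ∈ Finset.range M, R g ^ (i + 1) * (c • a) * R g⁻¹ ^ (i + 1) =
        c • (R g ^ (i + 1) * a * R g⁻¹ ^ (i + 1)) := fun i _ => by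
      rw [mul_smul_comm, smul_mul_assoc]
    rw [Finset.sum_congr rfl e, ← Finset.smul_sum, h1, smul_zero]

/-- the Lie algebra -/
def LA (hU : U.Normal) (hlog : ∀ u ∈ U, ∃ x, IsLog p (R u) x) : LieSubalgebra K A :=
  { LL p K R U with
    lie_mem' := fun {x y} hx hy => by
      rw [LieRing.of_associative_ring_bracket]
      exact LL_brk hU hlog hx hy }

theorem mem_LA (hU : U.Normal) (hlog : ∀ u ∈ U, ∃ x, IsLog p (R u) x) {x : A} :
    x ∈ LA (K := K) hU hlog ↔ x ∈ LL p K R U := Iff.rfl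

/-- it is solvable -/
theorem LA_solvable [IsAlgClosed K] [CharZero K] (hU : U.Normal)
    (hlog : ∀ u ∈ U, ∃ x, IsLog p (R u) x) {g : G} {M : ℕ} (hM : 0 < M)
    (hg : ∀ u ∈ U, (R (g * u)) ^ M = 1) : LieAlgebra.IsSolvable (LA (K := K) hU hlog) := by
  have : NeZero (M : K) := ⟨by exact_mod_cast hM.ne'⟩
  obtain ⟨ζ, hζ⟩ := HasEnoughRootsOfUnity.exists_primitiveRoot K M
  have hg1 : R g ^ M = 1 := by
    have := hg 1 U.one_mem
    rwa [mul_one] at this
  have hg2 : R g⁻¹ ^ M = 1 := by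
    rw [← map_pow, inv_pow]
    have h1 : R (g ^ M) * R ((g ^ M)⁻¹) = 1 := R_inv R _
    rwa [map_pow, hg1, one_mul] at h1
  let σ : LA (K := K) hU hlog →ₗ[K] LA (K := K) hU hlog :=
    { toFun := fun y => ⟨R g * y.1 * R g⁻¹, LL_conj hU g y.2⟩
      map_add' := fun x y => Subtype.ext (by
        change R g * (x.1 + y.1) * R g⁻¹ = R g * x.1 * R g⁻¹ + R g * y.1 * R g⁻¹
        rw [mul_add, add_mul])
      map_smul' := fun c x => Subtype.ext (by
        change R g * (c • x.1) * R g⁻¹ = c • (R g * x.1 * R g⁻¹)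
        rw [mul_smul_comm, smul_mul_assoc]) }
  have hσ : ∀ y, (σ y).1 = R g * y.1 * R g⁻¹ := fun y => rfl
  have hσk : ∀ (k : ℕ) y, ((σ ^ k) y).1 = R g ^ k * y.1 * R g⁻¹ ^ k := by
    intro k
    induction k with
    | zero => intro y; simp
    | succ k ih =>
      intro y
      rw [pow_succ, Module.End.mul_apply, ih, hσ, pow_succ (R g), pow_succ' (R g⁻¹)]
      simp only [mul_assoc]
  refine kreknin_aut σ ?_ hM hζ ?_ ?_
  · intro x y
    apply Subtype.ext
    rw [hσ, LieSubalgebra.coe_bracket, LieSubalgebra.coe_bracket, hσ, hσ,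
      LieRing.of_associative_ring_bracket, LieRing.of_associative_ring_bracket]
    have h1 := R_inv' R g
    have h2 : ∀ a b : A, R g * a * R g⁻¹ * (R g * b * R g⁻¹) = R g * (a * b) * R g⁻¹ := by
      intro a b
      simp only [mul_assoc]
      rw [← mul_assoc (R g⁻¹) (R g), h1, one_mul]
    rw [h2, h2, mul_sub, sub_mul]
  · intro y
    apply Subtype.ext
    rw [hσk, hg1, hg2, one_mul, mul_one]
  · intro y
    -- shift
    have h1 : ∑ i ∈ Finset.range M, (σ ^ (i + 1)) y = 0 := by
      apply Subtype.ext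
      have h2 := LL_sum (K := K) hg y.2
      have h3 : ((∑ i ∈ Finset.range M, (σ ^ (i + 1)) y : LA (K := K) hU hlog) : A) =
          ∑ i ∈ Finset.range M, (((σ ^ (i + 1)) y : LA (K := K) hU hlog) : A) :=
        _root_.map_sum (LA (K := K) hU hlog).subtype _ _
      rw [h3, Finset.sum_congr rfl fun i _ => hσk (i + 1) y]
      exact h2
    obtain ⟨M', rfl⟩ : ∃ M', M = M' + 1 := ⟨M - 1, by omega⟩
    rw [Finset.sum_range_succ'] 
    rw [Finset.sum_range_succ] at h1
    have h4 : (σ ^ (M' + 1)) y = y := by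
      apply Subtype.ext
      rw [hσk, hg1, hg2, one_mul, mul_one]
    rw [h4] at h1
    exact h1

end Pool.Agent.U849.FO
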