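import Mathlib

/-!
# The logarithm in `p`-adic Banach algebras
-/

set_option autoImplicit false

namespace Pool.Agent.U849.FO

open Filter Topology

variable (p : ℕ) [hp : Fact p.Prime] {A : Type} [NormedRing A] [NormedAlgebra ℚ_[p] A]

/-- the correction -/
noncomputable def yy (b : A) : A :=
  ∑ k ∈ Finset.Ico 2 (p + 1), ((p.choose k : ℚ_[p]) / p) • (b - 1) ^ (k - 1)

theorem p_ne : (p : ℚ_[p]) ≠ 0 := by exact_mod_cast hp.out.ne_zero

theorem pow_sub_one (b : A) : b ^ p - 1 = (p : ℚ_[p]) • ((b - 1) * (1 + yy p b)) := by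
  have hp2 : 2 ≤ p := hp.out.two_le
  set z := b - 1 with hz
  have hb : b = z + 1 := by rw [hz, sub_add_cancel]
  have h1 : b ^ p = ∑ k ∈ Finset.range (p + 1), (p.choose k : ℚ_[p]) • z ^ k := by
    rw [hb, (Commute.one_right z).add_pow]
    refine Finset.sum_congr rfl fun k _ => ?_
    rw [one_pow, mul_one, Nat.cast_smul_eq_nsmul, nsmul_eq_mul, Nat.cast_comm]
  have h2 : ∑ k ∈ Finset.range (p + 1), (p.choose k : ℚ_[p]) • z ^ k =
      1 + (p : ℚ_[p]) • z + ∑ k ∈ Finset.Ico 2 (p + 1), (p.choose k : ℚ_[p]) • z ^ k := by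
    rw [Finset.range_eq_Ico, ← Finset.sum_Ico_consecutive _ (Nat.zero_le 2) (by omega : 2 ≤ p + 1)]
    congr 1
    rw [← Finset.range_eq_Ico, Finset.sum_range_succ, Finset.sum_range_one]
    simp
  rw [h1, h2, yy, ← hz, mul_add, mul_one, smul_add, Finset.mul_sum, Finset.smul_sum]
  have h3 : ∀ k ∈ Finset.Ico 2 (p + 1), (p : ℚ_[p]) • (z * ((p.choose k : ℚ_[p]) / p) • z ^ (k - 1)) =
      (p.choose k : ℚ_[p]) • z ^ k := by
    intro k hk
    have hk2 := (Finset.mem_Ico.1 hk).1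
    rw [mul_smul_comm, smul_smul, mul_div_cancel₀ _ (p_ne p), ← pow_succ']
    congr 2
    omega
  rw [Finset.sum_congr rfl h3]
  abel

theorem norm_yy {b : A} (hb : ‖b - 1‖ ≤ 1) : ‖yy p b‖ ≤ p ^ 2 * ‖b - 1‖ := by
  have hp2 : 2 ≤ p := hp.out.two_le
  have hp0 : (0 : ℝ) < p := by exact_mod_cast hp.out.pos
  have h1 : ∀ k ∈ Finset.Ico 2 (p + 1), ‖((p.choose k : ℚ_[p]) / p) • (b - 1) ^ (k - 1)‖ ≤
      p * ‖b - 1‖ := by
    intro k hk
    have hk2 := (Finset.mem_Ico.1 hk).1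
    rw [norm_smul, norm_div]
    have h2 : ‖(p.choose k : ℚ_[p])‖ / ‖(p : ℚ_[p])‖ ≤ p := by
      rw [Padic.norm_p, div_inv_eq_mul]
      have h3 : ‖(p.choose k : ℚ_[p])‖ ≤ 1 := by
        have := Padic.norm_int_le_one (p := p) (p.choose k : ℤ)
        exact_mod_cast this
      nlinarith
    have h4 : ‖(b - 1) ^ (k - 1)‖ ≤ ‖b - 1‖ := by
      refine (norm_pow_le' _ (by omega)).trans ?_
      exact pow_le_of_le_one (norm_nonneg _) hb (by omega)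
    exact mul_le_mul h2 h4 (norm_nonneg _) hp0.le
  refine (norm_sum_le_of_le _ h1).trans ?_
  rw [Finset.sum_const, Nat.card_Ico, nsmul_eq_mul]
  have h5 : ((p + 1 - 2 : ℕ) : ℝ) ≤ p := by exact_mod_cast (by omega : p + 1 - 2 ≤ p)
  have h6 : (0 : ℝ) ≤ p * ‖b - 1‖ := by positivity
  nlinarith

variable {p}

/-- the products -/
noncomputable def PP (p : ℕ) [Fact p.Prime] [NormedAlgebra ℚ_[p] A] (a : A) : ℕ → A
  | 0 => 1
  | j + 1 => PP p a j * (1 + yy p (a ^ p ^ j))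

theorem small (hp2 : 2 ≤ p) {a : A} (h : ‖a - 1‖ ≤ 1 / (8 * (p : ℝ) ^ 2)) (j : ℕ) :
    ‖a ^ p ^ j - 1‖ ≤ 1 / (8 * (p : ℝ) ^ 2) * (5 / 8) ^ j := by
  have hp0 : (2 : ℝ) ≤ p := by exact_mod_cast hp2
  induction j with
  | zero => simpa using h
  | succ j ih =>
    set b := a ^ p ^ j with hb
    have hb1 : a ^ p ^ (j + 1) = b ^ p := by rw [hb, ← pow_mul, pow_succ]
    have h1 : (5 / 8 : ℝ) ^ j ≤ 1 := pow_le_one₀ (by norm_num) (by norm_num)
    have h2 : (0 : ℝ) < (5 / 8 : ℝ) ^ j := by positivity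
    have h0 : (0 : ℝ) < 1 / (8 * (p : ℝ) ^ 2) := by positivity
    have hε : 1 / (8 * (p : ℝ) ^ 2) ≤ 1 := by
      rw [div_le_one (by positivity)]
      nlinarith
    have h3 : ‖b - 1‖ ≤ 1 := ih.trans (by nlinarith)
    have h4 := norm_yy p h3
    have h5 : ‖yy p b‖ ≤ 1 / 8 := by
      refine h4.trans ?_
      have h6 : (p : ℝ) ^ 2 * (1 / (8 * (p : ℝ) ^ 2)) = 1 / 8 := by
        field_simp
      calc (p : ℝ) ^ 2 * ‖b - 1‖ ≤ (p : ℝ) ^ 2 * (1 / (8 * (p : ℝ) ^ 2) * (5 / 8) ^ j) := by gcongr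
        _ = 1 / 8 * (5 / 8) ^ j := by rw [← mul_assoc, h6]
        _ ≤ 1 / 8 := by nlinarith
    rw [hb1, pow_sub_one, norm_smul, Padic.norm_p]
    have h7 : ‖(b - 1) * (1 + yy p b)‖ ≤ ‖b - 1‖ * (9 / 8) := by
      rw [mul_add, mul_one]
      refine (norm_add_le _ _).trans ?_
      have := norm_mul_le (b - 1) (yy p b)
      have h8 : ‖b - 1‖ * ‖yy p b‖ ≤ ‖b - 1‖ * (1 / 8) := by gcongr
      linarith
    have h9 : (p : ℝ)⁻¹ ≤ 1 / 2 := by
      rw [inv_le_comm₀ (by linarith) (by norm_num)]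
      linarith
    calc (p : ℝ)⁻¹ * ‖(b - 1) * (1 + yy p b)‖ ≤ 1 / 2 * (‖b - 1‖ * (9 / 8)) := by gcongr
      _ ≤ 1 / 2 * ((1 / (8 * (p : ℝ) ^ 2) * (5 / 8) ^ j) * (9 / 8)) := by gcongr
      _ ≤ 1 / (8 * (p : ℝ) ^ 2) * (5 / 8) ^ (j + 1) := by
        rw [pow_succ (5 / 8 : ℝ)]
        have h10 := mul_pos h0 h2
        have h11 : 1 / 2 * ((1 / (8 * (p : ℝ) ^ 2) * (5 / 8) ^ j) * (9 / 8)) =
            (1 / (8 * (p : ℝ) ^ 2) * (5 / 8) ^ j) * (9 / 16) := by ring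
        have h12 : 1 / (8 * (p : ℝ) ^ 2) * ((5 / 8) ^ j * (5 / 8)) =
            (1 / (8 * (p : ℝ) ^ 2) * (5 / 8) ^ j) * (5 / 8) := by ring
        rw [h11, h12]
        nlinarith

theorem small_yy (hp2 : 2 ≤ p) {a : A} (h : ‖a - 1‖ ≤ 1 / (8 * (p : ℝ) ^ 2)) (j : ℕ) :
    ‖yy p (a ^ p ^ j)‖ ≤ 1 / 8 * (5 / 8) ^ j := by
  have hp0 : (2 : ℝ) ≤ p := by exact_mod_cast hp2
  have h1 := small hp2 h j
  have h0 : (0 : ℝ) < 1 / (8 * (p : ℝ) ^ 2) := by positivity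
  have hε : 1 / (8 * (p : ℝ) ^ 2) ≤ 1 := by
    rw [div_le_one (by positivity)]
    nlinarith
  have h2 : (5 / 8 : ℝ) ^ j ≤ 1 := pow_le_one₀ (by norm_num) (by norm_num)
  have h3 : (0 : ℝ) < (5 / 8 : ℝ) ^ j := by positivity
  have h4 := norm_yy p (b := a ^ p ^ j) (h1.trans (by nlinarith))
  refine h4.trans ?_
  have h6 : (p : ℝ) ^ 2 * (1 / (8 * (p : ℝ) ^ 2)) = 1 / 8 := by
    field_simp
  calc (p : ℝ) ^ 2 * ‖a ^ p ^ j - 1‖ ≤ (p : ℝ) ^ 2 * (1 / (8 * (p : ℝ) ^ 2) * (5 / 8) ^ j) := by gcongr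
    _ = 1 / 8 * (5 / 8) ^ j := by rw [← mul_assoc, h6]

theorem norm_PP (hp2 : 2 ≤ p) {a : A} (h : ‖a - 1‖ ≤ 1 / (8 * (p : ℝ) ^ 2)) (j : ℕ) :
    ‖PP p a j - 1‖ ≤ 1 / 2 * (1 - (5 / 8) ^ j) := by
  induction j with
  | zero => simp [PP]
  | succ j ih =>
    have hy := small_yy hp2 h j
    set y := yy p (a ^ p ^ j) with hyd
    set q : ℝ := (5 / 8) ^ j with hq
    have h2 : q ≤ 1 := pow_le_one₀ (by norm_num) (by norm_num)
    have h3 : 0 < q := by positivity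
    have h1 : PP p a (j + 1) - 1 = (PP p a j - 1) + ((PP p a j - 1) * y + y) := by
      rw [PP, ← hyd]
      noncomm_ring
    rw [h1]
    refine (norm_add_le _ _).trans ?_
    have h4 : ‖(PP p a j - 1) * y + y‖ ≤ ‖PP p a j - 1‖ * ‖y‖ + ‖y‖ :=
      (norm_add_le _ _).trans (by gcongr; exact norm_mul_le _ _)
    have h5 : ‖PP p a j - 1‖ * ‖y‖ ≤ (1 / 2 * (1 - q)) * (1 / 8 * q) :=
      mul_le_mul ih hy (norm_nonneg _) (by nlinarith)
    rw [pow_succ, ← hq]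
    nlinarith [sq_nonneg q]

theorem PP_mem {a : A} (j : ℕ) : PP p a j ∈ Algebra.adjoin ℚ_[p] {a} := by
  have ha : a ∈ Algebra.adjoin ℚ_[p] {a} := Algebra.self_mem_adjoin_singleton _ _
  have hy : ∀ j, yy p (a ^ p ^ j) ∈ Algebra.adjoin ℚ_[p] {a} := by
    intro j
    refine Subalgebra.sum_mem _ fun k _ => Subalgebra.smul_mem _ ?_ _
    exact Subalgebra.pow_mem _ (Subalgebra.sub_mem _ (Subalgebra.pow_mem _ ha _) (Subalgebra.one_mem _)) _
  induction j with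
  | zero => exact Subalgebra.one_mem _
  | succ j ih => exact Subalgebra.mul_mem _ ih (Subalgebra.add_mem _ (Subalgebra.one_mem _) (hy j))

theorem log_eq (a : A) (j : ℕ) : ((p : ℚ_[p]) ^ j)⁻¹ • (a ^ p ^ j - 1) = (a - 1) * PP p a j := by
  induction j with
  | zero => simp [PP]
  | succ j ih =>
    have h1 : a ^ p ^ (j + 1) = (a ^ p ^ j) ^ p := by rw [← pow_mul, pow_succ]
    rw [h1, pow_sub_one, PP, ← mul_assoc, ← ih, smul_smul, pow_succ, mul_inv, mul_assoc,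
      inv_mul_cancel₀ (p_ne p), mul_one, smul_mul_assoc]

/-- **The logarithm** -/
theorem log_exists [CompleteSpace A] {a : A} (h : ‖a - 1‖ ≤ 1 / (8 * (p : ℝ) ^ 2)) :
    ∃ P : A, ‖P - 1‖ ≤ 1 / 2 ∧ P ∈ closure ((Algebra.adjoin ℚ_[p] {a} : Subalgebra ℚ_[p] A) : Set A) ∧
      Tendsto (fun j : ℕ => ((p : ℚ_[p]) ^ j)⁻¹ • (a ^ p ^ j - 1)) atTop (𝓝 ((a - 1) * P)) := by
  have hp2 : 2 ≤ p := hp.out.two_le
  have hc : CauchySeq (PP p a) := by
    refine cauchySeq_of_le_geometric (5 / 8) (3 / 16) (by norm_num) fun j => ?_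
    rw [dist_eq_norm]
    have h1 := norm_PP hp2 h j
    have h2 := small_yy hp2 h j
    have h3 : PP p a j - PP p a (j + 1) = -((PP p a j - 1) * yy p (a ^ p ^ j) + yy p (a ^ p ^ j)) := by
      rw [PP]
      noncomm_ring
    rw [h3, norm_neg]
    refine (norm_add_le _ _).trans ?_
    have h4 := norm_mul_le (PP p a j - 1) (yy p (a ^ p ^ j))
    have h5 : (0 : ℝ) < (5 / 8 : ℝ) ^ j := by positivity
    have h6 : ‖PP p a j - 1‖ * ‖yy p (a ^ p ^ j)‖ ≤ (1 / 2) * (1 / 8 * (5 / 8) ^ j) :=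
      mul_le_mul (by nlinarith) h2 (norm_nonneg _) (by norm_num)
    nlinarith
  obtain ⟨P, hP⟩ := cauchySeq_tendsto_of_complete hc
  refine ⟨P, ?_, ?_, ?_⟩
  · refine le_of_tendsto ((hP.sub_const 1).norm) (Eventually.of_forall fun j => ?_)
    refine (norm_PP hp2 h j).trans ?_
    have h5 : (0 : ℝ) < (5 / 8 : ℝ) ^ j := by positivity
    nlinarith
  · exact mem_closure_of_tendsto hP (Eventually.of_forall fun j => PP_mem j)
  · simp only [log_eq]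
    exact hP.const_mul _

end Pool.Agent.U849.FO
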