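import Pool.Agent.U849.FO.Fab

/-!
# Irreducible representations with a coset of quasi-unipotent elements
-/

set_option autoImplicit false
set_option linter.unusedSectionVars false

namespace Pool.Agent.U849.FO

open Filter Topology Module
open Pool.Agent.U849.SS (MinSub Stb Cts exists_minSub sub quo)

attribute [local instance 100] LieRing.ofAssociativeRing

theorem pow_sub_nil {A : Type} [Ring A] {a : A} {N : ℕ} (h : (a - 1) ^ N = 0) (m : ℕ) :
    (a ^ m - 1) ^ N = 0 := by
  have h1 : a ^ m - 1 = (∑ i ∈ Finset.range m, a ^ i) * (a - 1) := (geom_sum_mul a m).symm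
  have h2 : Commute (∑ i ∈ Finset.range m, a ^ i) (a - 1) :=
    Commute.sum_left _ _ _ fun i _ => ((Commute.refl a).sub_right (Commute.one_right a)).pow_left i
  rw [h1, h2.mul_pow, h, mul_zero]

section logs

variable {p : ℕ} [hp : Fact p.Prime] {A : Type} [NormedRing A] [NormedAlgebra ℚ_[p] A]

theorem IsLog.nil {a x : A} (h : IsLog p a x) {N : ℕ} (ha : (a - 1) ^ N = 0) : x ^ N = 0 := by
  refine tendsto_nhds_unique (h.pow N) ?_
  have h1 : (fun j : ℕ => (((p : ℚ_[p]) ^ j)⁻¹ • (a ^ p ^ j - 1)) ^ N) = fun _ => (0 : A) := by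
    funext j
    rw [smul_pow, pow_sub_nil ha, smul_zero]
  rw [h1]
  exact tendsto_const_nhds

theorem IsLog.powk {a x : A} (h : IsLog p a x) (k : ℕ) : IsLog p (a ^ k) ((k : A) * x) := by
  have h1 : Tendsto (fun j : ℕ => ∑ i ∈ Finset.range k, (a ^ p ^ j) ^ i) atTop
      (𝓝 (∑ i ∈ Finset.range k, (1 : A) ^ i)) :=
    tendsto_finsetSum _ fun i _ => h.tendsto_one.pow i
  have h2 : (∑ i ∈ Finset.range k, (1 : A) ^ i) = (k : A) := by simp
  rw [h2] at h1
  refine (h1.mul h).congr fun j => ?_
  rw [mul_smul_comm, geom_sum_mul, ← pow_mul, ← pow_mul, mul_comm]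

theorem nil_of_pow [CompleteSpace A] {a : A} (h : ‖a - 1‖ ≤ 1 / (8 * (p : ℝ) ^ 2)) {k N : ℕ}
    (hk : 0 < k) (hak : (a ^ k - 1) ^ N = 0) : (a - 1) ^ N = 0 := by
  obtain ⟨x, Q, hQc, hQ, hx⟩ := log_exists' h
  have hk0 : (k : ℚ_[p]) ≠ 0 := by exact_mod_cast hk.ne'
  have h1 : x ^ N = 0 := by
    have h2 := (hx.powk k).nil hak
    have h3 : ((k : A) * x) = (k : ℚ_[p]) • x := by
      rw [Nat.cast_smul_eq_nsmul, nsmul_eq_mul]
    rw [h3, smul_pow] at h2
    exact (smul_eq_zero.1 h2).resolve_left (pow_ne_zero _ hk0)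
  have h2 : a * Q = Q * a := by
    have h3 : closure ((Algebra.adjoin ℚ_[p] {a} : Subalgebra ℚ_[p] A) : Set A) ⊆
        {y | a * y = y * a} := by
      refine closure_minimal ?_ (isClosed_eq (continuous_const.mul continuous_id)
        (continuous_id.mul continuous_const))
      intro y hy
      change y ∈ Algebra.adjoin ℚ_[p] {a} at hy
      induction hy using Algebra.adjoin_induction with
      | mem x hx =>
        rw [Set.mem_singleton_iff] at hx
        rw [hx]
        rfl
      | algebraMap r => exact (Algebra.commutes r a).symm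
      | add u v _ _ hu hv =>
        change a * (u + v) = (u + v) * a
        rw [mul_add, add_mul, hu, hv]
      | mul u v _ _ hu hv =>
        change a * (u * v) = (u * v) * a
        have hu' : a * u = u * a := hu
        have hv' : a * v = v * a := hv
        rw [← mul_assoc, hu', mul_assoc, hv', mul_assoc]
    exact h3 hQc
  have h4 : Commute x Q := by
    change x * Q = Q * x
    refine tendsto_nhds_unique (Tendsto.mul_const Q hx) ((Tendsto.const_mul Q hx).congr fun j => ?_)
    have h5 : Commute a Q := h2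
    have h6 := (h5.pow_left (p ^ j)).eq
    rw [mul_smul_comm, smul_mul_assoc, mul_sub, sub_mul, h6, mul_one, one_mul]
  rw [hQ, h4.mul_pow, h1, zero_mul]

end logs

/-- common kernels -/
theorem common_ker {K V : Type} [Field K] [AddCommGroup V] [Module K V] [FiniteDimensional K V]
    (J : Set (End K V)) (hcomm : ∀ x ∈ J, ∀ y ∈ J, x * y = y * x) (hnil : ∀ x ∈ J, IsNilpotent x) :
    ∀ (d : ℕ) (S : Submodule K V), finrank K S = d → S ≠ ⊥ → (∀ x ∈ J, ∀ v ∈ S, x v ∈ S) →
      ∃ v ∈ S, v ≠ 0 ∧ ∀ x ∈ J, x v = 0 := by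
  classical
  intro d
  induction d using Nat.strong_induction_on with
  | _ d ih =>
    intro S hd hS hst
    by_cases hall : ∀ x ∈ J, ∀ v ∈ S, x v = 0
    · obtain ⟨v, hv, hv0⟩ := Submodule.exists_mem_ne_zero_of_ne_bot hS
      exact ⟨v, hv, hv0, fun x hx => hall x hx v hv⟩
    · push Not at hall
      obtain ⟨x, hx, v, hv, hxv⟩ := hall
      set S' : Submodule K V := S ⊓ LinearMap.ker x with hS'
      have hlt : S' < S := by
        refine lt_of_le_of_ne inf_le_left fun h => ?_
        have h1 : v ∈ S' := by rw [h]; exact hv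
        exact hxv (LinearMap.mem_ker.1 h1.2)
      have hne : S' ≠ ⊥ := by
        obtain ⟨k, hk⟩ := hnil x hx
        have hex : ∃ k, (x ^ k) v = 0 := ⟨k, by rw [hk, LinearMap.zero_apply]⟩
        have h1 := Nat.find_spec hex
        have h2 : Nat.find hex ≠ 0 := by
          intro h0
          rw [h0, pow_zero, Module.End.one_apply] at h1
          rw [h1, map_zero] at hxv
          exact hxv rfl
        obtain ⟨m, hm⟩ := Nat.exists_eq_succ_of_ne_zero h2
        have h3 : (x ^ m) v ≠ 0 := Nat.find_min hex (by omega)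
        have h4 : ∀ k, (x ^ k) v ∈ S := by
          intro k
          induction k with
          | zero => simpa using hv
          | succ k ih =>
            rw [pow_succ', Module.End.mul_apply]
            exact hst x hx _ ih
        intro h0
        have h5 : (x ^ m) v ∈ S' := by
          refine ⟨h4 m, ?_⟩
          change x ((x ^ m) v) = 0
          rw [hm, pow_succ', Module.End.mul_apply] at h1
          exact h1
        rw [h0, Submodule.mem_bot] at h5
        exact h3 h5
      obtain ⟨v', hv', hv0, hv1⟩ := ih (finrank K S') (by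
          rw [← hd]
          exact Submodule.finrank_lt_finrank_of_lt hlt) S' rfl hne (by
          intro y hy w hw
          refine ⟨hst y hy w hw.1, ?_⟩
          change x (y w) = 0
          rw [← Module.End.mul_apply, hcomm x hx y hy, Module.End.mul_apply,
            LinearMap.mem_ker.1 hw.2, map_zero])
      exact ⟨v', hv'.1, hv0, hv1⟩

end Pool.Agent.U849.FO
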