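import Pool.Agent.U849.FO.Qu

/-!
# Irreducible representations with a coset of quasi-unipotent elements
-/

set_option autoImplicit false
set_option linter.unusedSectionVars false

namespace Pool.Agent.U849.FO

open Filter Topology Module
open Pool.Agent.U849.SS (MinSub Stb Cts exists_minSub sub quo)

attribute [local instance 100] LieRing.ofAssociativeRing

variable {p : ℕ} [hp : Fact p.Prime] {K : Type} [NontriviallyNormedField K] [CompleteSpace K]
  [NormedAlgebra ℚ_[p] K] [IsAlgClosed K] [CharZero K]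
  {G : Type} [Group G]

section

variable {A : Type} [NormedRing A] [NormedAlgebra K A] [NormedAlgebra ℚ_[p] A]
  [IsScalarTower ℚ_[p] K A] [FiniteDimensional K A] {V : Type} [NormedAddCommGroup V]
  [NormedSpace K V] [FiniteDimensional K V] (E : A ≃ₐ[K] End K V)

/-- the trace -/
noncomputable def tr : A →ₗ[K] K := LinearMap.trace K V ∘ₗ E.toLinearMap

omit hp [CompleteSpace K] [NormedAlgebra ℚ_[p] K] [IsAlgClosed K] [CharZero K] [NormedAlgebra ℚ_[p] A]
  [IsScalarTower ℚ_[p] K A] [FiniteDimensional K A] [FiniteDimensional K V] in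
theorem tr_comm (a b : A) : tr E (a * b) = tr E (b * a) := by
  change LinearMap.trace K V (E (a * b)) = LinearMap.trace K V (E (b * a))
  rw [map_mul E, map_mul E, LinearMap.trace_mul_comm]

omit hp [CompleteSpace K] [NormedAlgebra ℚ_[p] K] [IsAlgClosed K] [CharZero K] [NormedAlgebra ℚ_[p] A]
  [IsScalarTower ℚ_[p] K A] [FiniteDimensional K A] in
theorem tr_uni {a : A} {N : ℕ} (h : (a - 1) ^ N = 0) : tr E a = tr E 1 := by
  have h1 : IsNilpotent (E (a - 1)) := ⟨N, by rw [← map_pow, h, map_zero]⟩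
  have h2 := (LinearMap.isNilpotent_trace_of_isNilpotent h1).eq_zero
  have h3 : tr E (a - 1) = 0 := h2
  rwa [map_sub, sub_eq_zero] at h3

omit [IsAlgClosed K] in
theorem tr_SM {R : G →* A} {U : Subgroup G} {g : G} {M N : ℕ}
    (hg : ∀ u ∈ U, (R (g * u) ^ M - 1) ^ N = 0) {u : G} (hu : u ∈ U) {k : ℕ} (hk : 0 < M * k)
    {y : A} (hy : y ∈ LL p K R U) : tr E (y * R (g * u) ^ (M * k)) = 0 := by
  have hone : ∀ u ∈ U, tr E (R (g * u) ^ (M * k)) = tr E 1 := fun u hu => by
    rw [pow_mul]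
    exact tr_uni E (pow_sub_nil (hg u hu) k)
  have hc : Continuous (tr E) := LinearMap.continuous_of_finiteDimensional _
  unfold LL at hy
  induction hy using Submodule.span_induction with
  | mem y hy =>
    obtain ⟨v, hv, hy⟩ := hy
    have h1 := (hc.tendsto _).comp (tendsto_SM hy (R (g * u)) (M * k))
    have h2 : (tr E) ∘ (fun j : ℕ => ((p : ℚ_[p]) ^ j)⁻¹ • ((R (g * u) * R v ^ p ^ j) ^ (M * k) -
        R (g * u) ^ (M * k))) = fun _ => (0 : K) := by
      funext j
      change tr E (((p : ℚ_[p]) ^ j)⁻¹ • ((R (g * u) * R v ^ p ^ j) ^ (M * k) -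
        R (g * u) ^ (M * k))) = 0
      have h3 : R (g * u) * R v ^ p ^ j = R (g * (u * v ^ p ^ j)) := by
        rw [← map_pow, ← map_mul, mul_assoc]
      have h4 : tr E ((R (g * u) * R v ^ p ^ j) ^ (M * k) - R (g * u) ^ (M * k)) = 0 := by
        rw [map_sub, h3, hone _ (U.mul_mem hu (U.pow_mem hv _)), hone u hu, sub_self]
      rw [LinearMap.map_smul_of_tower, h4, smul_zero]
    rw [h2] at h1
    have h3 : tr E (SM (R (g * u)) y (M * k)) = 0 := tendsto_nhds_unique h1 tendsto_const_nhds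
    rw [SM_eq (R_inv' R (g * u)), Finset.sum_mul, map_sum] at h3
    have h5 : ∀ i ∈ Finset.range (M * k), tr E (R (g * u) ^ (i + 1) * y * R (g * u)⁻¹ ^ (i + 1) *
        R (g * u) ^ (M * k)) = tr E (y * R (g * u) ^ (M * k)) := by
      intro i _
      have h6 : R (g * u)⁻¹ ^ (i + 1) * R (g * u) ^ (i + 1) = 1 := by
        rw [← map_pow, ← map_pow, inv_pow]
        exact R_inv' R _
      rw [mul_assoc, mul_assoc, tr_comm]
      have h7 : y * (R (g * u)⁻¹ ^ (i + 1) * R (g * u) ^ (M * k)) * R (g * u) ^ (i + 1) =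
          y * R (g * u) ^ (M * k) := by
        have h8 := pow_mul_comm (R (g * u)) (M * k) (i + 1)
        rw [mul_assoc, mul_assoc, h8, ← mul_assoc (R (g * u)⁻¹ ^ (i + 1)), h6, one_mul]
      rw [h7]
    rw [Finset.sum_congr rfl h5, Finset.sum_const, Finset.card_range, nsmul_eq_mul, mul_eq_zero] at h3
    exact h3.resolve_left (by exact_mod_cast hk.ne')
  | zero => rw [zero_mul, map_zero]
  | add a b _ _ h1 h2 => rw [add_mul, map_add, h1, h2, add_zero]
  | smul c a _ h1 => rw [smul_mul_assoc, map_smul, h1, smul_zero]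

/-- the radical of the trace form -/
def Rad {R : G →* A} {U : Subgroup G} (hn : U.Normal)
    (hlog : ∀ u ∈ U, ∃ x, IsLog p (R u) x) : LieSubalgebra K A where
  carrier := {x | x ∈ LL p K R U ∧ ∀ y ∈ LL p K R U, tr E (y * x) = 0}
  add_mem' := fun {a b} ha hb => ⟨add_mem ha.1 hb.1, fun y hy => by
    rw [mul_add, map_add, ha.2 y hy, hb.2 y hy, add_zero]⟩
  zero_mem' := ⟨zero_mem _, fun y _ => by rw [mul_zero, map_zero]⟩
  smul_mem' := fun c a ha => ⟨Submodule.smul_mem _ c ha.1, fun y hy => by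
    rw [mul_smul_comm, map_smul, ha.2 y hy, smul_zero]⟩
  lie_mem' := fun {x x'} hx hx' => by
    rw [LieRing.of_associative_ring_bracket]
    refine ⟨LL_brk hn hlog hx.1 hx'.1, fun y hy => ?_⟩
    have h1 : tr E (y * (x' * x)) = tr E (x * y * x') := by
      rw [← mul_assoc, tr_comm, ← mul_assoc]
    rw [mul_sub, map_sub, h1, ← mul_assoc, ← map_sub, ← sub_mul]
    exact hx'.2 _ (LL_brk hn hlog hy hx.1)

end

end Pool.Agent.U849.FO
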