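import Pool.Agent.U849.FO.Qu2

/-!
# Irreducible representations: quasi-unipotent cosets have finite order
-/

set_option autoImplicit false
set_option linter.unusedSectionVars false

namespace Pool.Agent.U849.FO

open Filter Topology Module
open Pool.Agent.U849.SS (MinSub Stb Cts exists_minSub sub quo)

attribute [local instance 100] LieRing.ofAssociativeRing

variable {p : ℕ} [hp : Fact p.Prime] {K : Type} [NontriviallyNormedField K] [CompleteSpace K]
  [NormedAlgebra ℚ_[p] K] [CharZero K]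
  {G : Type} [Group G]

include hp in
theorem qu_fin {A : Type} [NormedRing A] [NormedAlgebra K A] [NormedAlgebra ℚ_[p] A]
    [IsScalarTower ℚ_[p] K A] [FiniteDimensional K A] {V : Type} [NormedAddCommGroup V]
    [NormedSpace K V] [FiniteDimensional K V] (E : A ≃ₐ[K] End K V) [Nontrivial V]
    {ρ : G →* End K V} {R : G →* A} (hER : ∀ g, E (R g) = ρ g)
    (hirr : ∀ T : Submodule K V, (∀ g, ∀ v ∈ T, ρ g v ∈ T) → T = ⊥ ∨ T = ⊤)
    {U : Subgroup G} (hUn : U.Normal) (hfi : U.index ≠ 0)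
    (hsm : ∀ u ∈ U, ‖R u - 1‖ ≤ 1 / (8 * (p : ℝ) ^ 2))
    {g : G} {M N : ℕ} (hM : 0 < M) (hg : ∀ u ∈ U, (R (g * u) ^ M - 1) ^ N = 0) :
    ∀ u ∈ U, R (g * u) ^ (M * U.index) = 1 := by
  classical
  have hcomp : CompleteSpace A := FiniteDimensional.complete K A
  have hlog : ∀ u ∈ U, ∃ x, IsLog p (R u) x := fun u hu => by
    obtain ⟨x, Q, -, -, hx⟩ := log_exists' (hsm u hu)
    exact ⟨x, hx⟩
  set L := LL p K R U with hL
  let I := Rad E hUn hlog
  have hI : ∀ x, x ∈ I ↔ x ∈ L ∧ ∀ y ∈ L, tr E (y * x) = 0 := fun x => Iff.rfl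
  let f : I →ₗ⁅K⁆ End K V :=
    { toFun := fun y => E y.1
      map_add' := fun x y => by
        change E (x.1 + y.1) = _
        rw [map_add]
      map_smul' := fun c x => by
        change E (c • x.1) = _
        rw [map_smul]
        rfl
      map_lie' := fun {x y} => by
        change E (⁅x, y⁆ : I).1 = _
        rw [LieSubalgebra.coe_bracket, LieRing.of_associative_ring_bracket,
          LieRing.of_associative_ring_bracket, map_sub, map_mul, map_mul] }
  let i1 : LieRingModule I V := LieRingModule.compLieHom V f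
  have i2 : LieModule K I V := LieModule.compLieHom V f
  have htf : LieModule.traceForm K I V = 0 := by
    refine LinearMap.ext fun x => LinearMap.ext fun y => ?_
    change LinearMap.trace K V (E x.1 ∘ₗ E y.1) = 0
    have h1 := y.2.2 x.1 x.2.1
    change LinearMap.trace K V (E (x.1 * y.1)) = 0 at h1
    rw [map_mul E] at h1
    exact h1
  have hnil := LieModule.isNilpotent_derivedSeries_of_traceForm_eq_zero htf
  have hnt := LieModule.nontrivial_max_triv_of_isNilpotent K (LieAlgebra.derivedSeries K I 1) V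
  obtain ⟨⟨v₁, hv₁⟩, hv₁0⟩ := exists_ne (0 : LieModule.maxTrivSubmodule K (LieAlgebra.derivedSeries K I 1) V)
  have hv₁ne : v₁ ≠ 0 := fun h => hv₁0 (Subtype.ext h)
  rw [LieModule.mem_maxTrivSubmodule] at hv₁
  have hc1 : ∀ x ∈ I, ∀ x' ∈ I, E (x * x' - x' * x) v₁ = 0 := by
    intro x hx x' hx'
    have h1 : ⁅(⟨x, hx⟩ : I), (⟨x', hx'⟩ : I)⁆ ∈ LieAlgebra.derivedSeries K I 1 :=
      LieSubmodule.lie_mem_lie (LieSubmodule.mem_top _) (LieSubmodule.mem_top _)
    exact hv₁ ⟨_, h1⟩
  -- the radical is stable under conjugation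
  have hconj : ∀ h : G, ∀ x ∈ I, R h * x * R h⁻¹ ∈ I := by
    intro h x hx
    refine ⟨LL_conj hUn h hx.1, fun y hy => ?_⟩
    have h1 : tr E (y * (R h * x * R h⁻¹)) = tr E (R h⁻¹ * y * R h * x) := by
      rw [← mul_assoc, tr_comm]
      simp only [mul_assoc]
    rw [h1]
    have h2 := LL_conj (p := p) (K := K) hUn h⁻¹ hy
    rw [inv_inv] at h2
    exact hx.2 _ h2
  -- conjugation of a vector
  have hmove : ∀ (h : G) (z : A) (v : V), E z (ρ h v) = ρ h (E (R h⁻¹ * z * R h) v) := by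
    intro h z v
    rw [← hER h, ← toLin_mul E, ← toLin_mul E]
    congr 2
    rw [← mul_assoc, ← mul_assoc, R_inv, one_mul]
  have hconj' : ∀ h : G, ∀ x ∈ I, R h⁻¹ * x * R h ∈ I := by
    intro h x hx
    have h2 := hconj h⁻¹ x hx
    rwa [inv_inv] at h2
  let T₁ : Submodule K V :=
    { carrier := {v | ∀ x ∈ I, ∀ x' ∈ I, E (x * x' - x' * x) v = 0}
      add_mem' := fun {a b} ha hb x hx x' hx' => by rw [map_add, ha x hx x' hx', hb x hx x' hx', add_zero]
      zero_mem' := fun x _ x' _ => map_zero _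
      smul_mem' := fun c a ha x hx x' hx' => by rw [map_smul, ha x hx x' hx', smul_zero] }
  have hT₁ : T₁ = ⊤ := by
    rcases hirr T₁ (by
      intro h v hv x hx x' hx'
      rw [hmove]
      have h1 : R h⁻¹ * (x * x' - x' * x) * R h =
          (R h⁻¹ * x * R h) * (R h⁻¹ * x' * R h) - (R h⁻¹ * x' * R h) * (R h⁻¹ * x * R h) := by
        have h2 : ∀ a b : A, R h⁻¹ * a * R h * (R h⁻¹ * b * R h) = R h⁻¹ * (a * b) * R h := by
          intro a b
          simp only [mul_assoc]
          rw [← mul_assoc (R h) (R h⁻¹), R_inv, one_mul]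
        rw [h2, h2, mul_sub, sub_mul]
      rw [h1, hv _ (hconj' h x hx) _ (hconj' h x' hx'), map_zero]) with h1 | h1
    · exfalso
      have h2 : v₁ ∈ T₁ := hc1
      rw [h1, Submodule.mem_bot] at h2
      exact hv₁ne h2
    · exact h1
  have hcomm : ∀ x ∈ I, ∀ x' ∈ I, x * x' = x' * x := by
    intro x hx x' hx'
    rw [← sub_eq_zero]
    apply E.injective
    rw [map_zero]
    refine LinearMap.ext fun v => ?_
    have h1 : v ∈ T₁ := by rw [hT₁]; trivial
    exact h1 x hx x' hx'
  -- nilpotent elements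
  obtain ⟨v₂, -, hv₂, hv₂'⟩ := common_ker {z : End K V | ∃ x ∈ I, x ^ N = 0 ∧ z = E x} (by
      rintro _ ⟨x, hx, -, rfl⟩ _ ⟨x', hx', -, rfl⟩
      rw [← map_mul, ← map_mul, hcomm x hx x' hx']) (by
      rintro _ ⟨x, hx, hxN, rfl⟩
      exact ⟨N, by rw [← map_pow, hxN, map_zero]⟩) _ (⊤ : Submodule K V) rfl top_ne_bot
      (fun _ _ _ _ => trivial)
  let T₂ : Submodule K V :=
    { carrier := {v | ∀ x ∈ I, x ^ N = 0 → E x v = 0}
      add_mem' := fun {a b} ha hb x hx hN => by rw [map_add, ha x hx hN, hb x hx hN, add_zero]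
      zero_mem' := fun x _ _ => map_zero _
      smul_mem' := fun c a ha x hx hN => by rw [map_smul, ha x hx hN, smul_zero] }
  have hT₂ : T₂ = ⊤ := by
    rcases hirr T₂ (by
      intro h v hv x hx hN
      rw [hmove, hv _ (hconj' h x hx) (by
        rw [conj_pow (R_inv R h) (R_inv' R h), hN, mul_zero, zero_mul]), map_zero]) with h1 | h1
    · exfalso
      have h2 : v₂ ∈ T₂ := fun x hx hN => hv₂' _ ⟨x, hx, hN, rfl⟩
      rw [h1, Submodule.mem_bot] at h2
      exact hv₂ h2
    · exact h1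
  have hzero : ∀ x ∈ I, x ^ N = 0 → x = 0 := by
    intro x hx hN
    apply E.injective
    rw [map_zero]
    refine LinearMap.ext fun v => ?_
    have h1 : v ∈ T₂ := by rw [hT₂]; trivial
    exact h1 x hx hN
  -- the elements of the coset
  intro u hu
  have hw : (g * u) ^ (M * U.index) ∈ U := by
    rw [mul_comm, pow_mul]
    exact U.pow_mem (Subgroup.pow_index_mem U _) _
  obtain ⟨X, Q, -, hXQ, hX⟩ := log_exists' (hsm _ hw)
  have hc : Continuous (tr E) := LinearMap.continuous_of_finiteDimensional _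
  have hpow : ∀ j : ℕ, R ((g * u) ^ (M * U.index)) ^ p ^ j = R (g * u) ^ (M * (U.index * p ^ j)) := by
    intro j
    rw [map_pow, ← pow_mul, mul_assoc]
  have htr : ∀ y ∈ L, ∀ j : ℕ, tr E (y * R ((g * u) ^ (M * U.index)) ^ p ^ j) = 0 := by
    intro y hy j
    rw [hpow]
    exact tr_SM E hg hu (Nat.mul_pos hM (Nat.mul_pos (Nat.pos_of_ne_zero hfi)
      (pow_pos hp.out.pos j))) hy
  have htr1 : ∀ y ∈ L, tr E y = 0 := by
    intro y hy
    have h1 := (hc.tendsto _).comp (hX.tendsto_one.const_mul y)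
    rw [mul_one] at h1
    have h2 : (tr E) ∘ (fun j : ℕ => y * R ((g * u) ^ (M * U.index)) ^ p ^ j) = fun _ => (0 : K) := by
      funext j
      exact htr y hy j
    rw [h2] at h1
    exact tendsto_nhds_unique h1 tendsto_const_nhds
  have hXI : X ∈ I := by
    refine ⟨Submodule.subset_span ⟨_, hw, hX⟩, fun y hy => ?_⟩
    have h1 := (hc.tendsto _).comp (Tendsto.const_mul y hX)
    refine tendsto_nhds_unique h1 ?_
    have h2 : (tr E) ∘ (fun j : ℕ => y * ((p : ℚ_[p]) ^ j)⁻¹ •
        (R ((g * u) ^ (M * U.index)) ^ p ^ j - 1)) = fun _ => (0 : K) := by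
      funext j
      change tr E (y * ((p : ℚ_[p]) ^ j)⁻¹ • (R ((g * u) ^ (M * U.index)) ^ p ^ j - 1)) = 0
      rw [mul_smul_comm, LinearMap.map_smul_of_tower, mul_sub, mul_one, map_sub, htr y hy j,
        htr1 y hy, sub_zero, smul_zero]
    rw [h2]
    exact tendsto_const_nhds
  have hXN : X ^ N = 0 := hX.nil (by
    rw [map_pow, pow_mul]
    exact pow_sub_nil (hg u hu) _)
  have h0 := hzero X hXI hXN
  rw [h0, zero_mul, sub_eq_zero] at hXQ
  rw [← map_pow]
  exact hXQ

end Pool.Agent.U849.FO
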