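import Pool.Agent.U849.FO.Qu3

/-!
# A coset of quasi-unipotent elements: solvability
-/

set_option autoImplicit false
set_option linter.unusedSectionVars false

namespace Pool.Agent.U849.FO

open Filter Topology Module
open Pool.Agent.U849.SS (MinSub Stb Cts exists_minSub sub quo)

variable {p : ℕ} [hp : Fact p.Prime] {K : Type} [NontriviallyNormedField K] [CompleteSpace K]
  [NormedAlgebra ℚ_[p] K] [IsAlgClosed K] [CharZero K]
  {G : Type} [Group G] [TopologicalSpace G] [IsTopologicalGroup G] [CompactSpace G]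
  [TotallyDisconnectedSpace G]

include hp in
theorem irr_absq {A : Type} [NormedRing A] [NormedAlgebra K A] [NormedAlgebra ℚ_[p] A]
    [IsScalarTower ℚ_[p] K A] [FiniteDimensional K A] {V : Type} [NormedAddCommGroup V]
    [NormedSpace K V] [FiniteDimensional K V] (E : A ≃ₐ[K] End K V) [Nontrivial V]
    {ρ : G →* End K V} {R : G →* A} (hER : ∀ g, E (R g) = ρ g) (hRc : Continuous R)
    (hirr : ∀ T : Submodule K V, (∀ g, ∀ v ∈ T, ρ g v ∈ T) → T = ⊥ ∨ T = ⊤)
    {g : G} {U : Subgroup G} (hUo : IsOpen (U : Set G)) {M N : ℕ} (hM : 0 < M)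
    (hg : ∀ u ∈ U, ((ρ (g * u)) ^ M - 1) ^ N = 0) :
    ∃ U' : Subgroup G, U'.Normal ∧ IsOpen (U' : Set G) ∧ ∀ c ∈ ⁅U', U'⁆, ρ c = 1 := by
  classical
  set ε : ℝ := 1 / (8 * (p : ℝ) ^ 2) with hε
  have hε0 : 0 < ε := by
    have : (0 : ℝ) < p := by exact_mod_cast hp.out.pos
    positivity
  have hO1 : {u : G | ‖R u - 1‖ < ε} ∈ 𝓝 (1 : G) := by
    have h1 : Continuous fun u : G => ‖R u - 1‖ := (hRc.sub continuous_const).norm
    refine (isOpen_lt h1 continuous_const).mem_nhds ?_
    change ‖R 1 - 1‖ < ε
    rw [map_one, sub_self, norm_zero]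
    exact hε0
  have hO3 : {u : G | ‖R u - 1‖ < ε} ∩ (U : Set G) ∈ 𝓝 (1 : G) :=
    inter_mem hO1 (hUo.mem_nhds U.one_mem)
  obtain ⟨O, hOs, hOo, hO1'⟩ := mem_nhds_iff.1 hO3
  obtain ⟨N', hN'⟩ := ProfiniteGrp.exist_openNormalSubgroup_sub_open_nhds_of_one hOo hO1'
  set U₁ : Subgroup G := N'.toSubgroup with hU₁
  have hU₁n : U₁.Normal := N'.isNormal'
  have hU₁o : IsOpen (U₁ : Set G) := N'.isOpen'
  have hU₁s : ∀ u ∈ U₁, ‖R u - 1‖ < ε ∧ u ∈ U := fun u hu => hOs (hN' hu)
  have hfin : Finite (G ⧸ U₁) := Subgroup.quotient_finite_of_isOpen _ hU₁o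
  have hfi : U₁.FiniteIndex := Subgroup.finiteIndex_of_finite_quotient
  have h1 := qu_fin (p := p) E hER hirr hU₁n hfi.index_ne_zero (fun u hu => (hU₁s u hu).1.le)
    hM (N := N) (g := g) (by
      intro u hu
      apply E.injective
      rw [map_pow, map_sub, map_pow, hER, map_one, hg u (hU₁s u hu).2, map_zero])
  refine irr_abs (p := p) E hER hRc hirr hU₁o (M := M * U₁.index)
    (Nat.mul_pos hM (Nat.pos_of_ne_zero hfi.index_ne_zero)) (g := g) fun u hu => ?_
  rw [← hER, ← map_pow, h1 u hu, map_one]

section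
open scoped Matrix.Norms.Operator

include hp in
theorem irr_finq {n : ℕ} [Nontrivial (Fin n → K)] {ρ : G →* End K (Fin n → K)} (hρ : Cts ρ)
    (hirr : ∀ T : Submodule K (Fin n → K), (∀ g, ∀ v ∈ T, ρ g v ∈ T) → T = ⊥ ∨ T = ⊤)
    {g : G} {U : Subgroup G} (hUo : IsOpen (U : Set G)) {M N : ℕ} (hM : 0 < M)
    (hg : ∀ u ∈ U, ((ρ (g * u)) ^ M - 1) ^ N = 0) :
    ∃ U' : Subgroup G, U'.Normal ∧ IsOpen (U' : Set G) ∧ ∀ c ∈ ⁅U', U'⁆, ρ c = 1 := by
  let E : Matrix (Fin n) (Fin n) K ≃ₐ[K] End K (Fin n → K) := Matrix.toLinAlgEquiv'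
  exact irr_absq (p := p) (A := Matrix (Fin n) (Fin n) K) E (ρ := ρ)
    (R := (MonoidHomClass.toMonoidHom E.symm).comp ρ) (fun g => E.apply_symm_apply _)
    (cont_abs E hρ) hirr hUo hM hg

end

include hp in
theorem irr_genq {V : Type} [AddCommGroup V] [Module K V] [FiniteDimensional K V] [Nontrivial V]
    {ρ : G →* End K V} (hρ : Cts ρ)
    (hirr : ∀ T : Submodule K V, (∀ g, ∀ v ∈ T, ρ g v ∈ T) → T = ⊥ ∨ T = ⊤)
    {g : G} {U : Subgroup G} (hUo : IsOpen (U : Set G)) {M N : ℕ} (hM : 0 < M)
    (hg : ∀ u ∈ U, ((ρ (g * u)) ^ M - 1) ^ N = 0) :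
    ∃ U' : Subgroup G, U'.Normal ∧ IsOpen (U' : Set G) ∧ ∀ c ∈ ⁅U', U'⁆, ρ c = 1 := by
  set e : V ≃ₗ[K] (Fin (finrank K V) → K) := (Module.finBasis K V).equivFun with he
  let ρ' : G →* End K (Fin (finrank K V) → K) :=
    { toFun := fun g => e.toLinearMap ∘ₗ ρ g ∘ₗ e.symm.toLinearMap
      map_one' := by
        refine LinearMap.ext fun v => ?_
        rw [map_one]
        change e (e.symm v) = v
        rw [e.apply_symm_apply]
      map_mul' := fun a b => by
        refine LinearMap.ext fun v => ?_
        rw [map_mul]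
        change e (ρ a (ρ b (e.symm v))) = e (ρ a (e.symm (e (ρ b (e.symm v)))))
        rw [e.symm_apply_apply] }
  have hρ'a : ∀ g v, ρ' g v = e (ρ g (e.symm v)) := fun g v => rfl
  have hnt : Nontrivial (Fin (finrank K V) → K) := e.symm.toEquiv.nontrivial
  have hpow : ∀ (g : G) (k : ℕ) v, (ρ' g ^ k) v = e ((ρ g ^ k) (e.symm v)) := by
    intro g k
    induction k with
    | zero =>
      intro v
      change v = e (e.symm v)
      rw [e.apply_symm_apply]
    | succ k ih =>
      intro v
      rw [pow_succ', Module.End.mul_apply, ih, hρ'a, e.symm_apply_apply, pow_succ', Module.End.mul_apply]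
  have hpowN : ∀ (g : G) (k : ℕ) v, ((ρ' g ^ M - 1) ^ k) v = e (((ρ g ^ M - 1) ^ k) (e.symm v)) := by
    intro g k
    induction k with
    | zero =>
      intro v
      change v = e (e.symm v)
      rw [e.apply_symm_apply]
    | succ k ih =>
      intro v
      rw [pow_succ', Module.End.mul_apply, ih, LinearMap.sub_apply, hpow, e.symm_apply_apply,
        Module.End.one_apply, ← map_sub, pow_succ', Module.End.mul_apply, LinearMap.sub_apply,
        Module.End.one_apply]
  obtain ⟨U', hn, ho, hU'⟩ := irr_finq (p := p) (ρ := ρ') (fun φ v => hρ (φ ∘ₗ e.toLinearMap) (e.symm v)) (by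
      intro T hT
      rcases hirr (T.comap e.toLinearMap) (fun g v hv => by
          rw [Submodule.mem_comap] at hv ⊢
          have h1 := hT g (e v) hv
          rw [hρ'a, e.symm_apply_apply] at h1
          exact h1) with h1 | h1
      · left
        rw [eq_bot_iff]
        intro v hv
        have h2 : e.symm v ∈ T.comap e.toLinearMap := by
          rw [Submodule.mem_comap]
          change e (e.symm v) ∈ T
          rwa [e.apply_symm_apply]
        rw [h1, Submodule.mem_bot] at h2
        rw [Submodule.mem_bot, ← e.apply_symm_apply v, h2, map_zero]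
      · right
        rw [eq_top_iff]
        intro v _
        have h2 : e.symm v ∈ T.comap e.toLinearMap := by rw [h1]; trivial
        rw [Submodule.mem_comap] at h2
        change e (e.symm v) ∈ T at h2
        rwa [e.apply_symm_apply] at h2) hUo hM (fun u hu => by
      refine LinearMap.ext fun v => ?_
      rw [hpowN, hg u hu, LinearMap.zero_apply, map_zero]
      rfl)
  refine ⟨U', hn, ho, fun c hc => ?_⟩
  refine LinearMap.ext fun v => ?_
  have h1 := DFunLike.congr_fun (hU' c hc) (e v)
  rw [hρ'a, e.symm_apply_apply] at h1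
  exact e.injective h1

include hp in
/-- **solvability** -/
theorem main2q {g : G} {U : Subgroup G} (hUo : IsOpen (U : Set G)) {M N : ℕ} (hM : 0 < M) :
    ∀ (d : ℕ) (V : Type) [AddCommGroup V] [Module K V] [FiniteDimensional K V] (ρ : G →* End K V),
      finrank K V = d → Cts ρ → (∀ u ∈ U, ((ρ (g * u)) ^ M - 1) ^ N = 0) →
    ∃ U' : Subgroup G, U'.Normal ∧ IsOpen (U' : Set G) ∧ ∃ m, ∀ c ∈ dser U' m, ρ c = 1 := by
  classical
  intro d
  induction d using Nat.strong_induction_on with
  | _ d ih =>
    intro V _ _ _ ρ hd hρ hgood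
    rcases subsingleton_or_nontrivial V with hV | hV
    · refine ⟨⊤, inferInstance, isOpen_univ, 0, fun c _ => ?_⟩
      refine LinearMap.ext fun v => Subsingleton.elim _ _
    · -- a minimal stable subspace
      have hex : ∃ d : ℕ, ∃ T : Submodule K V, (∀ g, ∀ v ∈ T, ρ g v ∈ T) ∧ T ≠ ⊥ ∧ finrank K T = d :=
        ⟨_, ⊤, fun _ _ _ => trivial, top_ne_bot, rfl⟩
      obtain ⟨T, hT, hT0, hTd⟩ := Nat.find_spec hex
      have hTmin : ∀ T' : Submodule K V, (∀ g, ∀ v ∈ T', ρ g v ∈ T') → T' ≤ T → T' = ⊥ ∨ T' = T := by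
        intro T' hT' hle
        by_cases h0 : T' = ⊥
        · exact Or.inl h0
        · right
          have h1 : Nat.find hex ≤ finrank K T' := Nat.find_min' hex ⟨T', hT', h0, rfl⟩
          rw [← hTd] at h1
          exact Submodule.eq_of_le_of_finrank_le hle h1
      have hpow : ∀ (g : G) (k : ℕ) (w : T), ((sub ρ hT g ^ k) w : V) = (ρ g ^ k) w := by
        intro g k
        induction k with
        | zero => intro w; simp
        | succ k ih => intro w; rw [pow_succ', Module.End.mul_apply, pow_succ', Module.End.mul_apply, ← ih]; rfl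
      have hpowN : ∀ (g : G) (k : ℕ) (w : T), (((sub ρ hT g ^ M - 1) ^ k) w : V) =
          ((ρ g ^ M - 1) ^ k) w := by
        intro g k
        induction k with
        | zero => intro w; simp
        | succ k ih =>
          intro w
          rw [pow_succ', Module.End.mul_apply, pow_succ', Module.End.mul_apply, ← ih,
            LinearMap.sub_apply, LinearMap.sub_apply, Module.End.one_apply, Module.End.one_apply,
            Submodule.coe_sub, hpow]
      have hqpow : ∀ (g : G) (k : ℕ) (v : V), (quo ρ hT g ^ k) (T.mkQ v) = T.mkQ ((ρ g ^ k) v) := by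
        intro g k
        induction k with
        | zero => intro w; simp
        | succ k ih => intro w; rw [pow_succ', Module.End.mul_apply, pow_succ', Module.End.mul_apply, ih]; rfl
      have hqpowN : ∀ (g : G) (k : ℕ) (v : V), ((quo ρ hT g ^ M - 1) ^ k) (T.mkQ v) =
          T.mkQ (((ρ g ^ M - 1) ^ k) v) := by
        intro g k
        induction k with
        | zero => intro w; simp
        | succ k ih =>
          intro w
          rw [pow_succ', Module.End.mul_apply, pow_succ', Module.End.mul_apply, ih,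
            LinearMap.sub_apply, LinearMap.sub_apply, Module.End.one_apply, Module.End.one_apply,
            map_sub, hqpow]
      have hnt : Nontrivial T := Submodule.nontrivial_iff_ne_bot.2 hT0
      -- the subspace
      obtain ⟨U₁, hU₁n, hU₁o, hU₁⟩ := irr_genq (p := p) (V := T) (ρ := sub ρ hT) (by
          intro φ v
          obtain ⟨ψ, hψ⟩ := LinearMap.exists_extend φ
          have h1 : (fun g => φ (sub ρ hT g v)) = fun g => ψ (ρ g v) := by
            funext g
            rw [← hψ]
            rfl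
          rw [h1]
          exact hρ ψ v) (by
          intro S hS
          rcases hTmin (S.map T.subtype) (by
            rintro g _ ⟨w, hw, rfl⟩
            exact ⟨sub ρ hT g w, hS g w hw, rfl⟩) (by rintro _ ⟨w, -, rfl⟩; exact w.2) with h1 | h1
          · left
            rw [eq_bot_iff]
            intro w hw
            have h2 : (w : V) ∈ S.map T.subtype := ⟨w, hw, rfl⟩
            rw [h1] at h2
            exact Subtype.ext ((Submodule.mem_bot K).1 h2)
          · right
            rw [eq_top_iff]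
            rintro w -
            have h2 : (w : V) ∈ S.map T.subtype := by rw [h1]; exact w.2
            obtain ⟨w', hw', hww⟩ := h2
            have h3 : w' = w := Subtype.ext hww
            rw [← h3]
            exact hw') hUo hM (by
          intro u hu
          refine LinearMap.ext fun w => Subtype.ext ?_
          rw [hpowN, hgood u hu]
          rfl)
      -- the quotient
      have hlt : finrank K (V ⧸ T) < d := by
        have h1 := Submodule.finrank_quotient_add_finrank T
        have h2 : 0 < finrank K T := Module.finrank_pos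
        omega
      obtain ⟨U₂, hU₂n, hU₂o, m, hU₂⟩ := ih _ hlt (V ⧸ T) (quo ρ hT) rfl (by
          intro φ v
          obtain ⟨v, rfl⟩ := T.mkQ_surjective v
          exact hρ (φ ∘ₗ T.mkQ) v) (by
          intro u hu
          refine LinearMap.ext fun v => ?_
          obtain ⟨v, rfl⟩ := T.mkQ_surjective v
          rw [hqpowN, hgood u hu]
          rfl)
      refine ⟨U₁ ⊓ U₂, inferInstance, ?_, (m + 1) + 1, ?_⟩
      · rw [Subgroup.coe_inf]
        exact hU₁o.inter hU₂o
      · -- elements of the derived series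
        have hT1 : ∀ c ∈ dser (U₁ ⊓ U₂) (m + 1), ∀ v ∈ T, ρ c v = v := by
          intro c hc v hv
          have h1 : c ∈ dser U₁ 1 := dser_anti U₁ (by omega) (dser_mono inf_le_left _ hc)
          have h2 := hU₁ c h1
          exact congrArg Subtype.val (DFunLike.congr_fun h2 ⟨v, hv⟩)
        have hQ1 : ∀ c ∈ dser (U₁ ⊓ U₂) (m + 1), ∀ v, ρ c v - v ∈ T := by
          intro c hc v
          have h1 : c ∈ dser U₂ m := dser_anti U₂ (Nat.le_succ m) (dser_mono inf_le_right _ hc)
          have h2 := DFunLike.congr_fun (hU₂ c h1) (T.mkQ v)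
          have h3 : T.mkQ (ρ c v) = T.mkQ v := h2
          rw [← Submodule.ker_mkQ T, LinearMap.mem_ker, map_sub, h3, sub_self]
        have hle : dser (U₁ ⊓ U₂) (m + 1 + 1) ≤ ρ.ker := by
          change ⁅dser (U₁ ⊓ U₂) (m + 1), dser (U₁ ⊓ U₂) (m + 1)⁆ ≤ ρ.ker
          rw [Subgroup.commutator_le]
          intro a ha b hb
          rw [MonoidHom.mem_ker]
          have h1 : ρ (a * b) = ρ (b * a) := by
            refine LinearMap.ext fun v => ?_
            have h2 : ρ a v = v + (ρ a v - v) := by abel
            have h3 : ρ b v = v + (ρ b v - v) := by abel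
            rw [map_mul, map_mul, Module.End.mul_apply, Module.End.mul_apply]
            conv_lhs => rw [h3, map_add, hT1 a ha _ (hQ1 b hb v)]
            conv_rhs => rw [h2, map_add, hT1 b hb _ (hQ1 a ha v)]
            abel
          change ρ (a * b * a⁻¹ * b⁻¹) = 1
          have h4 : a * b * a⁻¹ * b⁻¹ = (a * b) * (b * a)⁻¹ := by group
          rw [h4, map_mul, h1, ← map_mul, mul_inv_cancel, map_one]
        intro c hc
        exact MonoidHom.mem_ker.1 (hle hc)

end Pool.Agent.U849.FO
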