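import Pool.Agent.U849.FO.Qu4

/-!
# Frobenius elements with eigenvalues of finite order
-/

set_option autoImplicit false
set_option linter.unusedSectionVars false

namespace Pool.Agent.U849.FO

open Filter Topology Module MeasureTheory MeasureTheory.Measure
open scoped ENNReal
open Pool.Agent.U849.SS (Cts)

section tors

variable {p : ℕ} [hp : Fact p.Prime] {K : Type} [NontriviallyNormedField K] [CompleteSpace K]
  [NormedAlgebra ℚ_[p] K] [IsAlgClosed K] [CharZero K]
  {G : Type} [Group G] [TopologicalSpace G] [IsTopologicalGroup G] [CompactSpace G]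
  [TotallyDisconnectedSpace G]

include hp in
/-- quasi-unipotent elements have bounded order modulo unipotent elements -/
theorem torsq_abs {A : Type} [NormedRing A] [NormedAlgebra ℚ_[p] A] [CompleteSpace A]
    {R : G →* A} (hRc : Continuous R) :
    ∃ M : ℕ, 0 < M ∧ ∀ g, ∀ k N : ℕ, 0 < k → (R g ^ k - 1) ^ N = 0 → (R g ^ M - 1) ^ N = 0 := by
  set ε : ℝ := 1 / (8 * (p : ℝ) ^ 2) with hε
  have hε0 : 0 < ε := by
    have : (0 : ℝ) < p := by exact_mod_cast hp.out.pos
    positivity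
  have hO1 : {u : G | ‖R u - 1‖ < ε} ∈ 𝓝 (1 : G) := by
    have h1 : Continuous fun u : G => ‖R u - 1‖ := (hRc.sub continuous_const).norm
    refine (isOpen_lt h1 continuous_const).mem_nhds ?_
    change ‖R 1 - 1‖ < ε
    rw [map_one, sub_self, norm_zero]
    exact hε0
  obtain ⟨O, hOs, hOo, hO1'⟩ := mem_nhds_iff.1 hO1
  obtain ⟨N, hN⟩ := ProfiniteGrp.exist_openNormalSubgroup_sub_open_nhds_of_one hOo hO1'
  have hfin : Finite (G ⧸ N.toSubgroup) := Subgroup.quotient_finite_of_isOpen _ N.isOpen'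
  have hfi : N.toSubgroup.FiniteIndex := Subgroup.finiteIndex_of_finite_quotient
  have hn : N.toSubgroup.Normal := N.isNormal'
  refine ⟨N.toSubgroup.index, Nat.pos_of_ne_zero hfi.index_ne_zero, fun g k m hk hgk => ?_⟩
  have h1 : g ^ N.toSubgroup.index ∈ N.toSubgroup := Subgroup.pow_index_mem _ g
  have h2 : ‖R (g ^ N.toSubgroup.index) - 1‖ < ε := hOs (hN h1)
  rw [map_pow] at h2
  refine nil_of_pow (p := p) h2.le hk ?_
  rw [← pow_mul, mul_comm, pow_mul]
  exact pow_sub_nil hgk _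

end tors

section

open scoped Matrix.Norms.Operator

theorem torsq {p : ℕ} [hp : Fact p.Prime] {n : ℕ}
    {G : Type} [Group G] [TopologicalSpace G] [IsTopologicalGroup G] [CompactSpace G]
    [TotallyDisconnectedSpace G] {R : G →* Matrix (Fin n) (Fin n) ℚ_[p]} (hR : Continuous R) :
    ∃ M : ℕ, 0 < M ∧ ∀ g, ∀ k N : ℕ, 0 < k → (R g ^ k - 1) ^ N = 0 → (R g ^ M - 1) ^ N = 0 := by
  have aux : ∀ {A : Type} [NormedRing A] [NormedAlgebra ℚ_[p] A] [FiniteDimensional ℚ_[p] A]
      {R : G →* A}, Continuous R →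
      ∃ M : ℕ, 0 < M ∧ ∀ g, ∀ k N : ℕ, 0 < k → (R g ^ k - 1) ^ N = 0 → (R g ^ M - 1) ^ N = 0 := by
    intro A _ _ _ R hR
    have hc : CompleteSpace A := FiniteDimensional.complete ℚ_[p] A
    exact torsq_abs (p := p) hR
  exact aux hR

end

theorem nil_pow {F : Type} [Field F] {n : ℕ} {A : Matrix (Fin n) (Fin n) F} (h : IsNilpotent A) :
    A ^ n = 0 := by
  have h1 : IsNilpotent (Matrix.toLin' A) := by
    obtain ⟨k, hk⟩ := h
    exact ⟨k, by rw [← Matrix.toLin'_pow, hk, map_zero]⟩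
  have h2 := (LinearMap.isNilpotent_iff_charpoly _).1 h1
  have h3 := LinearMap.aeval_self_charpoly (Matrix.toLin' A)
  rw [h2, map_pow, Polynomial.aeval_X, Module.finrank_fin_fun, ← Matrix.toLin'_pow] at h3
  exact (Matrix.toLin' (R := F)).injective (by rw [h3, map_zero])

open NumberField IsDedekindDomain Pool.Agent.W401.Cheb Pool.Agent.R401.Sup
open Pool.Agent.W569.FM Pool.Agent.R401.Img Pool.Agent.R401.Eng Pool.Agent.R401.Sup2
open Pool.Agent.R401.Sup3 Pool.Agent.R401.Sup4

variable {K : Type} [Field K] [NumberField K] {n : ℕ} {p : ℕ} [hp : Fact p.Prime]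

/-- **Galois representations with many quasi-unipotent Frobenius elements** -/
theorem one_repq (ρ : GK K →* GL (Fin n) ℚ_[p]) (hρ : Continuous ρ) (θ : ℝ) (hθ : θ < 1)
    (hdens : ∃ᶠ N : ℕ in atTop, dens (fun v : HeightOneSpectrum (𝓞 K) =>
      ∃ g, IsFrob v g ∧ ∀ k : ℕ, 0 < k → ¬ IsNilpotent (mt ρ g ^ k - 1)) N ≤ θ) :
    ∃ U : Subgroup (GK K), U.Normal ∧ IsOpen (U : Set (GK K)) ∧ ∃ m, ∀ c ∈ dser U m, ρ c = 1 := by
  classical
  -- the representation over the completed algebraic closure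
  let F := ℂ_[p]
  have hcm : Continuous (mt ρ) := continuous_mt ρ hρ
  let φ : Matrix (Fin n) (Fin n) ℚ_[p] →+* End F (Fin n → F) :=
    ((Matrix.toLinAlgEquiv' : Matrix (Fin n) (Fin n) F ≃ₐ[F] End F (Fin n → F)) : _ →+* _).comp
      (algebraMap ℚ_[p] F).mapMatrix
  have hφ : Function.Injective φ := by
    intro a b hab
    have h1 : (algebraMap ℚ_[p] F).mapMatrix a = (algebraMap ℚ_[p] F).mapMatrix b :=
      (Matrix.toLinAlgEquiv' : Matrix (Fin n) (Fin n) F ≃ₐ[F] End F (Fin n → F)).injective hab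
    exact Matrix.map_injective (algebraMap ℚ_[p] F).injective h1
  let R : GK K →* Matrix (Fin n) (Fin n) ℚ_[p] := (Units.coeHom _).comp ρ
  have hR : ∀ g, R g = mt ρ g := fun g => rfl
  have hRc : Continuous R := hcm
  let ρF : GK K →* End F (Fin n → F) := φ.toMonoidHom.comp R
  have hρF' : ∀ g, ρF g = φ (R g) := fun g => rfl
  have hρF : ∀ g, ρF g = Matrix.toLin' ((mt ρ g).map (algebraMap ℚ_[p] F)) := fun g => rfl
  have hcts : Cts ρF := by
    intro φ v
    have h1 : (fun g => φ (ρF g v)) = fun g => ∑ i, (∑ j, algebraMap ℚ_[p] F (mt ρ g i j) * v j) *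
        φ (fun j => if i = j then 1 else 0) := by
      funext g
      rw [LinearMap.pi_apply_eq_sum_univ φ, hρF, Matrix.toLin'_apply]
      rfl
    rw [h1]
    have h3 : ∀ i j, Continuous fun g => algebraMap ℚ_[p] F (mt ρ g i j) := fun i j =>
      (continuous_algebraMap ℚ_[p] F).comp (hcm.matrix_elem i j)
    have h4 : ∀ i, Continuous fun g => ∑ j, algebraMap ℚ_[p] F (mt ρ g i j) * v j := fun i =>
      continuous_finsetSum _ fun j _ => (h3 i j).mul continuous_const
    exact continuous_finsetSum _ fun i _ => (h4 i).mul continuous_const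
  have hrel : ∀ (g : GK K) (M N : ℕ), (ρF g ^ M - 1) ^ N = φ ((R g ^ M - 1) ^ N) := by
    intro g M N
    rw [map_pow, map_sub, map_pow, map_one, hρF']
  obtain ⟨M, hM, htors⟩ := torsq (p := p) hRc
  set Good : Set (GK K) := {g | (R g ^ M - 1) ^ n = 0} with hGood
  have hcl : IsClosed Good := isClosed_singleton.preimage
    (f := fun g => (R g ^ M - 1) ^ n) (((hRc.pow M).sub continuous_const).pow n)
  have hconj : ∀ g ∈ Good, ∀ x : GK K, x * g * x⁻¹ ∈ Good := by
    intro g hg x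
    have hg' : (R g ^ M - 1) ^ n = 0 := hg
    change (R (x * g * x⁻¹) ^ M - 1) ^ n = 0
    have hx1 : R x⁻¹ * R x = 1 := by rw [← map_mul, inv_mul_cancel, map_one]
    have hx2 : R x * R x⁻¹ = 1 := by rw [← map_mul, mul_inv_cancel, map_one]
    have hcp : ∀ (a : Matrix (Fin n) (Fin n) ℚ_[p]) (k : ℕ), (R x * a * R x⁻¹) ^ k = R x * a ^ k * R x⁻¹ := by
      intro a k
      induction k with
      | zero => rw [pow_zero, pow_zero, mul_one, hx2]
      | succ k ih =>
        rw [pow_succ, ih, pow_succ]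
        simp only [mul_assoc]
        rw [← mul_assoc (R x⁻¹) (R x), hx1, one_mul]
    rw [map_mul, map_mul, hcp]
    have h1 : R x * R g ^ M * R x⁻¹ - 1 = R x * (R g ^ M - 1) * R x⁻¹ := by
      rw [mul_sub, sub_mul, mul_one, hx2]
    rw [h1, hcp, hg', mul_zero, zero_mul]
  have hfreq : ∃ᶠ N : ℕ in atTop,
      dens (fun v : HeightOneSpectrum (𝓞 K) => ∃ g, IsFrob v g ∧ g ∉ Good) N ≤ θ := by
    refine hdens.mono fun N hN => le_trans (dens_le ?_ N) hN
    rintro v ⟨g, hg, hgG⟩
    refine ⟨g, hg, fun k hk hgk => hgG ?_⟩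
    exact htors g k n hk (nil_pow hgk)
  -- the measure
  let _m : MeasurableSpace (GK K) := borel _
  have _b : BorelSpace (GK K) := ⟨rfl⟩
  let K₀ : TopologicalSpace.PositiveCompacts (GK K) := ⊤
  let μ : Measure (GK K) := haarMeasure K₀
  have hμ1 : IsProbabilityMeasure μ := ⟨by
    have h1 := haarMeasure_self (K₀ := K₀)
    exact h1⟩
  have hμX : ENNReal.ofReal (1 - θ) ≤ μ Good := by
    refine Pool.Agent.U849.SS.measure_ge μ hcl fun W hW A hA => ?_
    have h1 := engine Good hcl hconj hfreq (fun _ : Fin 1 => 1) W hW A (by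
      intro g hg
      have h2 := hg 0
      rw [mul_one] at h2
      exact hA g h2)
    simpa using h1
  have hμ0 : μ Good ≠ 0 := by
    intro h0
    rw [h0, nonpos_iff_eq_zero, ENNReal.ofReal_eq_zero] at hμX
    linarith
  obtain ⟨U, g, hUn, hUo, -, hg, hgU⟩ := Pool.Agent.U849.SS.coset_good (ρ := ρF) μ hcl hμ0 ⊤ isOpen_univ
    (M := M) (N := n) (fun x hx => by
      have hx' : (R x ^ M - 1) ^ n = 0 := hx
      rw [hrel, hx', map_zero])
  obtain ⟨U', hn', ho', m, hm⟩ := main2q (p := p) (g := g) hUo (N := n) hM n (Fin n → F) ρF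
    (Module.finrank_fin_fun F) hcts (fun u hu => hgU (g * u) (by rwa [inv_mul_cancel_left]))
  refine ⟨U', hn', ho', m, fun c hc => ?_⟩
  have h1 : φ (R c) = φ 1 := by
    rw [map_one]
    exact hm c hc
  exact Units.ext (hφ h1)

end Pool.Agent.U849.FO
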