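import Pool.Agent.U849.FO.Qu5

/-!
# Frobenius elements with eigenvalue ratios of finite order
-/

set_option autoImplicit false
set_option linter.unusedSectionVars false

namespace Pool.Agent.U849.FO

open Filter Topology Module Matrix
open scoped Kronecker

section kap

variable {F : Type} [Field F] {n : ℕ}

/-- the adjoint representation -/
noncomputable def kap (F : Type) [Field F] (n : ℕ) :
    GL (Fin n) F →* Matrix (Fin n × Fin n) (Fin n × Fin n) F where
  toFun A := (A : Matrix (Fin n) (Fin n) F) ⊗ₖ ((A⁻¹ : GL (Fin n) F) : Matrix (Fin n) (Fin n) F)ᵀ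
  map_one' := by simp
  map_mul' A B := by
    rw [_root_.mul_inv_rev, Units.val_mul, Units.val_mul, Matrix.transpose_mul, Matrix.mul_kronecker_mul]

theorem kron_pow (X Y : Matrix (Fin n) (Fin n) F) (N : ℕ) : (X ⊗ₖ Y) ^ N = (X ^ N) ⊗ₖ (Y ^ N) := by
  induction N with
  | zero => simp
  | succ N ih => rw [pow_succ, ih, pow_succ, pow_succ, Matrix.mul_kronecker_mul]

theorem nil_scalar {A : GL (Fin n) F} {k : ℕ} {c : F}
    (h : IsNilpotent ((A : Matrix (Fin n) (Fin n) F) ^ k - c • (1 : Matrix (Fin n) (Fin n) F))) :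
    IsNilpotent (kap F n A ^ k - 1) := by
  classical
  rcases subsingleton_or_nontrivial (Matrix (Fin n) (Fin n) F) with hs | hs
  · have hs' : Subsingleton (Matrix (Fin n × Fin n) (Fin n × Fin n) F) := by
      refine ⟨fun X Y => ?_⟩
      ext ⟨i, j⟩ ⟨i', j'⟩
      exfalso
      have h1 := congrFun (congrFun (hs.elim (1 : Matrix (Fin n) (Fin n) F) 0) i) i
      simp at h1
    exact ⟨1, Subsingleton.elim _ _⟩
  · set a : Matrix (Fin n) (Fin n) F := ((A ^ k : GL (Fin n) F) : Matrix (Fin n) (Fin n) F) with ha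
    set a' : Matrix (Fin n) (Fin n) F := (((A ^ k)⁻¹ : GL (Fin n) F) : Matrix (Fin n) (Fin n) F) with ha'
    have haa : a * a' = 1 := Units.mul_inv _
    have haa' : a' * a = 1 := Units.inv_mul _
    have hak : (A : Matrix (Fin n) (Fin n) F) ^ k = a := by rw [ha, Units.val_pow_eq_pow_val]
    rw [hak] at h
    have hc : c ≠ 0 := by
      intro h0
      rw [h0, zero_smul, sub_zero] at h
      obtain ⟨N, hN⟩ := h
      have hu : IsUnit (a ^ N) := (IsUnit.of_mul_eq_one a' haa).pow N
      rw [hN] at hu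
      exact not_isUnit_zero hu
    have h1 : IsNilpotent (a' - c⁻¹ • (1 : Matrix (Fin n) (Fin n) F)) := by
      have h2 : a' - c⁻¹ • (1 : Matrix (Fin n) (Fin n) F) = (-c⁻¹) • (a' * (a - c • (1 : Matrix (Fin n) (Fin n) F))) := by
        rw [mul_sub, haa', mul_smul_comm, mul_one, smul_sub, smul_smul, neg_mul, inv_mul_cancel₀ hc,
          neg_smul, neg_smul, one_smul]
        abel
      rw [h2]
      have hcm : Commute a' (a - c • (1 : Matrix (Fin n) (Fin n) F)) := by
        refine Commute.sub_right ?_ ((Commute.one_right a').smul_right c)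
        change a' * a = a * a'
        rw [haa, haa']
      exact (hcm.isNilpotent_mul_left h).smul _
    have h3 : IsNilpotent (a'ᵀ - c⁻¹ • (1 : Matrix (Fin n) (Fin n) F)) := by
      obtain ⟨N, hN⟩ := h1
      refine ⟨N, ?_⟩
      have h4 : a'ᵀ - c⁻¹ • (1 : Matrix (Fin n) (Fin n) F) = (a' - c⁻¹ • (1 : Matrix (Fin n) (Fin n) F))ᵀ := by
        rw [Matrix.transpose_sub, Matrix.transpose_smul, Matrix.transpose_one]
      rw [h4, ← Matrix.transpose_pow, hN, Matrix.transpose_zero]
    rw [← map_pow]
    have h5 : kap F n (A ^ k) - 1 = (a - c • (1 : Matrix (Fin n) (Fin n) F)) ⊗ₖ a'ᵀ +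
        (c • (1 : Matrix (Fin n) (Fin n) F)) ⊗ₖ (a'ᵀ - c⁻¹ • (1 : Matrix (Fin n) (Fin n) F)) := by
      change a ⊗ₖ a'ᵀ - 1 = _
      ext ⟨i, j⟩ ⟨i', j'⟩
      simp only [Matrix.sub_apply, Matrix.add_apply, Matrix.kroneckerMap_apply, Matrix.smul_apply,
        smul_eq_mul, Matrix.one_apply, Prod.mk.injEq]
      have hcc := mul_inv_cancel₀ hc
      by_cases h6 : i = i' <;> by_cases h7 : j = j'
      · simp only [h6, h7, and_self, if_true]
        linear_combination hcc
      · simp only [h6, h7, and_false, if_true, if_false]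
        ring
      · simp only [h6, h7, false_and, if_true, if_false]
        ring
      · simp only [h6, h7, and_self, if_false]
        ring
    rw [h5]
    refine Commute.isNilpotent_add ?_ ?_ ?_
    · change _ * _ = _ * _
      rw [← Matrix.mul_kronecker_mul, ← Matrix.mul_kronecker_mul]
      congr 1
      · rw [mul_smul_comm, smul_mul_assoc, mul_one, one_mul]
      · rw [mul_sub, sub_mul, mul_smul_comm, smul_mul_assoc, mul_one, one_mul]
    · obtain ⟨N, hN⟩ := h
      exact ⟨N, by rw [kron_pow, hN, Matrix.zero_kronecker]⟩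
    · obtain ⟨N, hN⟩ := h3
      exact ⟨N, by rw [kron_pow, hN, Matrix.kronecker_zero]⟩

theorem kap_one {A : GL (Fin n) F} (h : kap F n A = 1) (X : Matrix (Fin n) (Fin n) F) :
    (A : Matrix (Fin n) (Fin n) F) * X = X * A := by
  have h1 : (A : Matrix (Fin n) (Fin n) F) * X * ((A⁻¹ : GL (Fin n) F) : Matrix (Fin n) (Fin n) F) = X := by
    ext i k
    rw [Matrix.mul_apply]
    simp only [Matrix.mul_apply, Finset.sum_mul]
    have h2 : ∀ j l : Fin n, (A : Matrix (Fin n) (Fin n) F) i l * X l j *
        ((A⁻¹ : GL (Fin n) F) : Matrix (Fin n) (Fin n) F) j k =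
        X l j * (if i = l ∧ k = j then 1 else 0) := by
      intro j l
      have h3 := congrFun (congrFun h (i, k)) (l, j)
      change (A : Matrix (Fin n) (Fin n) F) i l * ((A⁻¹ : GL (Fin n) F) : Matrix (Fin n) (Fin n) F) j k = _ at h3
      rw [Matrix.one_apply] at h3
      simp only [Prod.mk.injEq] at h3
      rw [← h3]
      ring
    rw [Finset.sum_congr rfl fun j _ => Finset.sum_congr rfl fun l _ => h2 j l]
    rw [Finset.sum_eq_single k, Finset.sum_eq_single i]
    · simp
    · intro l _ hl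
      simp [hl.symm]
    · simp
    · intro j _ hj
      refine Finset.sum_eq_zero fun l _ => ?_
      simp [hj.symm]
    · simp
  conv_rhs => rw [← h1]
  rw [mul_assoc _ _ (A : Matrix (Fin n) (Fin n) F), Units.inv_mul, mul_one]

end kap

end Pool.Agent.U849.FO
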