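import Pool.Agent.U849.FO.Qu6

/-!
# Galois representations with many Frobenius elements with eigenvalue ratios of finite order
-/

set_option autoImplicit false
set_option linter.unusedSectionVars false

namespace Pool.Agent.U849.FO

open Filter Topology Module
open NumberField IsDedekindDomain Pool.Agent.W401.Cheb Pool.Agent.R401.Sup
open Pool.Agent.W569.FM Pool.Agent.R401.Img Pool.Agent.R401.Eng Pool.Agent.R401.Sup2
open Pool.Agent.R401.Sup3 Pool.Agent.R401.Sup4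

variable {K : Type} [Field K] [NumberField K] {n : ℕ} {p : ℕ} [hp : Fact p.Prime]

/-- the matrix of the adjoint representation -/
noncomputable def adm {G : Type} [Group G] {n : ℕ} (F : Type) [Field F] (ρ : G →* GL (Fin n) F) :
    G →* Matrix (Fin (n * n)) (Fin (n * n)) F :=
  (((Matrix.reindexAlgEquiv F F (finProdFinEquiv : Fin n × Fin n ≃ Fin (n * n))) :
    Matrix (Fin n × Fin n) (Fin n × Fin n) F ≃ₐ[F] Matrix (Fin (n * n)) (Fin (n * n)) F) :
    Matrix (Fin n × Fin n) (Fin n × Fin n) F →* Matrix (Fin (n * n)) (Fin (n * n)) F).comp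
    ((kap F n).comp ρ)

theorem adm_apply {G : Type} [Group G] {n : ℕ} {F : Type} [Field F] (ρ : G →* GL (Fin n) F) (g : G) :
    adm F ρ g = Matrix.reindexAlgEquiv F F (finProdFinEquiv : Fin n × Fin n ≃ Fin (n * n))
      (kap F n (ρ g)) := rfl

theorem adm_cont {G : Type} [Group G] [TopologicalSpace G] [IsTopologicalGroup G] {n : ℕ} {F : Type}
    [Field F] [TopologicalSpace F] [IsTopologicalRing F] {ρ : G →* GL (Fin n) F} (hρ : Continuous ρ) :
    Continuous (adm F ρ) := by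
  have h1 : Continuous fun g => ((ρ g : GL (Fin n) F) : Matrix (Fin n) (Fin n) F) :=
    Units.continuous_val.comp hρ
  have h2 : Continuous fun g => (((ρ g)⁻¹ : GL (Fin n) F) : Matrix (Fin n) (Fin n) F) :=
    Units.continuous_val.comp hρ.inv
  refine continuous_matrix fun i j => ?_
  exact (h1.matrix_elem _ _).mul (h2.matrix_elem _ _)

/-- **Galois representations with many Frobenius elements with eigenvalue ratios of finite order** -/
theorem one_repr (ρ : GK K →* GL (Fin n) ℚ_[p]) (hρ : Continuous ρ) (θ : ℝ) (hθ : θ < 1)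
    (hdens : ∃ᶠ N : ℕ in atTop, dens (fun v : HeightOneSpectrum (𝓞 K) =>
      ∃ g, IsFrob v g ∧ ∀ k : ℕ, 0 < k → ∀ c : ℚ_[p],
        ¬ IsNilpotent (((ρ g : GL (Fin n) ℚ_[p]) : Matrix (Fin n) (Fin n) ℚ_[p]) ^ k -
          c • (1 : Matrix (Fin n) (Fin n) ℚ_[p]))) N ≤ θ) :
    ∃ U : Subgroup (GK K), U.Normal ∧ IsOpen (U : Set (GK K)) ∧ ∃ m, ∀ c ∈ dser U m, ρ c = 1 := by
  let ρ' : GK K →* GL (Fin (n * n)) ℚ_[p] := (adm ℚ_[p] ρ).toHomUnits
  have hρ' : ∀ g, ((ρ' g : GL (Fin (n * n)) ℚ_[p]) : Matrix (Fin (n * n)) (Fin (n * n)) ℚ_[p]) =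
      adm ℚ_[p] ρ g := fun g => rfl
  have hc : Continuous ρ' := by
    rw [Units.continuous_iff]
    refine ⟨adm_cont hρ, ?_⟩
    have h1 : (fun x => (((ρ' x)⁻¹ : GL (Fin (n * n)) ℚ_[p]) : Matrix (Fin (n * n)) (Fin (n * n)) ℚ_[p])) =
        fun x => adm ℚ_[p] ρ x⁻¹ := by
      funext x
      rw [← map_inv, hρ']
    rw [h1]
    exact (adm_cont hρ).comp continuous_inv
  obtain ⟨U, hn, ho, m, hm⟩ := one_repq ρ' hc θ hθ (hdens.mono fun N hN => le_trans (dens_le (by
    rintro v ⟨g, hg, hk⟩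
    refine ⟨g, hg, fun k hk0 c hnil => hk k hk0 ?_⟩
    have h1 := nil_scalar hnil
    have h2 : mt ρ' g ^ k - 1 = Matrix.reindexAlgEquiv ℚ_[p] ℚ_[p]
        (finProdFinEquiv : Fin n × Fin n ≃ Fin (n * n)) (kap ℚ_[p] n (ρ g) ^ k - 1) := by
      rw [map_sub, map_pow, map_one]
      rfl
    rw [h2]
    exact h1.map _) N) hN)
  refine ⟨U, hn, ho, m + 1, ?_⟩
  have hkap : ∀ c ∈ dser U m, kap ℚ_[p] n (ρ c) = 1 := by
    intro c hc
    have h1 := congrArg (fun A : GL (Fin (n * n)) ℚ_[p] =>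
      (A : Matrix (Fin (n * n)) (Fin (n * n)) ℚ_[p])) (hm c hc)
    have h2 : Matrix.reindexAlgEquiv ℚ_[p] ℚ_[p] (finProdFinEquiv : Fin n × Fin n ≃ Fin (n * n))
        (kap ℚ_[p] n (ρ c)) = 1 := h1
    rw [← map_one (Matrix.reindexAlgEquiv ℚ_[p] ℚ_[p] (finProdFinEquiv : Fin n × Fin n ≃ Fin (n * n)))] at h2
    exact (Matrix.reindexAlgEquiv ℚ_[p] ℚ_[p] (finProdFinEquiv : Fin n × Fin n ≃ Fin (n * n))).injective h2
  have hle : dser U (m + 1) ≤ ρ.ker := by
    change ⁅dser U m, dser U m⁆ ≤ ρ.ker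
    rw [Subgroup.commutator_le]
    intro a ha b hb
    rw [MonoidHom.mem_ker]
    have h1 : ρ (a * b) = ρ (b * a) := by
      rw [map_mul, map_mul]
      apply Units.ext
      rw [Units.val_mul, Units.val_mul]
      exact kap_one (hkap a ha) _
    change ρ (a * b * a⁻¹ * b⁻¹) = 1
    have h4 : a * b * a⁻¹ * b⁻¹ = (a * b) * (b * a)⁻¹ := by group
    rw [h4, map_mul, h1, ← map_mul, mul_inv_cancel, map_one]
  intro c hc
  exact MonoidHom.mem_ker.1 (hle hc)

end Pool.Agent.U849.FO
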