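import Pool.Agent.U849.FO.Geo

/-!
# General coefficient rings
-/

set_option autoImplicit false
set_option linter.unusedSectionVars false

namespace Pool.Agent.U849.FO

open Filter Topology Module MeasureTheory MeasureTheory.Measure
open scoped ENNReal
open Pool.Agent.U849.SS (Cts)

section

variable {p : ℕ} [hp : Fact p.Prime] {K : Type} [NontriviallyNormedField K] [CompleteSpace K]
  [NormedAlgebra ℚ_[p] K] [IsAlgClosed K] [CharZero K] {n : ℕ}
  {G : Type} [Group G] [TopologicalSpace G] [IsTopologicalGroup G] [CompactSpace G]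
  [TotallyDisconnectedSpace G]

include hp in
/-- compact groups with many elements with eigenvalue ratios of finite order -/
theorem gen' (ρ : G →* GL (Fin n) K) (hρ : Continuous ρ) {c : ℝ} (hc : 0 < c)
    (h : ∀ X : Set G, IsClosed X → (∀ g ∈ X, ∀ x, x * g * x⁻¹ ∈ X) →
      (∀ g, (∃ k : ℕ, 0 < k ∧ ∃ c : K, IsNilpotent (((ρ g : GL (Fin n) K) :
        Matrix (Fin n) (Fin n) K) ^ k - c • (1 : Matrix (Fin n) (Fin n) K))) → g ∈ X) →
      ∀ U : Subgroup G, IsOpen (U : Set G) → ∀ A : Finset G,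
        (∀ g ∈ X, ∃ a ∈ A, a⁻¹ * g ∈ U) → c * U.index ≤ A.card) :
    ∃ U : Subgroup G, U.Normal ∧ IsOpen (U : Set G) ∧ ∃ m, ∀ c ∈ dser U m, ρ c = 1 := by
  classical
  set R : G →* Matrix (Fin (n * n)) (Fin (n * n)) K := adm K ρ with hR
  have hRc : Continuous R := adm_cont hρ
  obtain ⟨M, hM, htors⟩ := torsK (p := p) hRc
  let φ : Matrix (Fin (n * n)) (Fin (n * n)) K →+* End K (Fin (n * n) → K) :=
    ((Matrix.toLinAlgEquiv' : Matrix (Fin (n * n)) (Fin (n * n)) K ≃ₐ[K]
      End K (Fin (n * n) → K)) : _ →+* _)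
  have hφ : Function.Injective φ :=
    (Matrix.toLinAlgEquiv' : Matrix (Fin (n * n)) (Fin (n * n)) K ≃ₐ[K]
      End K (Fin (n * n) → K)).injective
  let ρF : G →* End K (Fin (n * n) → K) := φ.toMonoidHom.comp R
  have hρF' : ∀ g, ρF g = φ (R g) := fun g => rfl
  have hρF : ∀ g, ρF g = Matrix.toLin' (R g) := fun g => rfl
  have hcts : Cts ρF := by
    intro φ v
    have h1 : (fun g => φ (ρF g v)) = fun g => ∑ i, (∑ j, R g i j * v j) *
        φ (fun j => if i = j then 1 else 0) := by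
      funext g
      rw [LinearMap.pi_apply_eq_sum_univ φ, hρF, Matrix.toLin'_apply]
      rfl
    rw [h1]
    have h4 : ∀ i, Continuous fun g => ∑ j, R g i j * v j := fun i =>
      continuous_finsetSum _ fun j _ => (hRc.matrix_elem i j).mul continuous_const
    exact continuous_finsetSum _ fun i _ => (h4 i).mul continuous_const
  have hrel : ∀ (g : G) (M N : ℕ), (ρF g ^ M - 1) ^ N = φ ((R g ^ M - 1) ^ N) := by
    intro g M N
    rw [map_pow, map_sub, map_pow, map_one, hρF']
  set Good : Set G := {g | (R g ^ M - 1) ^ (n * n) = 0} with hGood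
  have hcl : IsClosed Good := isClosed_singleton.preimage
    (f := fun g => (R g ^ M - 1) ^ (n * n)) (((hRc.pow M).sub continuous_const).pow (n * n))
  have hsub : ∀ g, (∃ k : ℕ, 0 < k ∧ ∃ c : K, IsNilpotent (((ρ g : GL (Fin n) K) :
      Matrix (Fin n) (Fin n) K) ^ k - c • (1 : Matrix (Fin n) (Fin n) K))) → g ∈ Good := by
    rintro g ⟨k, hk, c, hnil⟩
    refine htors g k (n * n) hk (nil_pow ?_)
    have h1 := nil_scalar hnil
    have h2 : R g ^ k - 1 = Matrix.reindexAlgEquiv K K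
        (finProdFinEquiv : Fin n × Fin n ≃ Fin (n * n)) (kap K n (ρ g) ^ k - 1) := by
      rw [map_sub, map_pow, map_one]
      rfl
    rw [h2]
    exact h1.map _
  have hconj : ∀ g ∈ Good, ∀ x : G, x * g * x⁻¹ ∈ Good := by
    intro g hg x
    have hg' : (R g ^ M - 1) ^ (n * n) = 0 := hg
    change (R (x * g * x⁻¹) ^ M - 1) ^ (n * n) = 0
    have hx1 : R x⁻¹ * R x = 1 := by rw [← map_mul, inv_mul_cancel, map_one]
    have hx2 : R x * R x⁻¹ = 1 := by rw [← map_mul, mul_inv_cancel, map_one]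
    have hcp : ∀ (a : Matrix (Fin (n * n)) (Fin (n * n)) K) (k : ℕ),
        (R x * a * R x⁻¹) ^ k = R x * a ^ k * R x⁻¹ := by
      intro a k
      induction k with
      | zero => rw [pow_zero, pow_zero, mul_one, hx2]
      | succ k ih =>
        rw [pow_succ, ih, pow_succ]
        simp only [mul_assoc]
        rw [← mul_assoc (R x⁻¹) (R x), hx1, one_mul]
    rw [map_mul, map_mul, hcp]
    have h1 : R x * R g ^ M * R x⁻¹ - 1 = R x * (R g ^ M - 1) * R x⁻¹ := by
      rw [mul_sub, sub_mul, mul_one, hx2]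
    rw [h1, hcp, hg', mul_zero, zero_mul]
  -- the measure
  let _m : MeasurableSpace G := borel _
  have _b : BorelSpace G := ⟨rfl⟩
  let K₀ : TopologicalSpace.PositiveCompacts G := ⊤
  let μ : Measure G := haarMeasure K₀
  have hμ1 : IsProbabilityMeasure μ := ⟨by
    have h1 := haarMeasure_self (K₀ := K₀)
    exact h1⟩
  have hμX : ENNReal.ofReal c ≤ μ Good := by
    refine Pool.Agent.U849.SS.measure_ge μ hcl fun W hW A hA => ?_
    exact h Good hcl hconj hsub W hW A hA
  have hμ0 : μ Good ≠ 0 := by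
    intro h0
    rw [h0, nonpos_iff_eq_zero, ENNReal.ofReal_eq_zero] at hμX
    linarith
  obtain ⟨U, g, hUn, hUo, -, hg, hgU⟩ := Pool.Agent.U849.SS.coset_good (ρ := ρF) μ hcl hμ0 ⊤ isOpen_univ
    (M := M) (N := n * n) (fun x hx => by
      have hx' : (R x ^ M - 1) ^ (n * n) = 0 := hx
      rw [hrel, hx', map_zero])
  obtain ⟨U', hn', ho', m, hm⟩ := main2q (p := p) (g := g) hUo (N := n * n) hM (n * n)
    (Fin (n * n) → K) ρF (Module.finrank_fin_fun K) hcts
    (fun u hu => hgU (g * u) (by rwa [inv_mul_cancel_left]))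
  refine ⟨U', hn', ho', m + 1, ?_⟩
  have hkap : ∀ c ∈ dser U' m, kap K n (ρ c) = 1 := by
    intro c hc
    have h1 : φ (R c) = φ 1 := by
      rw [map_one]
      exact hm c hc
    have h2 : Matrix.reindexAlgEquiv K K (finProdFinEquiv : Fin n × Fin n ≃ Fin (n * n))
        (kap K n (ρ c)) = 1 := hφ h1
    rw [← map_one (Matrix.reindexAlgEquiv K K (finProdFinEquiv : Fin n × Fin n ≃ Fin (n * n)))] at h2
    exact (Matrix.reindexAlgEquiv K K (finProdFinEquiv : Fin n × Fin n ≃ Fin (n * n))).injective h2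
  have hle : dser U' (m + 1) ≤ ρ.ker := by
    change ⁅dser U' m, dser U' m⁆ ≤ ρ.ker
    rw [Subgroup.commutator_le]
    intro a ha b hb
    rw [MonoidHom.mem_ker]
    have h1 : ρ (a * b) = ρ (b * a) := by
      rw [map_mul, map_mul]
      apply Units.ext
      rw [Units.val_mul, Units.val_mul]
      exact kap_one (hkap a ha) _
    change ρ (a * b * a⁻¹ * b⁻¹) = 1
    have h4 : a * b * a⁻¹ * b⁻¹ = (a * b) * (b * a)⁻¹ := by group
    rw [h4, map_mul, h1, ← map_mul, mul_inv_cancel, map_one]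
  intro c hc
  exact MonoidHom.mem_ker.1 (hle hc)

end

open NumberField IsDedekindDomain Pool.Agent.W401.Cheb Pool.Agent.R401.Sup
open Pool.Agent.W569.FM Pool.Agent.R401.Img Pool.Agent.R401.Eng Pool.Agent.R401.Sup2
open Pool.Agent.R401.Sup3 Pool.Agent.R401.Sup4

variable {F : Type} [Field F] [NumberField F] {n : ℕ} {p : ℕ} [hp : Fact p.Prime]

include hp in
/-- Galois representations over complete algebraically closed fields -/
theorem one_repK {K : Type} [NontriviallyNormedField K] [CompleteSpace K]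
    [NormedAlgebra ℚ_[p] K] [IsAlgClosed K] [CharZero K] (ρ : GK F →* GL (Fin n) K)
    (hρ : Continuous ρ) (θ : ℝ) (hθ : θ < 1)
    (hdens : ∃ᶠ N : ℕ in atTop, dens (fun v : HeightOneSpectrum (𝓞 F) =>
      ∃ g, IsFrob v g ∧ ∀ k : ℕ, 0 < k → ∀ c : K,
        ¬ IsNilpotent (((ρ g : GL (Fin n) K) : Matrix (Fin n) (Fin n) K) ^ k -
          c • (1 : Matrix (Fin n) (Fin n) K))) N ≤ θ) :
    ∃ U : Subgroup (GK F), U.Normal ∧ IsOpen (U : Set (GK F)) ∧ ∃ m, ∀ c ∈ dser U m, ρ c = 1 := by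
  refine gen' (p := p) ρ hρ (c := 1 - θ) (by linarith) fun X hX hconj hsub W hW A hA => ?_
  have hfreq : ∃ᶠ N : ℕ in atTop,
      dens (fun v : HeightOneSpectrum (𝓞 F) => ∃ g, IsFrob v g ∧ g ∉ X) N ≤ θ := by
    refine hdens.mono fun N hN => le_trans (dens_le ?_ N) hN
    rintro v ⟨g, hg, hgG⟩
    exact ⟨g, hg, fun k hk c hnil => hgG (hsub g ⟨k, hk, c, hnil⟩)⟩
  have h1 := engine X hX hconj hfreq (fun _ : Fin 1 => 1) W hW A (by
    intro g hg
    have h2 := hg 0
    rw [mul_one] at h2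
    exact hA g h2)
  simpa using h1

/-- commutators modulo powers of an ideal -/
theorem comm_ideal {G A : Type} [Group G] [CommRing A] (ρ : G →* GL (Fin n) A) {J J' : Ideal A}
    (hJ : J * J ≤ J') {X : Subgroup G}
    (hX : ∀ x ∈ X, ∀ i j, (((ρ x : GL (Fin n) A) : Matrix (Fin n) (Fin n) A) - 1) i j ∈ J) :
    ∀ x ∈ ⁅X, X⁆, ∀ i j, (((ρ x : GL (Fin n) A) : Matrix (Fin n) (Fin n) A) - 1) i j ∈ J' := by
  let q : Matrix (Fin n) (Fin n) A →+* Matrix (Fin n) (Fin n) (A ⧸ J') := (Ideal.Quotient.mk J').mapMatrix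
  have hq : ∀ M : Matrix (Fin n) (Fin n) A, q M = 1 ↔ ∀ i j, (M - 1) i j ∈ J' := by
    intro M
    rw [← map_one q, ← sub_eq_zero, ← map_sub]
    constructor
    · intro h i j
      have h1 := congrFun (congrFun h i) j
      exact Ideal.Quotient.eq_zero_iff_mem.1 h1
    · intro h
      ext i j
      exact Ideal.Quotient.eq_zero_iff_mem.2 (h i j)
  have hle : ⁅X, X⁆ ≤ (q.toMonoidHom.comp ((Units.coeHom _).comp ρ)).ker := by
    rw [Subgroup.commutator_le]
    intro a ha b hb
    rw [MonoidHom.mem_ker]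
    set r : G →* Matrix (Fin n) (Fin n) (A ⧸ J') := q.toMonoidHom.comp ((Units.coeHom _).comp ρ) with hr
    have h1 : r (a * b) = r (b * a) := by
      rw [map_mul, map_mul]
      have h2 : ∀ u ∈ X, ∀ v ∈ X, r u * r v = r u + r v - 1 := by
        intro u hu v hv
        have h3 : (r u - 1) * (r v - 1) = 0 := by
          change (q _ - 1) * (q _ - 1) = 0
          rw [← map_one q, ← map_sub, ← map_sub, ← map_mul]
          ext i j
          change (Ideal.Quotient.mk J') _ = 0
          rw [Ideal.Quotient.eq_zero_iff_mem, Matrix.mul_apply]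
          exact Ideal.sum_mem _ fun k _ => hJ (Ideal.mul_mem_mul (hX u hu i k) (hX v hv k j))
        have h4 : r u * r v = (r u - 1) * (r v - 1) + (r u + r v - 1) := by noncomm_ring
        rw [h4, h3, zero_add]
      rw [h2 a ha b hb, h2 b hb a ha, add_comm (r a)]
    change r (a * b * a⁻¹ * b⁻¹) = 1
    have h4 : a * b * a⁻¹ * b⁻¹ = (a * b) * (b * a)⁻¹ := by group
    rw [h4, map_mul, h1, ← map_mul, mul_inv_cancel, map_one]
  intro x hx
  exact (hq _).1 (MonoidHom.mem_ker.1 (hle hx))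

theorem dser_ideal {G A : Type} [Group G] [CommRing A] (ρ : G →* GL (Fin n) A) {J : Ideal A}
    {X : Subgroup G}
    (hX : ∀ x ∈ X, ∀ i j, (((ρ x : GL (Fin n) A) : Matrix (Fin n) (Fin n) A) - 1) i j ∈ J) (s : ℕ) :
    ∀ x ∈ dser X s, ∀ i j, (((ρ x : GL (Fin n) A) : Matrix (Fin n) (Fin n) A) - 1) i j ∈ J ^ 2 ^ s := by
  induction s with
  | zero =>
    rw [pow_zero, pow_one]
    exact hX
  | succ s ih =>
    exact comm_ideal ρ (J := J ^ 2 ^ s) (by rw [← pow_add, ← two_mul, ← pow_succ']) ih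

theorem dser_add {G : Type} [Group G] (U : Subgroup G) (a b : ℕ) :
    dser U (a + b) = dser (dser U a) b := by
  induction b with
  | zero => rfl
  | succ b ih =>
    change ⁅dser U (a + b), dser U (a + b)⁆ = ⁅dser (dser U a) b, dser (dser U a) b⁆
    rw [ih]

include hp in
/-- **general coefficient rings** -/
theorem one_ring {A : Type} [CommRing A] [TopologicalSpace A] {I : Type} [Finite I] (K : I → Type)
    [∀ i, NontriviallyNormedField (K i)] [∀ i, CompleteSpace (K i)] [∀ i, NormedAlgebra ℚ_[p] (K i)]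
    [∀ i, IsAlgClosed (K i)] (ι : ∀ i, A →+* K i) (hι : ∀ i, Continuous (ι i)) {N : ℕ}
    (hN : (⨅ i, RingHom.ker (ι i)) ^ N = ⊥) (ρ : GK F →* GL (Fin n) A) (hρ : Continuous ρ)
    (θ : ℝ) (hθ : θ < 1)
    (hdens : ∃ᶠ N : ℕ in atTop, dens (fun v : HeightOneSpectrum (𝓞 F) =>
      ∃ g, IsFrob v g ∧ ∀ k : ℕ, 0 < k → ∀ c : A,
        ¬ IsNilpotent (((ρ g : GL (Fin n) A) : Matrix (Fin n) (Fin n) A) ^ k -
          c • (1 : Matrix (Fin n) (Fin n) A))) N ≤ θ) :
    ∃ U : Subgroup (GK F), IsOpen (U : Set (GK F)) ∧ ∃ m, ∀ c ∈ dser U m, ρ c = 1 := by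
  classical
  have hch : ∀ i, CharZero (K i) := fun i => charZero_of_injective_algebraMap (algebraMap ℚ_[p] (K i)).injective
  have hi : ∀ i, ∃ U : Subgroup (GK F), IsOpen (U : Set (GK F)) ∧ ∃ m, ∀ c ∈ dser U m,
      ∀ a b, (((ρ c : GL (Fin n) A) : Matrix (Fin n) (Fin n) A) - 1) a b ∈ RingHom.ker (ι i) := by
    intro i
    have := hch i
    let r : GK F →* GL (Fin n) (K i) := (Matrix.GeneralLinearGroup.map (ι i)).comp ρ
    have hr : ∀ g, ((r g : GL (Fin n) (K i)) : Matrix (Fin n) (Fin n) (K i)) =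
      ((ρ g : GL (Fin n) A) : Matrix (Fin n) (Fin n) A).map (ι i) := fun g => rfl
    have hc1 : Continuous fun g => ((ρ g : GL (Fin n) A) : Matrix (Fin n) (Fin n) A) :=
      Units.continuous_val.comp hρ
    have hrc : Continuous r := by
      rw [Units.continuous_iff]
      refine ⟨?_, ?_⟩
      · exact hc1.matrix_map (hι i)
      · have h1 : (fun x => (((r x)⁻¹ : GL (Fin n) (K i)) : Matrix (Fin n) (Fin n) (K i))) =
            fun x => ((ρ x⁻¹ : GL (Fin n) A) : Matrix (Fin n) (Fin n) A).map (ι i) := by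
          funext x
          rw [← map_inv, hr]
        rw [h1]
        exact (hc1.comp continuous_inv).matrix_map (hι i)
    obtain ⟨U, -, hUo, m, hm⟩ := one_repK (p := p) r hrc θ hθ (hdens.mono fun N hN =>
      le_trans (dens_le (by
        rintro v ⟨g, hg, hk⟩
        refine ⟨g, hg, fun k hk0 c hnil => hk k hk0 (ι i c) ?_⟩
        have h1 := hnil.map (ι i).mapMatrix
        have h2 : (ι i).mapMatrix (((ρ g : GL (Fin n) A) : Matrix (Fin n) (Fin n) A) ^ k -
            c • (1 : Matrix (Fin n) (Fin n) A)) =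
            ((r g : GL (Fin n) (K i)) : Matrix (Fin n) (Fin n) (K i)) ^ k -
              ι i c • (1 : Matrix (Fin n) (Fin n) (K i)) := by
          rw [map_sub, map_pow]
          congr 1
          ext a b
          simp [Matrix.one_apply, apply_ite (ι i)]
        rwa [h2] at h1) N) hN)
    refine ⟨U, hUo, m, fun c hc a b => ?_⟩
    have h1 := congrArg (fun x : GL (Fin n) (K i) => (x : Matrix (Fin n) (Fin n) (K i)) a b) (hm c hc)
    have h2 : ι i (((ρ c : GL (Fin n) A) : Matrix (Fin n) (Fin n) A) a b) =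
      (1 : Matrix (Fin n) (Fin n) (K i)) a b := h1
    rw [RingHom.mem_ker, Matrix.sub_apply, map_sub, h2, Matrix.one_apply, Matrix.one_apply]
    split_ifs <;> simp
  choose U hUo m hm using hi
  have hft : Fintype I := Fintype.ofFinite I
  set m₀ : ℕ := Finset.univ.sup m with hm₀
  refine ⟨⨅ i, U i, ?_, m₀ + N, ?_⟩
  · rw [Subgroup.coe_iInf]
    exact isOpen_iInter_of_finite hUo
  · have h1 : ∀ x ∈ dser (⨅ i, U i) m₀, ∀ a b,
        (((ρ x : GL (Fin n) A) : Matrix (Fin n) (Fin n) A) - 1) a b ∈ ⨅ i, RingHom.ker (ι i) := by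
      intro x hx a b
      rw [Submodule.mem_iInf]
      intro i
      refine hm i x ?_ a b
      exact dser_anti (U i) (Finset.le_sup (Finset.mem_univ i)) (dser_mono (iInf_le _ i) _ hx)
    intro c hc
    rw [dser_add] at hc
    have h2 := dser_ideal ρ h1 N c hc
    have h3 : (⨅ i, RingHom.ker (ι i)) ^ 2 ^ N = ⊥ := by
      rw [eq_bot_iff, ← hN]
      exact Ideal.pow_le_pow_right Nat.lt_two_pow_self.le
    rw [h3] at h2
    apply Units.ext
    ext a b
    have h4 := h2 a b
    rw [Ideal.mem_bot, Matrix.sub_apply, sub_eq_zero] at h4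
    exact h4

end Pool.Agent.U849.FO
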