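import Pool.Agent.U849.FO.Irr

/-!
# A coset of elements of finite order: solvability
-/

set_option autoImplicit false
set_option linter.unusedSectionVars false

namespace Pool.Agent.U849.FO

open Filter Topology Module
open Pool.Agent.U849.SS (MinSub Stb Cts exists_minSub sub quo)

variable {p : ℕ} [hp : Fact p.Prime] {K : Type} [NontriviallyNormedField K] [CompleteSpace K]
  [NormedAlgebra ℚ_[p] K] [IsAlgClosed K] [CharZero K]
  {G : Type} [Group G] [TopologicalSpace G] [IsTopologicalGroup G] [CompactSpace G]
  [TotallyDisconnectedSpace G]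

theorem cont_abs {A : Type} [NormedRing A] [NormedAlgebra K A] {n : ℕ}
    (E : A ≃ₐ[K] End K (Fin n → K)) {ρ : G →* End K (Fin n → K)} (hρ : Cts ρ) :
    Continuous fun g => E.symm (ρ g) := by
  have h1 : (fun g => E.symm (ρ g)) = fun g => ∑ i, ∑ j, (ρ g (Pi.single j 1)) i •
      E.symm (Matrix.toLin' (Matrix.single i j (1 : K))) := by
    funext g
    have h2 : ρ g = Matrix.toLin' (LinearMap.toMatrix' (ρ g)) := (Matrix.toLin'_toMatrix' _).symm
    have h3 := Matrix.matrix_eq_sum_single (LinearMap.toMatrix' (ρ g))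
    conv_lhs => rw [h2, h3]
    rw [_root_.map_sum, _root_.map_sum]
    refine Finset.sum_congr rfl fun i _ => ?_
    rw [_root_.map_sum, _root_.map_sum]
    refine Finset.sum_congr rfl fun j _ => ?_
    have h4 : Matrix.single i j (LinearMap.toMatrix' (ρ g) i j) =
        (ρ g (Pi.single j 1)) i • Matrix.single i j (1 : K) := by
      rw [Matrix.smul_single, smul_eq_mul, mul_one]
      rfl
    rw [h4, map_smul, map_smul]
  rw [h1]
  refine continuous_finsetSum _ fun i _ => continuous_finsetSum _ fun j _ => ?_
  exact (hρ (LinearMap.proj i) (Pi.single j 1)).smul continuous_const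

section
open scoped Matrix.Norms.Operator

include hp in
theorem irr_fin {n : ℕ} [Nontrivial (Fin n → K)] {ρ : G →* End K (Fin n → K)} (hρ : Cts ρ)
    (hirr : ∀ T : Submodule K (Fin n → K), (∀ g, ∀ v ∈ T, ρ g v ∈ T) → T = ⊥ ∨ T = ⊤)
    {g : G} {U : Subgroup G} (hUo : IsOpen (U : Set G)) {M : ℕ} (hM : 0 < M)
    (hg : ∀ u ∈ U, (ρ (g * u)) ^ M = 1) :
    ∃ U' : Subgroup G, U'.Normal ∧ IsOpen (U' : Set G) ∧ ∀ c ∈ ⁅U', U'⁆, ρ c = 1 := by
  let E : Matrix (Fin n) (Fin n) K ≃ₐ[K] End K (Fin n → K) := Matrix.toLinAlgEquiv'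
  exact irr_abs (p := p) (A := Matrix (Fin n) (Fin n) K) E (ρ := ρ)
    (R := (MonoidHomClass.toMonoidHom E.symm).comp ρ) (fun g => E.apply_symm_apply _)
    (cont_abs E hρ) hirr hUo hM hg

end

include hp in
theorem irr_gen {V : Type} [AddCommGroup V] [Module K V] [FiniteDimensional K V] [Nontrivial V]
    {ρ : G →* End K V} (hρ : Cts ρ)
    (hirr : ∀ T : Submodule K V, (∀ g, ∀ v ∈ T, ρ g v ∈ T) → T = ⊥ ∨ T = ⊤)
    {g : G} {U : Subgroup G} (hUo : IsOpen (U : Set G)) {M : ℕ} (hM : 0 < M)
    (hg : ∀ u ∈ U, (ρ (g * u)) ^ M = 1) :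
    ∃ U' : Subgroup G, U'.Normal ∧ IsOpen (U' : Set G) ∧ ∀ c ∈ ⁅U', U'⁆, ρ c = 1 := by
  set e : V ≃ₗ[K] (Fin (finrank K V) → K) := (Module.finBasis K V).equivFun with he
  let ρ' : G →* End K (Fin (finrank K V) → K) :=
    { toFun := fun g => e.toLinearMap ∘ₗ ρ g ∘ₗ e.symm.toLinearMap
      map_one' := by
        refine LinearMap.ext fun v => ?_
        rw [map_one]
        change e (e.symm v) = v
        rw [e.apply_symm_apply]
      map_mul' := fun a b => by
        refine LinearMap.ext fun v => ?_
        rw [map_mul]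
        change e (ρ a (ρ b (e.symm v))) = e (ρ a (e.symm (e (ρ b (e.symm v)))))
        rw [e.symm_apply_apply] }
  have hρ'a : ∀ g v, ρ' g v = e (ρ g (e.symm v)) := fun g v => rfl
  have hnt : Nontrivial (Fin (finrank K V) → K) := e.symm.toEquiv.nontrivial
  have hpow : ∀ (g : G) (k : ℕ) v, (ρ' g ^ k) v = e ((ρ g ^ k) (e.symm v)) := by
    intro g k
    induction k with
    | zero =>
      intro v
      change v = e (e.symm v)
      rw [e.apply_symm_apply]
    | succ k ih =>
      intro v
      rw [pow_succ', Module.End.mul_apply, ih, hρ'a, e.symm_apply_apply, pow_succ', Module.End.mul_apply]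
  obtain ⟨U', hn, ho, hU'⟩ := irr_fin (p := p) (ρ := ρ') (fun φ v => hρ (φ ∘ₗ e.toLinearMap) (e.symm v)) (by
      intro T hT
      rcases hirr (T.comap e.toLinearMap) (fun g v hv => by
          rw [Submodule.mem_comap] at hv ⊢
          have h1 := hT g (e v) hv
          rw [hρ'a, e.symm_apply_apply] at h1
          exact h1) with h1 | h1
      · left
        rw [eq_bot_iff]
        intro v hv
        have h2 : e.symm v ∈ T.comap e.toLinearMap := by
          rw [Submodule.mem_comap]
          change e (e.symm v) ∈ T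
          rwa [e.apply_symm_apply]
        rw [h1, Submodule.mem_bot] at h2
        rw [Submodule.mem_bot, ← e.apply_symm_apply v, h2, map_zero]
      · right
        rw [eq_top_iff]
        intro v _
        have h2 : e.symm v ∈ T.comap e.toLinearMap := by rw [h1]; trivial
        rw [Submodule.mem_comap] at h2
        change e (e.symm v) ∈ T at h2
        rwa [e.apply_symm_apply] at h2) hUo hM (fun u hu => by
      refine LinearMap.ext fun v => ?_
      rw [hpow, hg u hu]
      change e (e.symm v) = v
      rw [e.apply_symm_apply])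
  refine ⟨U', hn, ho, fun c hc => ?_⟩
  refine LinearMap.ext fun v => ?_
  have h1 := DFunLike.congr_fun (hU' c hc) (e v)
  rw [hρ'a, e.symm_apply_apply] at h1
  exact e.injective h1

/-- the derived series of a subgroup -/
def dser (U : Subgroup G) : ℕ → Subgroup G
  | 0 => U
  | m + 1 => ⁅dser U m, dser U m⁆

theorem dser_mono {U U' : Subgroup G} (h : U ≤ U') (m : ℕ) : dser U m ≤ dser U' m := by
  induction m with
  | zero => exact h
  | succ m ih => exact Subgroup.commutator_mono ih ih

theorem dser_succ_le (U : Subgroup G) (m : ℕ) : dser U (m + 1) ≤ dser U m := by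
  change ⁅dser U m, dser U m⁆ ≤ dser U m
  rw [Subgroup.commutator_le]
  intro a ha b hb
  exact (dser U m).mul_mem ((dser U m).mul_mem ((dser U m).mul_mem ha hb) ((dser U m).inv_mem ha))
    ((dser U m).inv_mem hb)

theorem dser_anti (U : Subgroup G) {m m' : ℕ} (h : m ≤ m') : dser U m' ≤ dser U m := by
  induction m', h using Nat.le_induction with
  | base => exact le_rfl
  | succ k _ ih => exact (dser_succ_le U k).trans ih

include hp in
/-- **solvability** -/
theorem main2 {g : G} {U : Subgroup G} (hUo : IsOpen (U : Set G)) {M : ℕ} (hM : 0 < M) :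
    ∀ (d : ℕ) (V : Type) [AddCommGroup V] [Module K V] [FiniteDimensional K V] (ρ : G →* End K V),
      finrank K V = d → Cts ρ → (∀ u ∈ U, (ρ (g * u)) ^ M = 1) →
    ∃ U' : Subgroup G, U'.Normal ∧ IsOpen (U' : Set G) ∧ ∃ m, ∀ c ∈ dser U' m, ρ c = 1 := by
  classical
  intro d
  induction d using Nat.strong_induction_on with
  | _ d ih =>
    intro V _ _ _ ρ hd hρ hgood
    rcases subsingleton_or_nontrivial V with hV | hV
    · refine ⟨⊤, inferInstance, isOpen_univ, 0, fun c _ => ?_⟩
      refine LinearMap.ext fun v => Subsingleton.elim _ _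
    · -- a minimal stable subspace
      have hex : ∃ d : ℕ, ∃ T : Submodule K V, (∀ g, ∀ v ∈ T, ρ g v ∈ T) ∧ T ≠ ⊥ ∧ finrank K T = d :=
        ⟨_, ⊤, fun _ _ _ => trivial, top_ne_bot, rfl⟩
      obtain ⟨T, hT, hT0, hTd⟩ := Nat.find_spec hex
      have hTmin : ∀ T' : Submodule K V, (∀ g, ∀ v ∈ T', ρ g v ∈ T') → T' ≤ T → T' = ⊥ ∨ T' = T := by
        intro T' hT' hle
        by_cases h0 : T' = ⊥
        · exact Or.inl h0
        · right
          have h1 : Nat.find hex ≤ finrank K T' := Nat.find_min' hex ⟨T', hT', h0, rfl⟩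
          rw [← hTd] at h1
          exact Submodule.eq_of_le_of_finrank_le hle h1
      have hpow : ∀ (g : G) (k : ℕ) (w : T), ((sub ρ hT g ^ k) w : V) = (ρ g ^ k) w := by
        intro g k
        induction k with
        | zero => intro w; simp
        | succ k ih => intro w; rw [pow_succ', Module.End.mul_apply, pow_succ', Module.End.mul_apply, ← ih]; rfl
      have hqpow : ∀ (g : G) (k : ℕ) (v : V), (quo ρ hT g ^ k) (T.mkQ v) = T.mkQ ((ρ g ^ k) v) := by
        intro g k
        induction k with
        | zero => intro w; simp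
        | succ k ih => intro w; rw [pow_succ', Module.End.mul_apply, pow_succ', Module.End.mul_apply, ih]; rfl
      have hnt : Nontrivial T := Submodule.nontrivial_iff_ne_bot.2 hT0
      -- the subspace
      obtain ⟨U₁, hU₁n, hU₁o, hU₁⟩ := irr_gen (p := p) (V := T) (ρ := sub ρ hT) (by
          intro φ v
          obtain ⟨ψ, hψ⟩ := LinearMap.exists_extend φ
          have h1 : (fun g => φ (sub ρ hT g v)) = fun g => ψ (ρ g v) := by
            funext g
            rw [← hψ]
            rfl
          rw [h1]
          exact hρ ψ v) (by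
          intro S hS
          rcases hTmin (S.map T.subtype) (by
            rintro g _ ⟨w, hw, rfl⟩
            exact ⟨sub ρ hT g w, hS g w hw, rfl⟩) (by rintro _ ⟨w, -, rfl⟩; exact w.2) with h1 | h1
          · left
            rw [eq_bot_iff]
            intro w hw
            have h2 : (w : V) ∈ S.map T.subtype := ⟨w, hw, rfl⟩
            rw [h1] at h2
            exact Subtype.ext ((Submodule.mem_bot K).1 h2)
          · right
            rw [eq_top_iff]
            rintro w -
            have h2 : (w : V) ∈ S.map T.subtype := by rw [h1]; exact w.2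
            obtain ⟨w', hw', hww⟩ := h2
            have h3 : w' = w := Subtype.ext hww
            rw [← h3]
            exact hw') hUo hM (by
          intro u hu
          refine LinearMap.ext fun w => Subtype.ext ?_
          rw [hpow, hgood u hu]
          rfl)
      -- the quotient
      have hlt : finrank K (V ⧸ T) < d := by
        have h1 := Submodule.finrank_quotient_add_finrank T
        have h2 : 0 < finrank K T := Module.finrank_pos
        omega
      obtain ⟨U₂, hU₂n, hU₂o, m, hU₂⟩ := ih _ hlt (V ⧸ T) (quo ρ hT) rfl (by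
          intro φ v
          obtain ⟨v, rfl⟩ := T.mkQ_surjective v
          exact hρ (φ ∘ₗ T.mkQ) v) (by
          intro u hu
          refine LinearMap.ext fun v => ?_
          obtain ⟨v, rfl⟩ := T.mkQ_surjective v
          rw [hqpow, hgood u hu]
          rfl)
      refine ⟨U₁ ⊓ U₂, inferInstance, ?_, (m + 1) + 1, ?_⟩
      · rw [Subgroup.coe_inf]
        exact hU₁o.inter hU₂o
      · -- elements of the derived series
        have hT1 : ∀ c ∈ dser (U₁ ⊓ U₂) (m + 1), ∀ v ∈ T, ρ c v = v := by
          intro c hc v hv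
          have h1 : c ∈ dser U₁ 1 := dser_anti U₁ (by omega) (dser_mono inf_le_left _ hc)
          have h2 := hU₁ c h1
          exact congrArg Subtype.val (DFunLike.congr_fun h2 ⟨v, hv⟩)
        have hQ1 : ∀ c ∈ dser (U₁ ⊓ U₂) (m + 1), ∀ v, ρ c v - v ∈ T := by
          intro c hc v
          have h1 : c ∈ dser U₂ m := dser_anti U₂ (Nat.le_succ m) (dser_mono inf_le_right _ hc)
          have h2 := DFunLike.congr_fun (hU₂ c h1) (T.mkQ v)
          have h3 : T.mkQ (ρ c v) = T.mkQ v := h2
          rw [← Submodule.ker_mkQ T, LinearMap.mem_ker, map_sub, h3, sub_self]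
        have hle : dser (U₁ ⊓ U₂) (m + 1 + 1) ≤ ρ.ker := by
          change ⁅dser (U₁ ⊓ U₂) (m + 1), dser (U₁ ⊓ U₂) (m + 1)⁆ ≤ ρ.ker
          rw [Subgroup.commutator_le]
          intro a ha b hb
          rw [MonoidHom.mem_ker]
          have h1 : ρ (a * b) = ρ (b * a) := by
            refine LinearMap.ext fun v => ?_
            have h2 : ρ a v = v + (ρ a v - v) := by abel
            have h3 : ρ b v = v + (ρ b v - v) := by abel
            rw [map_mul, map_mul, Module.End.mul_apply, Module.End.mul_apply]
            conv_lhs => rw [h3, map_add, hT1 a ha _ (hQ1 b hb v)]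
            conv_rhs => rw [h2, map_add, hT1 b hb _ (hQ1 a ha v)]
            abel
          change ρ (a * b * a⁻¹ * b⁻¹) = 1
          have h4 : a * b * a⁻¹ * b⁻¹ = (a * b) * (b * a)⁻¹ := by group
          rw [h4, map_mul, h1, ← map_mul, mul_inv_cancel, map_one]
        intro c hc
        exact MonoidHom.mem_ker.1 (hle hc)

end Pool.Agent.U849.FO
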